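import Pool.Agent.Work.MP_218513_lc.Norm

/-! MP_218513_lc, module CertBase: a sparse function which vanishes on a pseudorandom variety is zero. -/

set_option autoImplicit false

namespace Pool.Agent.XLR

open Module

private theorem cb_sg_sum {ι : Type*} (s : Finset ι) (f : ι → ZMod 2) :
    sg (∑ i ∈ s, f i) = ∏ i ∈ s, sg (f i) := by
  classical
  induction s using Finset.induction_on with
  | empty => simp [sg_zero]
  | insert a s ha ih => rw [Finset.sum_insert ha, Finset.prod_insert ha, sg_add, ih]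

/-- expansion of the product -/
private theorem cb_prod {k : ℕ} (a : Fin k → ZMod 2) :
    ∏ i, (1 + sg (a i)) = ∑ c : Fin k → ZMod 2, sg (∑ i, c i * a i) := by
  classical
  have h1 : ∀ i, (1 + sg (a i)) = ∑ j : ZMod 2, sg (j * a i) := by
    intro i
    generalize a i = b
    revert b
    decide
  simp_rw [h1, cb_sg_sum]
  rw [Finset.prod_univ_sum, Fintype.piFinset_univ]

/-- the Fourier inequality -/
private theorem cb_fourier {n : ℕ} (L K : ℤ) (hL : 0 ≤ L) (h q : (Fin n → ZMod 2) → ℤ)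
    (h2 : ∀ y, h y ^ 2 = 2 * h y) (h0 : ∀ y, 0 ≤ h y) (hs : (spar h : ℤ) ≤ K)
    (hq : ∀ γ : Fin n → ZMod 2, |∑ y, q y * sg (γ ⬝ᵥ y)| * L ≤ 2 ^ n - 1) :
    2 ^ n * |∑ y, h y * q y| * L ≤ K * (2 ^ n - 1) * ∑ y, h y := by
  classical
  have hpos : (0 : ℤ) < 2 ^ n := by positivity
  have hpos1 : (0 : ℤ) ≤ 2 ^ n - 1 := by linarith [Int.add_one_le_iff.2 hpos]
  -- expansion
  have e1 : 2 ^ n * (2 ^ n * (2 * ∑ y, h y * q y)) =
      ∑ α, ∑ β, W h α * W h β * ∑ y, q y * sg ((α + β) ⬝ᵥ y) := by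
    have e : 2 ^ n * (2 ^ n * (2 * ∑ y, h y * q y)) =
        ∑ y, (2 ^ n * h y) * (2 ^ n * h y) * q y := by
      rw [Finset.mul_sum, Finset.mul_sum, Finset.mul_sum]
      refine Finset.sum_congr rfl fun y _ => ?_
      have := h2 y
      calc (2 : ℤ) ^ n * (2 ^ n * (2 * (h y * q y))) = 2 ^ n * 2 ^ n * q y * (2 * h y) := by ring
        _ = 2 ^ n * 2 ^ n * q y * h y ^ 2 := by rw [this]
        _ = _ := by ring
    rw [e]
    have e' : ∀ y, (2 ^ n * h y) * (2 ^ n * h y) * q y =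
        ∑ α, ∑ β, W h α * W h β * (q y * sg ((α + β) ⬝ᵥ y)) := by
      intro y
      rw [inversion h y, Finset.sum_mul_sum, Finset.sum_mul]
      refine Finset.sum_congr rfl fun α _ => ?_
      rw [Finset.sum_mul]
      refine Finset.sum_congr rfl fun β _ => ?_
      rw [add_dotProduct, sg_add]
      ring
    simp_rw [e']
    rw [Finset.sum_comm]
    refine Finset.sum_congr rfl fun α _ => ?_
    rw [Finset.sum_comm]
    refine Finset.sum_congr rfl fun β _ => ?_
    rw [Finset.mul_sum]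
  have e2 : 2 ^ n * (2 ^ n * (2 * |∑ y, h y * q y|)) * L ≤ nrm h ^ 2 * (2 ^ n - 1) := by
    have ha : 2 ^ n * (2 ^ n * (2 * |∑ y, h y * q y|)) =
        |2 ^ n * (2 ^ n * (2 * ∑ y, h y * q y))| := by
      rw [abs_mul, abs_mul, abs_mul, abs_of_pos hpos]
      norm_num
    rw [ha, e1]
    calc |∑ α, ∑ β, W h α * W h β * ∑ y, q y * sg ((α + β) ⬝ᵥ y)| * L
        ≤ (∑ α, ∑ β, |W h α| * |W h β| * |∑ y, q y * sg ((α + β) ⬝ᵥ y)|) * L := by
          refine mul_le_mul_of_nonneg_right ?_ hL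
          refine (Finset.abs_sum_le_sum_abs _ _).trans (Finset.sum_le_sum fun α _ => ?_)
          refine (Finset.abs_sum_le_sum_abs _ _).trans (Finset.sum_le_sum fun β _ => ?_)
          rw [abs_mul, abs_mul]
      _ = ∑ α, ∑ β, |W h α| * |W h β| * (|∑ y, q y * sg ((α + β) ⬝ᵥ y)| * L) := by
          rw [Finset.sum_mul]
          refine Finset.sum_congr rfl fun α _ => ?_
          rw [Finset.sum_mul]
          refine Finset.sum_congr rfl fun β _ => ?_
          ring
      _ ≤ ∑ α, ∑ β, |W h α| * |W h β| * (2 ^ n - 1) := by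
          refine Finset.sum_le_sum fun α _ => Finset.sum_le_sum fun β _ => ?_
          exact mul_le_mul_of_nonneg_left (hq _) (by positivity)
      _ = nrm h ^ 2 * (2 ^ n - 1) := by
          unfold nrm
          rw [sq, Finset.sum_mul_sum, Finset.sum_mul]
          refine Finset.sum_congr rfl fun α _ => ?_
          rw [Finset.sum_mul]
  have e3 : nrm h ^ 2 ≤ K * (2 ^ n * (2 * ∑ y, h y)) := by
    have h1 : nrm h = ∑ α ∈ Finset.univ.filter (fun α => W h α ≠ 0), |W h α| := by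
      unfold nrm
      rw [Finset.sum_filter]
      refine Finset.sum_congr rfl fun α _ => ?_
      split_ifs with hα
      · rfl
      · push Not at hα
        rw [hα]; simp
    have h3 : ∑ α ∈ Finset.univ.filter (fun α => W h α ≠ 0), |W h α| ^ 2 ≤
        2 ^ n * (2 * ∑ y, h y) := by
      calc _ ≤ ∑ α, |W h α| ^ 2 := Finset.sum_le_sum_of_subset_of_nonneg (Finset.subset_univ _)
              (fun _ _ _ => by positivity)
        _ = ∑ α, W h α ^ 2 := Finset.sum_congr rfl fun α _ => sq_abs _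
        _ = 2 ^ n * ∑ y, h y ^ 2 := parseval h
        _ = _ := by
            rw [Finset.mul_sum (Finset.univ) h 2]
            congr 1
            exact Finset.sum_congr rfl fun y _ => h2 y
    rw [h1]
    refine (sq_sum_le_card_mul_sum_sq).trans ?_
    have hH : 0 ≤ ∑ y, h y := Finset.sum_nonneg fun y _ => h0 y
    calc _ ≤ ((Finset.univ.filter (fun α => W h α ≠ 0)).card : ℤ) * (2 ^ n * (2 * ∑ y, h y)) :=
          mul_le_mul_of_nonneg_left h3 (by positivity)
      _ ≤ K * (2 ^ n * (2 * ∑ y, h y)) :=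
          mul_le_mul_of_nonneg_right hs (by positivity)
  have e4 : 2 ^ n * (2 ^ n * (2 * |∑ y, h y * q y|)) * L ≤
      K * (2 ^ n * (2 * ∑ y, h y)) * (2 ^ n - 1) :=
    e2.trans (mul_le_mul_of_nonneg_right e3 hpos1)
  have e5 : (2 ^ n * 2) * (2 ^ n * |∑ y, h y * q y| * L) ≤
      (2 ^ n * 2) * (K * (2 ^ n - 1) * ∑ y, h y) := by
    calc (2 ^ n * 2) * (2 ^ n * |∑ y, h y * q y| * L)
        = 2 ^ n * (2 ^ n * (2 * |∑ y, h y * q y|)) * L := by ring
      _ ≤ K * (2 ^ n * (2 * ∑ y, h y)) * (2 ^ n - 1) := e4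
      _ = _ := by ring
  exact le_of_mul_le_mul_left e5 (by positivity)

/-- PROOF. Put `h y = 1 - sg (F y)` (values `0`, `2`, so `h y ^ 2 = 2 * h y`), `s = spar h ≤ 2^Λ + 1 ≤ 2^(Λ+1)` (`W h α = 2^n [α = 0] - W (sg F) α`).
For `c : Fin k → ZMod 2` write `p_c y = ∑ i, c i * p i y`.
(1) For every `c`, `2 * ∑_y h y * sg (p_c y) = ∑_y h y ^ 2 * sg (p_c y)` and
`4^n * ∑_y h y ^2 sg (p_c y) = ∑_α ∑_β W h α * W h β * ∑_y sg (p_c y) * sg ((α + β) ⬝ᵥ y)` (`inversion` twice).
If `|∑_y sg (p_c y) * sg (γ ⬝ᵥ y)| * 2^(k+Λ+1) < 2^n` for all `γ`, then with `B` the maximum of these sums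
`2 * 4^n * |∑_y h y sg (p_c y)| ≤ (nrm h)^2 * B ≤ s * (∑_α (W h α)^2) * B = s * 2^n * (2 * ∑ h) * B` (Cauchy-Schwarz, `parseval`), so
`2^n |∑_y h y sg (p_c y)| ≤ s * B * ∑ h` and `2^k * |∑_y h y sg (p_c y)| < ∑ h` if `∑ h > 0`.
(2) `0 = ∑_y h y * ∏_i (1 + sg (p i y)) = ∑_c ∑_y h y * sg (p_c y)` (expand the product; if `h y ≠ 0` then `F y ≠ 0`, some `p i y ≠ 0` by
`hcert`, and the product is zero). The `c` with `p_c = 0` identically contribute `∑ h` each (there is at least one, `c = 0`), the others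
are `≥ - (∑ h) / 2^k` strictly. So `∑ h > 0` is impossible; all `h y = 0`, i.e. `F y = 0`. -/
theorem cert_base {n k Λ : ℕ} (F : (Fin n → ZMod 2) → ZMod 2) (hs : spar (fun x => sg (F x)) ≤ 2 ^ Λ)
    (p : Fin k → (Fin n → ZMod 2) → ZMod 2) (hcert : ∀ y, (∀ i, p i y = 0) → F y = 0)
    (hno : ∀ c : Fin k → ZMod 2, (∃ y, ∑ i, c i * p i y ≠ 0) → ∀ α : Fin n → ZMod 2,
      |∑ y, sg (∑ i, c i * p i y) * sg (α ⬝ᵥ y)| * 2 ^ (k + Λ + 1) < 2 ^ n) :
    ∀ y, F y = 0 := by
  classical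
  have hpos : (0 : ℤ) < 2 ^ n := by positivity
  set h : (Fin n → ZMod 2) → ℤ := fun y => 1 - sg (F y) with hh
  have h2 : ∀ y, h y ^ 2 = 2 * h y := by
    intro y
    show (1 - sg (F y)) ^ 2 = 2 * (1 - sg (F y))
    generalize F y = a
    revert a
    decide
  have h0 : ∀ y, 0 ≤ h y := by
    intro y
    show 0 ≤ 1 - sg (F y)
    generalize F y = a
    revert a
    decide
  have hF : ∀ y, h y = 0 → F y = 0 := by
    intro y
    show 1 - sg (F y) = 0 → F y = 0
    generalize F y = a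
    revert a
    decide
  have hF0 : ∀ y, F y = 0 → h y = 0 := by
    intro y hy
    show 1 - sg (F y) = 0
    rw [hy, sg_zero, sub_self]
  -- sparsity of h
  have hsp : spar h ≤ 2 ^ (Λ + 1) := by
    have h1 : (Finset.univ.filter (fun α => W h α ≠ 0)) ⊆
        insert 0 (Finset.univ.filter (fun α => W (fun x => sg (F x)) α ≠ 0)) := by
      intro α hα
      rw [Finset.mem_filter] at hα
      rw [Finset.mem_insert]
      by_cases hα0 : α = 0
      · exact Or.inl hα0
      · right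
        rw [Finset.mem_filter]
        refine ⟨Finset.mem_univ _, ?_⟩
        intro hz
        apply hα.2
        unfold W at hz ⊢
        have : ∀ x, h x * sg (α ⬝ᵥ x) = sg (α ⬝ᵥ x) - sg (F x) * sg (α ⬝ᵥ x) := by
          intro x
          show (1 - sg (F x)) * sg (α ⬝ᵥ x) = _
          ring
        simp_rw [this]
        rw [Finset.sum_sub_distrib, sum_sg, if_neg hα0, hz, sub_zero]
    have h3 : spar h ≤ spar (fun x => sg (F x)) + 1 := by
      unfold spar
      exact (Finset.card_le_card h1).trans (Finset.card_insert_le _ _)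
    have h4 : 1 ≤ 2 ^ Λ := Nat.one_le_two_pow
    have h5 : 2 ^ (Λ + 1) = 2 ^ Λ * 2 := pow_succ 2 Λ
    omega
  set H := ∑ y, h y with hH
  have hHnn : 0 ≤ H := Finset.sum_nonneg fun y _ => h0 y
  rcases hHnn.lt_or_eq with hHpos | hHz
  swap
  · intro y
    exact hF y ((Finset.sum_eq_zero_iff_of_nonneg (fun y _ => h0 y)).1 hHz.symm y (Finset.mem_univ _))
  exfalso
  obtain ⟨T, hT⟩ : ∃ T : (Fin k → ZMod 2) → ℤ, ∀ c, T c = ∑ y, h y * sg (∑ i, c i * p i y) :=
    ⟨_, fun _ => rfl⟩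
  -- the sum of all `T c` vanishes
  have hsum : ∑ c, T c = 0 := by
    have e : ∑ c, T c = ∑ y, h y * ∏ i, (1 + sg (p i y)) := by
      simp_rw [hT]
      rw [Finset.sum_comm]
      refine Finset.sum_congr rfl fun y _ => ?_
      rw [cb_prod, Finset.mul_sum]
    rw [e]
    refine Finset.sum_eq_zero fun y _ => ?_
    by_cases hy : ∀ i, p i y = 0
    · rw [hF0 y (hcert y hy), zero_mul]
    · push Not at hy
      obtain ⟨i, hi⟩ := hy
      have hi1 : 1 + sg (p i y) = 0 := by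
        revert hi
        generalize p i y = a
        revert a
        decide
      rw [Finset.prod_eq_zero (Finset.mem_univ i) hi1, mul_zero]
  have hT0 : ∀ c : Fin k → ZMod 2, (∀ y, ∑ i, c i * p i y = 0) → T c = H := by
    intro c hc
    rw [hT, hH]
    refine Finset.sum_congr rfl fun y _ => ?_
    rw [hc y, sg_zero, mul_one]
  have hT1 : ∀ c : Fin k → ZMod 2, -H ≤ 2 ^ k * T c := by
    intro c
    by_cases hc : ∃ y, ∑ i, c i * p i y ≠ 0
    · have hb := cb_fourier (n := n) (2 ^ (k + Λ + 1)) (2 ^ (Λ + 1)) (by positivity) h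
        (fun y => sg (∑ i, c i * p i y)) h2 h0 (by exact_mod_cast hsp)
        (fun γ => by
          have := hno c hc γ
          linarith [Int.add_one_le_iff.2 this])
      have hb' : 2 ^ n * |T c| * 2 ^ (k + Λ + 1) ≤ 2 ^ (Λ + 1) * (2 ^ n - 1) * H := by
        rw [hT, hH]; exact hb
      have h5 : (2 : ℤ) ^ (k + Λ + 1) = 2 ^ (Λ + 1) * 2 ^ k := by
        rw [← pow_add]; congr 1; omega
      rw [h5] at hb'
      have h6 : (2 ^ (Λ + 1) * 2 ^ n) * (2 ^ k * |T c|) ≤ (2 ^ (Λ + 1) * 2 ^ n) * H := by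
        calc (2 ^ (Λ + 1) * 2 ^ n) * (2 ^ k * |T c|)
            = 2 ^ n * |T c| * (2 ^ (Λ + 1) * 2 ^ k) := by ring
          _ ≤ 2 ^ (Λ + 1) * (2 ^ n - 1) * H := hb'
          _ ≤ (2 ^ (Λ + 1) * 2 ^ n) * H := by
              have : 2 ^ (Λ + 1) * (2 ^ n - 1) * H =
                (2 ^ (Λ + 1) * 2 ^ n) * H - 2 ^ (Λ + 1) * H := by ring
              rw [this]
              have : 0 ≤ 2 ^ (Λ + 1) * H := by positivity
              linarith
      have h7 : 2 ^ k * |T c| ≤ H := le_of_mul_le_mul_left h6 (by positivity)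
      have h8 : -(2 ^ k * |T c|) ≤ 2 ^ k * T c := by
        have := neg_abs_le (T c)
        have h9 : (0 : ℤ) ≤ 2 ^ k := by positivity
        nlinarith
      linarith
    · push Not at hc
      rw [hT0 c hc]
      have : 0 ≤ 2 ^ k * H := by positivity
      linarith
  -- the contribution of `c = 0` dominates
  have hsplit : ∑ c, 2 ^ k * T c = 2 ^ k * T 0 + ∑ c ∈ Finset.univ.erase 0, 2 ^ k * T c :=
    (Finset.add_sum_erase Finset.univ (fun c => 2 ^ k * T c) (Finset.mem_univ 0)).symm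
  have hz : ∑ c, 2 ^ k * T c = 0 := by
    rw [← Finset.mul_sum, hsum, mul_zero]
  have hrest : ((2 : ℤ) ^ k - 1) * (-H) ≤ ∑ c ∈ Finset.univ.erase 0, 2 ^ k * T c := by
    have hcard : (((Finset.univ : Finset (Fin k → ZMod 2)).erase 0).card : ℤ) = 2 ^ k - 1 := by
      rw [Finset.card_erase_of_mem (Finset.mem_univ _), Finset.card_univ, Fintype.card_pi]
      simp [ZMod.card]
    rw [← hcard, ← nsmul_eq_mul]
    exact Finset.card_nsmul_le_sum _ _ _ (fun c _ => hT1 c)
  have hT00 : T 0 = H := hT0 0 (fun y => by simp)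
  rw [hz, hT00] at hsplit
  nlinarith

end Pool.Agent.XLR
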