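import Pool.Agent.Work.MP_218513_lc.MainPT

/-! MP_218513_lc: the statement for Boolean functions on `{0,1}^n`. -/

set_option autoImplicit false

namespace Pool.Agent.XLR

open Module

/-- Fourier sparsity of a Boolean function: the number of sets `S` of coordinates with
`∑ x, f x * (-1) ^ (∑ i ∈ S, x i) ≠ 0`. -/
def sps {n : ℕ} (f : (Fin n → Bool) → Bool) : ℕ :=
  (Finset.univ.filter (fun S : Finset (Fin n) =>
    (∑ x : Fin n → Bool, (if f x then (1 : ℤ) else 0) *
      (-1) ^ (S.filter (fun i => x i = true)).card) ≠ 0)).card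

/-- `2 ^ n` times the spectral norm of `(-1) ^ f`, i.e. times the sum of the absolute values of its Fourier coefficients. -/
def snorm {n : ℕ} (f : (Fin n → Bool) → Bool) : ℤ :=
  ∑ S : Finset (Fin n), |∑ x : Fin n → Bool, (if f x then (-1 : ℤ) else 1) *
    (-1) ^ (S.filter (fun i => x i = true)).card|

/-- `DTle k f`: some parity decision tree of height at most `k` computes `f`
(a query of the empty set is allowed, so trees may be padded). -/
inductive DTle {n : ℕ} : ℕ → ((Fin n → Bool) → Bool) → Prop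
  | leaf (b : Bool) : DTle 0 (fun _ => b)
  | query (k : ℕ) (S : Finset (Fin n)) (g₀ g₁ : (Fin n → Bool) → Bool) (h₀ : DTle k g₀) (h₁ : DTle k g₁) :
      DTle (k + 1) (fun x => if (S.filter (fun i => x i = true)).card % 2 = 1 then g₁ x else g₀ x)

/-- `DegLe f d`: over the field with two elements, `f` is a polynomial of degree at most `d`, i.e. the sum modulo
two of a set `P` of products `∏ i ∈ M, x i` with `M.card ≤ d`. -/
def DegLe {n : ℕ} (f : (Fin n → Bool) → Bool) (d : ℕ) : Prop :=
  ∃ P : Finset (Finset (Fin n)), (∀ M ∈ P, M.card ≤ d) ∧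
    ∀ x, f x = decide (Odd (P.filter (fun M => ∀ i ∈ M, x i = true)).card)

/-- `true ↦ 1`, `false ↦ 0`. -/
def toZ (b : Bool) : ZMod 2 := if b then 1 else 0

/-- points of the cube as vectors -/
def xz {n : ℕ} (x : Fin n → Bool) : Fin n → ZMod 2 := fun i => toZ (x i)

/-- vectors as points of the cube -/
def xb {n : ℕ} (x : Fin n → ZMod 2) : Fin n → Bool := fun i => decide (x i = 1)

theorem toZ_dec (a : ZMod 2) : toZ (decide (a = 1)) = a := by revert a; decide
theorem dec_toZ (b : Bool) : decide (toZ b = 1) = b := by revert b; decide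

theorem xz_xb {n : ℕ} (x : Fin n → ZMod 2) : xz (xb x) = x := by
  funext i; exact toZ_dec _
theorem xb_xz {n : ℕ} (x : Fin n → Bool) : xb (xz x) = x := by
  funext i; exact dec_toZ _

/-- The vector with support `S`. -/
def ind {n : ℕ} (S : Finset (Fin n)) : Fin n → ZMod 2 := fun i => if i ∈ S then 1 else 0

/-- The support of a vector. -/
def supp {n : ℕ} (α : Fin n → ZMod 2) : Finset (Fin n) := Finset.univ.filter (fun i => α i = 1)

theorem ind_supp {n : ℕ} (α : Fin n → ZMod 2) : ind (supp α) = α := by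
  funext i
  simp only [ind, supp, Finset.mem_filter, Finset.mem_univ, true_and]
  generalize α i = a
  revert a; decide

theorem dot_ind {n : ℕ} (S : Finset (Fin n)) (x : Fin n → Bool) :
    ind S ⬝ᵥ xz x = ((S.filter (fun i => x i = true)).card : ZMod 2) := by
  rw [Finset.card_filter, Nat.cast_sum]
  simp only [dotProduct, ind, xz, toZ]
  rw [← Finset.sum_filter_add_sum_filter_not Finset.univ (fun i => i ∈ S)]
  have h2 : ∑ x_1 ∈ Finset.univ.filter (fun i => i ∉ S), (if x_1 ∈ S then (1 : ZMod 2) else 0) *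
      (if x x_1 = true then 1 else 0) = 0 := by
    apply Finset.sum_eq_zero
    intro i hi
    simp only [Finset.mem_filter, Finset.mem_univ, true_and] at hi
    simp [hi]
  rw [h2, add_zero]
  have h3 : Finset.univ.filter (fun i => i ∈ S) = S := by ext; simp
  rw [h3]
  apply Finset.sum_congr rfl
  intro i hi
  simp [hi]

theorem natCast_eq_one (k : ℕ) : ((k : ZMod 2) = 1) ↔ k % 2 = 1 := by
  have : ((k : ZMod 2) = ((1 : ℕ) : ZMod 2)) ↔ k % 2 = 1 % 2 := ZMod.natCast_eq_natCast_iff' k 1 2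
  simpa using this

theorem sg_natCast (k : ℕ) : sg (k : ZMod 2) = (-1) ^ k := by
  induction k with
  | zero => simp [sg]
  | succ k ih => rw [Nat.cast_succ, sg_add, ih, pow_succ]; simp [sg]

theorem DTle_of_PT {n k : ℕ} {F : (Fin n → ZMod 2) → ZMod 2} (h : PT k F) :
    DTle k (fun x : Fin n → Bool => decide (F (xz x) = 1)) := by
  induction h with
  | leaf c => exact DTle.leaf _
  | node k α g₀ g₁ h₀ h₁ ih₀ ih₁ =>
    have := DTle.query k (supp α) _ _ ih₀ ih₁
    have e : (fun x : Fin n → Bool => decide ((if α ⬝ᵥ xz x = 1 then g₁ (xz x) else g₀ (xz x)) = 1))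
        = (fun x => if ((supp α).filter (fun i => x i = true)).card % 2 = 1 then decide (g₁ (xz x) = 1)
            else decide (g₀ (xz x) = 1)) := by
      funext x
      have hx : (α ⬝ᵥ xz x = 1) ↔ ((supp α).filter (fun i => x i = true)).card % 2 = 1 := by
        rw [← natCast_eq_one, ← dot_ind, ind_supp]
      by_cases hc : α ⬝ᵥ xz x = 1
      · rw [if_pos hc, if_pos (hx.1 hc)]
      · rw [if_neg hc, if_neg (fun h => hc (hx.2 h))]
    rw [e]
    exact this

/-- The function over `ZMod 2`. -/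
def toF {n : ℕ} (f : (Fin n → Bool) → Bool) : (Fin n → ZMod 2) → ZMod 2 := fun x => toZ (f (xb x))

theorem sum_xz {n : ℕ} (h : (Fin n → ZMod 2) → ℤ) : ∑ x, h x = ∑ x : Fin n → Bool, h (xz x) := by
  refine (Fintype.sum_equiv ⟨xz, xb, xb_xz, xz_xb⟩ _ _ (fun x => rfl)).symm

theorem spar_toF {n : ℕ} (f : (Fin n → Bool) → Bool) : spar (fun x => sg (toF f x)) ≤ sps f + 1 := by
  classical
  have key : ∀ α : Fin n → ZMod 2, α ≠ 0 → W (fun x => sg (toF f x)) α
      = -2 * ∑ x : Fin n → Bool, (if f x then (1 : ℤ) else 0) *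
        (-1) ^ ((supp α).filter (fun i => x i = true)).card := by
    intro α hα
    have h1 : W (fun x => sg (toF f x)) α
        = ∑ x : Fin n → ZMod 2, sg (α ⬝ᵥ x) - 2 * ∑ x : Fin n → ZMod 2, (if f (xb x) then (1 : ℤ) else 0) * sg (α ⬝ᵥ x) := by
      rw [Finset.mul_sum, ← Finset.sum_sub_distrib]
      unfold W
      apply Finset.sum_congr rfl
      intro x _
      have hb : ∀ b : Bool, sg (toZ b) = 1 - 2 * (if b then (1 : ℤ) else 0) := by
        intro b; cases b <;> simp [toZ, sg]
      simp only [toF, hb]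
      ring
    rw [h1, sum_sg, if_neg hα, sum_xz (fun x => (if f (xb x) then (1 : ℤ) else 0) * sg (α ⬝ᵥ x))]
    have h2 : ∀ x : Fin n → Bool, (if f (xb (xz x)) then (1 : ℤ) else 0) * sg (α ⬝ᵥ xz x)
        = (if f x then (1 : ℤ) else 0) * (-1) ^ ((supp α).filter (fun i => x i = true)).card := by
      intro x
      rw [xb_xz, ← sg_natCast, ← dot_ind, ind_supp]
    simp only [h2]
    ring
  unfold spar sps
  have hsub : (Finset.univ.filter (fun α => W (fun x => sg (toF f x)) α ≠ 0))
      ⊆ insert 0 ((Finset.univ.filter (fun S : Finset (Fin n) =>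
        (∑ x : Fin n → Bool, (if f x then (1 : ℤ) else 0) *
          (-1) ^ (S.filter (fun i => x i = true)).card) ≠ 0)).image ind) := by
    intro α hα
    simp only [Finset.mem_filter, Finset.mem_univ, true_and] at hα
    by_cases h0 : α = 0
    · simp [h0]
    · apply Finset.mem_insert_of_mem
      apply Finset.mem_image.2
      refine ⟨supp α, ?_, ind_supp α⟩
      simp only [Finset.mem_filter, Finset.mem_univ, true_and]
      intro h
      apply hα
      rw [key α h0, h]; simp
  calc _ ≤ _ := Finset.card_le_card hsub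
    _ ≤ _ := Finset.card_insert_le _ _
    _ ≤ _ := by
      apply Nat.add_le_add_right
      exact Finset.card_image_le

theorem IsPoly.dm_eq_zero {K : Type*} [Field K] [CharP K 2] {n : ℕ} : ∀ (d : ℕ) {G : (Fin n → K) → K},
    IsPoly d G → ∀ m : Multiset (Fin n → K), m.card = d + 1 → ∀ x, dm m G x = 0 := by
  intro d
  induction d with
  | zero =>
    intro G hG m hm x
    obtain ⟨a, rfl⟩ := Multiset.card_eq_one.1 hm
    rw [← Multiset.cons_zero, dm_cons, dm_zero, dm_zero, hG.const x (x + a)]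
    exact CharTwo.add_self_eq_zero _
  | succ d ih =>
    intro G hG m hm x
    obtain ⟨a, ha⟩ := Multiset.exists_mem_of_ne_zero (s := m) (by rintro rfl; simp at hm)
    obtain ⟨m', rfl⟩ := Multiset.exists_cons_of_mem ha
    rw [dm_cons']
    exact ih (hG.deriv a) m' (by simpa using hm) x

theorem isPoly_of_degLe {n d : ℕ} {f : (Fin n → Bool) → Bool} (h : DegLe f d) : IsPoly d (toF f) := by
  classical
  obtain ⟨P, hP, hf⟩ := h
  refine ⟨fun S => if S ∈ P then 1 else 0, ?_, ?_⟩
  · intro S hS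
    show (if S ∈ P then (1 : ZMod 2) else 0) = 0
    rw [if_neg]
    intro hS'
    exact absurd (hP S hS') (by omega)
  · intro x
    have h1 : ∀ S : Finset (Fin n), (∏ i ∈ S, x i) = if (∀ i ∈ S, xb x i = true) then (1 : ZMod 2) else 0 := by
      intro S
      by_cases hS : ∀ i ∈ S, xb x i = true
      · rw [if_pos hS]
        apply Finset.prod_eq_one
        intro i hi
        have := hS i hi
        simpa [xb] using this
      · rw [if_neg hS]
        push Not at hS
        obtain ⟨i, hi, hne⟩ := hS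
        apply Finset.prod_eq_zero hi
        have h2 : x i ≠ 1 := by simpa [xb] using hne
        generalize x i = a at h2
        revert a; decide
    have h2 : ∑ S : Finset (Fin n), (if S ∈ P then (1 : ZMod 2) else 0) * ∏ i ∈ S, x i
        = ((P.filter (fun M => ∀ i ∈ M, xb x i = true)).card : ZMod 2) := by
      rw [Finset.card_filter, Nat.cast_sum, ← Finset.sum_filter_add_sum_filter_not Finset.univ (fun S => S ∈ P)]
      have e1 : ∑ S ∈ Finset.univ.filter (fun S => S ∉ P), (if S ∈ P then (1 : ZMod 2) else 0) * ∏ i ∈ S, x i = 0 := by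
        apply Finset.sum_eq_zero
        intro S hS
        simp only [Finset.mem_filter, Finset.mem_univ, true_and] at hS
        simp [hS]
      have e2 : Finset.univ.filter (fun S => S ∈ P) = P := by ext; simp
      rw [e1, add_zero, e2]
      apply Finset.sum_congr rfl
      intro S hS
      rw [if_pos hS, one_mul, h1]
      split_ifs <;> simp
    rw [h2]
    show toZ (f (xb x)) = _
    rw [hf]
    generalize (P.filter (fun M => ∀ i ∈ M, xb x i = true)).card = k
    by_cases hk : Odd k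
    · have : k % 2 = 1 := Nat.odd_iff.1 hk
      rw [(natCast_eq_one k).2 this]
      simp [toZ, hk]
    · have hk' : Even k := Nat.not_odd_iff_even.1 hk
      have : (k : ZMod 2) = 0 := by
        rw [ZMod.natCast_eq_zero_iff]; exact hk'.two_dvd
      rw [this]
      simp [toZ, hk]

theorem supp_ind {n : ℕ} (S : Finset (Fin n)) : supp (ind S) = S := by
  ext i
  simp [supp, ind]

theorem nrm_toF {n : ℕ} (f : (Fin n → Bool) → Bool) : nrm (fun x => sg (toF f x)) = snorm f := by
  unfold nrm snorm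
  refine Fintype.sum_equiv ⟨supp, ind, ind_supp, supp_ind⟩ _ _ (fun α => ?_)
  congr 1
  unfold W
  rw [sum_xz]
  refine Finset.sum_congr rfl fun x _ => ?_
  have hb : ∀ b : Bool, sg (toZ b) = (if b then (-1 : ℤ) else 1) := by
    intro b; cases b <;> simp [toZ, sg]
  show sg (toZ (f (xb (xz x)))) * sg (α ⬝ᵥ xz x) = _
  rw [hb, xb_xz]
  congr 1
  show sg (α ⬝ᵥ xz x) = (-1) ^ ((supp α).filter (fun i => x i = true)).card
  rw [← sg_natCast, ← dot_ind, ind_supp]

theorem low_degree_norm {n d Λ : ℕ} (hΛ : 1 ≤ Λ) (f : (Fin n → Bool) → Bool) (hf : DegLe f d)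
    (hs : snorm f ^ 2 ≤ 2 ^ Λ * 4 ^ n) :
    DTle (d * 8 ^ (d - 1) * (Λ * (Nat.log 2 Λ + 1))) f := by
  have hpoly := isPoly_of_degLe hf
  have hder := IsPoly.dm_eq_zero d hpoly
  rw [← nrm_toF] at hs
  have h := main_PT Λ d n (toF f) hder hs
  have h' := h.mono (Bd_le Λ hΛ d)
  have h'' := DTle_of_PT h'
  have e : (fun x : Fin n → Bool => decide (toF f (xz x) = 1)) = f := by
    funext x
    simp only [toF, xb_xz]
    exact dec_toZ _
  rw [e] at h''
  exact h''

theorem low_degree {n d : ℕ} (f : (Fin n → Bool) → Bool) (hf : DegLe f d) :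
    DTle (d * 8 ^ (d - 1) * ((Nat.log 2 (sps f) + 1) * (Nat.log 2 (Nat.log 2 (sps f) + 1) + 1))) f := by
  apply low_degree_norm (by omega) f hf
  rw [← nrm_toF]
  have h1 := nrm_sq_le (toF f)
  have h2 := spar_toF f
  have h3 := Nat.lt_pow_succ_log_self (b := 2) (by norm_num) (sps f)
  have h4 : spar (fun x => sg (toF f x)) ≤ 2 ^ (Nat.log 2 (sps f) + 1) := h2.trans h3
  have h5 : ((spar (fun x => sg (toF f x)) : ℕ) : ℤ) ≤ 2 ^ (Nat.log 2 (sps f) + 1) := by exact_mod_cast h4
  exact h1.trans (mul_le_mul_of_nonneg_right h5 (by positivity))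

theorem DTle.mono {n k l : ℕ} {f : (Fin n → Bool) → Bool} (h : DTle k f) (hkl : k ≤ l) : DTle l f := by
  induction hkl with
  | refl => exact h
  | step _ ih =>
    have := DTle.query _ ∅ f f ih ih
    simpa using this

theorem low_degree_poly (A : ℕ) : ∃ C : ℕ, ∀ (n d : ℕ) (f : (Fin n → Bool) → Bool), DegLe f d →
    d ≤ A * (Nat.log 2 (Nat.log 2 (sps f) + 1) + 1) → DTle (C * (Nat.log 2 (sps f) + 1) ^ C) f := by
  refine ⟨A * 8 ^ A + 3 * A + 3, fun n d f hf hd => ?_⟩
  apply (low_degree f hf).mono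
  set Λ := Nat.log 2 (sps f) + 1 with hΛ
  set l := Nat.log 2 Λ with hl
  have hΛ1 : 1 ≤ Λ := by omega
  have h2l : 2 ^ l ≤ Λ := Nat.pow_log_le_self 2 (by omega)
  have hl1 : l + 1 ≤ Λ := by
    have : l < 2 ^ l := Nat.lt_two_pow_self
    omega
  have h8 : 8 ^ (d - 1) ≤ 8 ^ A * Λ ^ (3 * A) := by
    calc 8 ^ (d - 1) ≤ 8 ^ (A * (l + 1)) := Nat.pow_le_pow_right (by norm_num) (by omega)
      _ = 8 ^ A * (2 ^ l) ^ (3 * A) := by
        have e8 : (8 : ℕ) = 2 ^ 3 := by norm_num
        rw [e8, ← pow_mul, ← pow_mul, ← pow_mul, ← pow_add]; congr 1; ring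
      _ ≤ 8 ^ A * Λ ^ (3 * A) := Nat.mul_le_mul_left _ (Nat.pow_le_pow_left h2l _)
  calc d * 8 ^ (d - 1) * (Λ * (l + 1))
      ≤ (A * (l + 1)) * (8 ^ A * Λ ^ (3 * A)) * (Λ * (l + 1)) := by gcongr
    _ ≤ (A * Λ) * (8 ^ A * Λ ^ (3 * A)) * (Λ * Λ) := by gcongr
    _ = (A * 8 ^ A) * Λ ^ (3 * A + 3) := by ring
    _ ≤ (A * 8 ^ A + 3 * A + 3) * Λ ^ (A * 8 ^ A + 3 * A + 3) := by
      apply Nat.mul_le_mul (by omega)
      exact Nat.pow_le_pow_right hΛ1 (by omega)

end Pool.Agent.XLR
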