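import Pool.Agent.Work.MP_218513_lc.CertMain
import Pool.Agent.Work.MP_218513_lc.HalvePT
import Pool.Agent.Work.MP_218513_lc.Final

/-! MP_218513_lc: cubic certificates and parity decision trees, for Boolean functions on `{0,1}^n`. -/

set_option autoImplicit false

namespace Pool.Agent.XLR

open Module

/-- `CubicCert f x k`: `f` is constant on the set of solutions `y` of a system of `k` equations `P i y = P i x` in which
every `P i` is a polynomial of degree at most three over the field with two elements. -/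
def CubicCert {n : ℕ} (f : (Fin n → Bool) → Bool) (x : Fin n → Bool) (k : ℕ) : Prop :=
  ∃ P : Fin k → ((Fin n → Bool) → Bool), (∀ i, DegLe (P i) 3) ∧ ∀ y, (∀ i, P i y = P i x) → f y = f x

/-- `ParityCert f x k`: `f` is constant on the set of all `y` which give the same answers as `x` to `k` parity queries
(an affine subspace of codimension at most `k` containing `x`). -/
def ParityCert {n : ℕ} (f : (Fin n → Bool) → Bool) (x : Fin n → Bool) (k : ℕ) : Prop :=
  ∃ S : Fin k → Finset (Fin n), ∀ y, (∀ i, ((S i).filter (fun j => y j = true)).card % 2 =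
    ((S i).filter (fun j => x j = true)).card % 2) → f y = f x

theorem sps_eq {n : ℕ} (f : (Fin n → Bool) → Bool) : spar (fun x => iv (toF f x)) = sps f := by
  classical
  have key : ∀ α : Fin n → ZMod 2, W (fun x => iv (toF f x)) α
      = ∑ x : Fin n → Bool, (if f x then (1 : ℤ) else 0) *
        (-1) ^ ((supp α).filter (fun i => x i = true)).card := by
    intro α
    unfold W
    rw [sum_xz]
    refine Finset.sum_congr rfl fun x _ => ?_
    have hb : ∀ b : Bool, iv (toZ b) = (if b then (1 : ℤ) else 0) := by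
      intro b; cases b <;> simp [toZ, iv]
    show iv (toZ (f (xb (xz x)))) * sg (α ⬝ᵥ xz x) = _
    rw [hb, xb_xz, ← sg_natCast, ← dot_ind, ind_supp]
  unfold spar sps
  refine Finset.card_bij (fun α _ => supp α) ?_ ?_ ?_
  · intro α hα
    simp only [Finset.mem_filter, Finset.mem_univ, true_and] at hα ⊢
    rw [← key]; exact hα
  · intro α _ β _ h
    rw [← ind_supp α, ← ind_supp β, h]
  · intro S hS
    refine ⟨ind S, ?_, supp_ind S⟩
    simp only [Finset.mem_filter, Finset.mem_univ, true_and] at hS ⊢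
    rw [key, supp_ind]; exact hS

theorem spar_sg_le {n : ℕ} (F : (Fin n → ZMod 2) → ZMod 2) :
    spar (fun x => sg (F x)) ≤ spar (fun x => iv (F x)) + 1 := by
  classical
  unfold spar
  have hsub : (Finset.univ.filter (fun α => W (fun x => sg (F x)) α ≠ 0))
      ⊆ insert 0 (Finset.univ.filter (fun α => W (fun x => iv (F x)) α ≠ 0)) := by
    intro α hα
    simp only [Finset.mem_filter, Finset.mem_univ, true_and] at hα
    by_cases h0 : α = 0
    · simp [h0]
    · apply Finset.mem_insert_of_mem
      simp only [Finset.mem_filter, Finset.mem_univ, true_and]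
      intro h
      apply hα
      have hb : ∀ a : ZMod 2, sg a = 1 - 2 * iv a := by intro a; revert a; decide
      have : W (fun x => sg (F x)) α = ∑ x : Fin n → ZMod 2, sg (α ⬝ᵥ x) - 2 * W (fun x => iv (F x)) α := by
        unfold W
        rw [Finset.mul_sum, ← Finset.sum_sub_distrib]
        refine Finset.sum_congr rfl fun x _ => ?_
        simp only [hb (F x)]
        ring
      rw [this, h, sum_sg, if_neg h0]; ring
  exact (Finset.card_le_card hsub).trans (Finset.card_insert_le _ _)

theorem toF_eq {n : ℕ} (F : (Fin n → ZMod 2) → ZMod 2) :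
    toF (fun x : Fin n → Bool => decide (F (xz x) = 1)) = F := by
  funext x
  simp only [toF, xz_xb]
  exact toZ_dec _

theorem deg3_of_degLe {n : ℕ} {f : (Fin n → Bool) → Bool} (h : DegLe f 3) :
    ∀ m : Multiset (Fin n → ZMod 2), m.card = 4 → ∀ x, dm m (toF f) x = 0 :=
  IsPoly.dm_eq_zero 3 (isPoly_of_degLe h)

/-- Certificates over `ZMod 2`. -/
def CC {n : ℕ} (F : (Fin n → ZMod 2) → ZMod 2) (x : Fin n → ZMod 2) (k : ℕ) : Prop :=
  ∃ p : Fin k → (Fin n → ZMod 2) → ZMod 2,
    (∀ i, ∀ m : Multiset (Fin n → ZMod 2), m.card = 4 → ∀ x, dm m (p i) x = 0) ∧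
    ∀ y, (∀ i, p i y = p i x) → F y = F x

theorem CC_of_cubicCert {n k : ℕ} {f : (Fin n → Bool) → Bool} {x : Fin n → Bool} (h : CubicCert f x k) :
    CC (toF f) (xz x) k := by
  obtain ⟨P, hP, hf⟩ := h
  refine ⟨fun i => toF (P i), fun i => deg3_of_degLe (hP i), fun y hy => ?_⟩
  have hinj : ∀ a b : Bool, toZ a = toZ b → a = b := by decide
  have h1 : f (xb y) = f x := by
    apply hf
    intro i
    have := hy i
    simp only [toF, xb_xz] at this
    exact hinj _ _ this
  show toZ (f (xb y)) = toZ (f (xb (xz x)))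
  rw [h1, xb_xz]

theorem CC.comp {n k : ℕ} {F : (Fin n → ZMod 2) → ZMod 2} (h : ∀ x, CC F x k) (c : Fin n → ZMod 2)
    (A : (Fin n → ZMod 2) →ₗ[ZMod 2] (Fin n → ZMod 2)) : ∀ x, CC (fun y => F (c + A y)) x k := by
  intro x
  obtain ⟨p, hp, hF⟩ := h (c + A x)
  refine ⟨fun i y => p i (c + A y), fun i m hm y => ?_, fun y hy => hF _ hy⟩
  rw [dm_translate]
  exact hp i _ (by rw [Multiset.card_map]; exact hm) _

theorem toF_dec {n : ℕ} (f : (Fin n → Bool) → Bool) : (fun x : Fin n → Bool => decide (toF f (xz x) = 1)) = f := by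
  funext x
  simp only [toF, xb_xz]
  exact dec_toZ _

theorem pow_bound {s : ℕ} : s ≤ 2 ^ (Nat.log 2 s + 1) :=
  (Nat.lt_pow_succ_log_self (b := 2) (by norm_num) s).le

theorem spar_sg_pow {n t : ℕ} (F : (Fin n → ZMod 2) → ZMod 2) (h : spar (fun x => iv (F x)) ≤ 2 ^ t) :
    spar (fun x => sg (F x)) ≤ 2 ^ (t + 1) := by
  have h1 := spar_sg_le F
  have h2 : 1 ≤ 2 ^ t := Nat.one_le_two_pow
  rw [pow_succ]; omega

theorem parityCert_of_cubicCert {n k : ℕ} (f : (Fin n → Bool) → Bool) (x : Fin n → Bool) (h : CubicCert f x k) :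
    ParityCert f x (11 * k * (2 * (k + (Nat.log 2 (sps f) + 1)) + 3)) := by
  obtain ⟨p, hp, hF⟩ := CC_of_cubicCert h
  have hs : spar (fun x => sg (toF f x)) ≤ 2 ^ (Nat.log 2 (sps f) + 1) :=
    (spar_toF f).trans (Nat.lt_pow_succ_log_self (b := 2) (by norm_num) (sps f))
  obtain ⟨V, hV, hz⟩ := cert_main (toF f) hs (xz x) p hp hF
  obtain ⟨α, hα⟩ := exists_functionals V _ hV
  refine ⟨fun i => supp (α i), fun y hy => ?_⟩
  have h1 : xz x + xz y ∈ V := by
    rw [hα]
    intro i
    have := hy i
    rw [dotProduct_add]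
    have e1 : α i ⬝ᵥ xz x = (((supp (α i)).filter (fun j => x j = true)).card : ZMod 2) := by
      rw [← dot_ind, ind_supp]
    have e2 : α i ⬝ᵥ xz y = (((supp (α i)).filter (fun j => y j = true)).card : ZMod 2) := by
      rw [← dot_ind, ind_supp]
    have e3 : (((supp (α i)).filter (fun j => y j = true)).card : ZMod 2)
        = (((supp (α i)).filter (fun j => x j = true)).card : ZMod 2) :=
      (ZMod.natCast_eq_natCast_iff' _ _ 2).2 this
    rw [e1, e2, e3]
    exact zmod2_add_self _
  have h2 := hz _ h1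
  rw [← add_assoc, vec_add_self, zero_add] at h2
  have hinj : ∀ a b : Bool, toZ a = toZ b → a = b := by decide
  apply hinj
  have h3 : toF f (xz y) = toZ (f y) := by simp only [toF, xb_xz]
  have h4 : toF f (xz x) = toZ (f x) := by simp only [toF, xb_xz]
  rw [← h3, ← h4, h2]

theorem DTle_of_cubicCert {n k : ℕ} (f : (Fin n → Bool) → Bool) (b : Bool) (h : ∀ x, f x = b → CubicCert f x k) :
    DTle ((Nat.log 2 (sps f) + 1) * (11 * k * (2 * (k + (Nat.log 2 (sps f) + 1)) + 5))) f := by
  set t := Nat.log 2 (sps f) + 1 with ht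
  have key : PT (t * (11 * k * (2 * (k + t) + 5))) (toF f) := by
    apply PT_of_kill (M := 11 * k * (2 * (k + t) + 5))
      (fun F => spar (fun x => iv (F x)) ≤ 2 ^ t ∧ ∀ x, F x = toZ b → CC F x k) ?_ ?_ t
    · refine ⟨?_, fun x hx => ?_⟩
      · rw [sps_eq]; exact pow_bound
      · have hinj : ∀ a b : Bool, toZ a = toZ b → a = b := by decide
        have := CC_of_cubicCert (h (xb x) (hinj _ _ hx))
        rwa [xz_xb] at this
    · rw [sps_eq]; exact pow_bound
    · rintro F ⟨h1, h2⟩ c A
      refine ⟨(spar_comp_le (fun x => iv (F x)) c A).trans h1, fun x hx => ?_⟩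
      obtain ⟨p, hp, hF⟩ := h2 (c + A x) hx
      refine ⟨fun i y => p i (c + A y), fun i m hm y => ?_, fun y hy => hF _ hy⟩
      rw [dm_translate]
      exact hp i _ (by rw [Multiset.card_map]; exact hm) _
    · rintro F ⟨h1, h2⟩
      by_cases hb : ∃ x, F x = toZ b
      · obtain ⟨x, hx⟩ := hb
        obtain ⟨p, hp, hF⟩ := h2 x hx
        obtain ⟨V, hV, hz⟩ := cert_main F (spar_sg_pow F h1) x p hp hF
        refine ⟨x, V, hV.trans ?_, hz⟩
        apply Nat.add_le_add_left
        apply Nat.mul_le_mul_left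
        omega
      · push Not at hb
        have hz2 : ∀ a c d : ZMod 2, a ≠ c → d ≠ c → a = d := by decide
        refine ⟨0, ⊤, ?_, fun v _ => hz2 _ _ _ (hb _) (hb _)⟩
        rw [finrank_top]
        simp
  have := DTle_of_PT key
  rwa [toF_dec] at this

theorem ParityCert_of_DTle {n k : ℕ} {f : (Fin n → Bool) → Bool} (h : DTle k f) (x : Fin n → Bool) :
    ParityCert f x k := by
  induction h with
  | leaf b => exact ⟨fun _ => ∅, fun _ _ => rfl⟩
  | query k S g₀ g₁ h₀ h₁ ih₀ ih₁ =>
    by_cases hx : (S.filter (fun i => x i = true)).card % 2 = 1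
    · obtain ⟨R, hR⟩ := ih₁
      refine ⟨Fin.cons S R, fun y hy => ?_⟩
      have h0 := hy 0
      simp only [Fin.cons_zero] at h0
      have hy1 : (S.filter (fun i => y i = true)).card % 2 = 1 := by rw [h0, hx]
      simp only [if_pos hy1, if_pos hx]
      exact hR y (fun i => by simpa using hy i.succ)
    · obtain ⟨R, hR⟩ := ih₀
      refine ⟨Fin.cons S R, fun y hy => ?_⟩
      have h0 := hy 0
      simp only [Fin.cons_zero] at h0
      have hy1 : ¬ (S.filter (fun i => y i = true)).card % 2 = 1 := by rw [h0]; exact hx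
      simp only [if_neg hy1, if_neg hx]
      exact hR y (fun i => by simpa using hy i.succ)

theorem degLe_parity {n : ℕ} (S : Finset (Fin n)) :
    DegLe (fun y : Fin n → Bool => decide ((S.filter (fun j => y j = true)).card % 2 = 1)) 3 := by
  classical
  refine ⟨S.image (fun i => {i}), ?_, ?_⟩
  · intro M hM
    obtain ⟨i, _, rfl⟩ := Finset.mem_image.1 hM
    simp
  · intro x
    have h1 : ((S.image (fun i => ({i} : Finset (Fin n)))).filter (fun M => ∀ i ∈ M, x i = true)).card
        = (S.filter (fun j => x j = true)).card := by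
      rw [Finset.filter_image, Finset.card_image_of_injective _ (fun a b h => by simpa using h)]
      congr 1
      ext j
      simp
    rw [h1]
    exact decide_eq_decide.2 Nat.odd_iff.symm

theorem cubicCert_of_parityCert {n k : ℕ} {f : (Fin n → Bool) → Bool} {x : Fin n → Bool} (h : ParityCert f x k) :
    CubicCert f x k := by
  obtain ⟨S, hS⟩ := h
  refine ⟨fun i y => decide (((S i).filter (fun j => y j = true)).card % 2 = 1), fun i => degLe_parity (S i), fun y hy => ?_⟩
  apply hS
  intro i
  have := hy i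
  simp only [decide_eq_decide] at this
  have h1 := Nat.mod_two_eq_zero_or_one ((S i).filter (fun j => y j = true)).card
  have h2 := Nat.mod_two_eq_zero_or_one ((S i).filter (fun j => x j = true)).card
  omega

theorem xlr_iff : (∃ C c : ℕ, ∀ (n : ℕ) (f : (Fin n → Bool) → Bool), DTle (C * (Nat.log 2 (sps f) + 1) ^ c) f) ↔
    (∃ C c : ℕ, ∀ (n : ℕ) (f : (Fin n → Bool) → Bool), ∃ (k : ℕ) (x : Fin n → Bool),
      k ≤ C * (Nat.log 2 (sps f) + 1) ^ c ∧ CubicCert f x k) := by
  constructor
  · rintro ⟨C, c, h⟩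
    exact ⟨C, c, fun n f => ⟨_, fun _ => false, le_refl _, cubicCert_of_parityCert (ParityCert_of_DTle (h n f) _)⟩⟩
  · rintro ⟨C, c, h⟩
    set D := C * 2 ^ c with hD
    refine ⟨11 * D * (2 * D + 7), 2 * c + 2, fun n f => ?_⟩
    set t := Nat.log 2 (sps f) + 1 with ht
    have ht1 : 1 ≤ t := by omega
    set k₀ := C * (t + 1) ^ c with hk₀
    have key : PT (t * (11 * k₀ * (2 * (k₀ + t) + 5))) (toF f) := by
      apply PT_of_kill (M := 11 * k₀ * (2 * (k₀ + t) + 5))
        (fun F => spar (fun x => iv (F x)) ≤ 2 ^ t) ?_ ?_ t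
      · rw [sps_eq]; exact pow_bound
      · rw [sps_eq]; exact pow_bound
      · intro F h1 c A
        exact (spar_comp_le (fun x => iv (F x)) c A).trans h1
      · intro F h1
        set g : (Fin n → Bool) → Bool := fun x => decide (F (xz x) = 1) with hg
        have hgF : toF g = F := toF_eq F
        obtain ⟨k, x, hk, hcert⟩ := h n g
        have hsg : sps g ≤ 2 ^ t := by rw [← sps_eq, hgF]; exact h1
        have hlog : Nat.log 2 (sps g) ≤ t := by
          calc Nat.log 2 (sps g) ≤ Nat.log 2 (2 ^ t) := Nat.log_mono_right hsg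
            _ = t := Nat.log_pow (by norm_num) t
        have hk' : k ≤ k₀ := hk.trans (by rw [hk₀]; gcongr)
        obtain ⟨p, hp, hF⟩ := CC_of_cubicCert hcert
        rw [hgF] at hF
        obtain ⟨V, hV, hz⟩ := cert_main F (spar_sg_pow F h1) (xz x) p hp hF
        refine ⟨xz x, V, hV.trans ?_, hz⟩
        apply Nat.add_le_add_left
        have e : 2 * (k + (t + 1)) + 3 ≤ 2 * (k₀ + t) + 5 := by omega
        gcongr
    have h1 := DTle_of_PT key
    rw [toF_dec] at h1
    apply h1.mono
    have hk0 : k₀ ≤ D * t ^ c := by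
      calc k₀ ≤ C * (2 * t) ^ c := by rw [hk₀]; gcongr; omega
        _ = D * t ^ c := by rw [mul_pow, hD]; ring
    have htc : 1 ≤ t ^ c := Nat.one_le_pow _ _ ht1
    calc t * (11 * k₀ * (2 * (k₀ + t) + 5))
        ≤ t * (11 * (D * t ^ c) * (2 * (D * t ^ c + t) + 5)) := by gcongr
      _ ≤ t * (11 * (D * t ^ c) * ((2 * D + 7) * (t ^ c * t))) := by
          apply Nat.mul_le_mul_left
          apply Nat.mul_le_mul_left
          have h3 : D * t ^ c ≤ D * (t ^ c * t) := by
            apply Nat.mul_le_mul_left; exact Nat.le_mul_of_pos_right _ ht1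
          have h4 : t ≤ t ^ c * t := Nat.le_mul_of_pos_left _ htc
          nlinarith
      _ = 11 * D * (2 * D + 7) * t ^ (2 * c + 2) := by ring

end Pool.Agent.XLR
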