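import Pool.Agent.Work.MP_218513_lc.CertFinal

/-! MP_79d924_lc: cubic certificates for functions of bounded granularity. -/

set_option autoImplicit false

namespace Pool.Agent.XLR

open Module

/-- `f` is `k`-granular: all Fourier coefficients are integer multiples of `2 ^ (-k)`. -/
def Gran {n : ℕ} (k : ℕ) (f : (Fin n → ZMod 2) → Bool) : Prop :=
  ∀ a : Fin n → ZMod 2, ∃ m : ℤ,
    (2 : ℝ) ^ k * (∑ x : Fin n → ZMod 2,
      (if f x then (1 : ℝ) else 0) * (-1 : ℝ) ^ ((∑ i, a i * x i).val)) = (m : ℝ) * (2 : ℝ) ^ n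

/-- `p` is the evaluation of a polynomial over the field with two elements of total degree at most three. -/
def Cubic {n : ℕ} (p : (Fin n → ZMod 2) → ZMod 2) : Prop :=
  ∃ P : MvPolynomial (Fin n) (ZMod 2), P.totalDegree ≤ 3 ∧ ∀ x, MvPolynomial.eval x P = p x

/-- `f` is constant on the set of solutions `y` of `k` equations `p i y = p i x₀` with all `p i` of degree at most three. -/
def CubicCertAt {n : ℕ} (f : (Fin n → ZMod 2) → Bool) (x₀ : Fin n → ZMod 2) (m : ℕ) : Prop :=
  ∃ p : Fin m → (Fin n → ZMod 2) → ZMod 2, (∀ i, Cubic (p i)) ∧ ∀ y, (∀ i, p i y = p i x₀) → f y = f x₀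

/-- The class of polynomial functions `IsPoly d` over `F_2` contains all evaluations of polynomials of total degree at most `d`. -/
theorem IsPoly.zero {K : Type*} [Field K] {n d : ℕ} : IsPoly (K := K) (n := n) d (fun _ => 0) :=
  ⟨fun _ => 0, fun _ _ => rfl, fun x => by simp⟩

theorem IsPoly.add {K : Type*} [Field K] {n d : ℕ} {f g : (Fin n → K) → K} (hf : IsPoly d f) (hg : IsPoly d g) :
    IsPoly d (fun x => f x + g x) := by
  obtain ⟨c, hc, hfc⟩ := hf
  obtain ⟨c', hc', hgc⟩ := hg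
  refine ⟨fun S => c S + c' S, fun S hS => ?_, fun x => ?_⟩
  · show c S + c' S = 0
    rw [hc S hS, hc' S hS, add_zero]
  show f x + g x = _
  rw [hfc, hgc, ← Finset.sum_add_distrib]
  exact Finset.sum_congr rfl fun S _ => by ring

theorem isPoly_of_mv {n d : ℕ} (P : MvPolynomial (Fin n) (ZMod 2)) (hP : P.totalDegree ≤ d) :
    IsPoly d (fun x => MvPolynomial.eval x P) := by
  classical
  have h1 : ∀ x, MvPolynomial.eval x P = ∑ s ∈ P.support, P.coeff s * ∏ i ∈ s.support, x i := by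
    intro x
    rw [MvPolynomial.eval_eq]
    refine Finset.sum_congr rfl fun s _ => ?_
    congr 1
    refine Finset.prod_congr rfl fun i hi => ?_
    have hne : s i ≠ 0 := Finsupp.mem_support_iff.1 hi
    generalize x i = a
    have h01 : a = 0 ∨ a = 1 := by revert a; decide
    rcases h01 with h | h
    · rw [h, zero_pow hne]
    · rw [h, one_pow]
  have h2 : ∀ (T : Finset (Fin n →₀ ℕ)), (∀ s ∈ T, s.support.card ≤ d) →
      IsPoly d (fun x => ∑ s ∈ T, P.coeff s * ∏ i ∈ s.support, x i) := by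
    intro T
    induction T using Finset.induction_on with
    | empty => intro _; simpa using IsPoly.zero
    | insert s T hs ih =>
      intro hT
      have hmono : IsPoly d (fun x : Fin n → ZMod 2 => P.coeff s * ∏ i ∈ s.support, x i) := by
        refine ⟨fun S => if S = s.support then P.coeff s else 0, fun S hS => ?_, fun x => ?_⟩
        · show (if S = s.support then P.coeff s else 0) = 0
          rw [if_neg]
          rintro rfl
          have := hT s (Finset.mem_insert_self _ _)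
          omega
        · rw [Finset.sum_eq_single s.support]
          · simp
          · intro S _ hS
            simp [hS]
          · intro h; exact absurd (Finset.mem_univ _) h
      have := hmono.add (ih (fun t ht => hT t (Finset.mem_insert_of_mem ht)))
      simpa only [Finset.sum_insert hs] using this
  have h3 : IsPoly d (fun x => ∑ s ∈ P.support, P.coeff s * ∏ i ∈ s.support, x i) := by
    apply h2
    intro s hs
    have h4 := MvPolynomial.le_totalDegree hs
    calc s.support.card ≤ s.sum (fun _ e => e) := by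
          rw [Finsupp.sum, Finset.card_eq_sum_ones]
          refine Finset.sum_le_sum fun i hi => ?_
          exact Nat.one_le_iff_ne_zero.2 (Finsupp.mem_support_iff.1 hi)
      _ ≤ P.totalDegree := h4
      _ ≤ d := hP
  have e : (fun x => MvPolynomial.eval x P) = fun x => ∑ s ∈ P.support, P.coeff s * ∏ i ∈ s.support, x i :=
    funext h1
  rw [e]; exact h3

theorem spar_le_of_gran {n k : ℕ} (f : (Fin n → ZMod 2) → Bool) (hf : Gran k f) :
    spar (fun x => iv (toZ (f x))) ≤ 2 ^ (2 * k) := by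
  classical
  set h : (Fin n → ZMod 2) → ℤ := fun x => iv (toZ (f x)) with hh
  have hcoef : ∀ a, W h a ≠ 0 → (2 : ℤ) ^ n ≤ |2 ^ k * W h a| := by
    intro a ha
    obtain ⟨m, hm⟩ := hf a
    have hcast : ((2 ^ k * W h a : ℤ) : ℝ) = (m : ℝ) * (2 : ℝ) ^ n := by
      rw [← hm]
      push_cast
      congr 1
      unfold W
      push_cast
      refine Finset.sum_congr rfl fun x _ => ?_
      have h1 : ∀ b : Bool, ((iv (toZ b) : ℤ) : ℝ) = if b then (1 : ℝ) else 0 := by
        intro b; cases b <;> simp [iv, toZ]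
      have h2 : ∀ z : ZMod 2, ((sg z : ℤ) : ℝ) = (-1 : ℝ) ^ z.val := by
        intro z
        fin_cases z
        · show ((sg 0 : ℤ) : ℝ) = (-1 : ℝ) ^ (0 : ZMod 2).val
          rw [sg_zero, ZMod.val_zero]; norm_num
        · show ((sg 1 : ℤ) : ℝ) = (-1 : ℝ) ^ (1 : ZMod 2).val
          rw [sg_one, ZMod.val_one]; norm_num
      rw [hh]
      simp only
      rw [h1, h2]; rfl
    have hint : 2 ^ k * W h a = m * 2 ^ n := by exact_mod_cast hcast
    have hm0 : m ≠ 0 := by
      rintro rfl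
      rw [zero_mul] at hint
      exact ha ((mul_eq_zero.1 hint).resolve_left (by positivity))
    rw [hint, abs_mul, abs_of_nonneg (by positivity : (0 : ℤ) ≤ 2 ^ n)]
    have : 1 ≤ |m| := Int.one_le_abs hm0
    nlinarith [show (0 : ℤ) < 2 ^ n by positivity]
  have hpars : ∑ a, W h a ^ 2 ≤ 4 ^ n := by
    rw [parseval]
    have h3 : ∑ x, h x ^ 2 ≤ 2 ^ n := by
      calc ∑ x, h x ^ 2 ≤ ∑ _x : Fin n → ZMod 2, (1 : ℤ) := by
            refine Finset.sum_le_sum fun x _ => ?_
            rw [hh]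
            have : ∀ a : ZMod 2, iv a ^ 2 ≤ 1 := by decide
            exact this _
        _ = 2 ^ n := by simp [ZMod.card]
    calc (2 : ℤ) ^ n * ∑ x, h x ^ 2 ≤ 2 ^ n * 2 ^ n := mul_le_mul_of_nonneg_left h3 (by positivity)
      _ = 4 ^ n := by rw [← mul_pow]; norm_num
  have h4 : ((spar h : ℕ) : ℤ) * 4 ^ n ≤ 4 ^ k * 4 ^ n := by
    calc ((spar h : ℕ) : ℤ) * 4 ^ n = ∑ _a ∈ Finset.univ.filter (fun α => W h α ≠ 0), (4 : ℤ) ^ n := by
          rw [Finset.sum_const, nsmul_eq_mul]; rfl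
      _ ≤ ∑ a ∈ Finset.univ.filter (fun α => W h α ≠ 0), (2 ^ k * W h a) ^ 2 := by
          refine Finset.sum_le_sum fun a ha => ?_
          have := hcoef a (Finset.mem_filter.1 ha).2
          calc (4 : ℤ) ^ n = (2 ^ n) ^ 2 := by rw [← pow_mul, mul_comm, pow_mul]; norm_num
            _ ≤ |2 ^ k * W h a| ^ 2 := pow_le_pow_left₀ (by positivity) this 2
            _ = _ := sq_abs _
      _ ≤ ∑ a, (2 ^ k * W h a) ^ 2 := Finset.sum_le_sum_of_subset_of_nonneg (Finset.subset_univ _)
            (fun _ _ _ => by positivity)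
      _ = 4 ^ k * ∑ a, W h a ^ 2 := by
          rw [Finset.mul_sum]
          refine Finset.sum_congr rfl fun a _ => ?_
          rw [mul_pow, ← pow_mul, mul_comm k 2, pow_mul]; norm_num
      _ ≤ 4 ^ k * 4 ^ n := mul_le_mul_of_nonneg_left hpars (by positivity)
  have h5 : ((spar h : ℕ) : ℤ) ≤ 4 ^ k := le_of_mul_le_mul_right h4 (by positivity)
  have h6 : spar h ≤ 4 ^ k := by exact_mod_cast h5
  calc spar h ≤ 4 ^ k := h6
    _ = 2 ^ (2 * k) := by rw [pow_mul]; norm_num

theorem gran_main {n k m : ℕ} (f : (Fin n → ZMod 2) → Bool) (hf : Gran k f) (x₀ : Fin n → ZMod 2)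
    (hc : CubicCertAt f x₀ m) :
    ∃ A : Fin (11 * m * (2 * m + 4 * k + 5)) → Fin n → ZMod 2,
      ∀ y : Fin n → ZMod 2, (∀ j, ∑ i, A j i * y i = ∑ i, A j i * x₀ i) → f y = f x₀ := by
  obtain ⟨p, hp, hcert⟩ := hc
  have hs : spar (fun x => sg (toZ (f x))) ≤ 2 ^ (2 * k + 1) :=
    spar_sg_pow (fun x => toZ (f x)) (spar_le_of_gran f hf)
  have hinj : ∀ a b : Bool, toZ a = toZ b → a = b := by decide
  obtain ⟨V, hV, hz⟩ := cert_main (fun x => toZ (f x)) hs x₀ p
    (fun i m hm x => by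
      obtain ⟨P, hP, hPe⟩ := hp i
      have h1 := isPoly_of_mv P hP
      have e : (fun x => MvPolynomial.eval x P) = p i := funext hPe
      rw [e] at h1
      exact IsPoly.dm_eq_zero 3 h1 m hm x)
    (fun y hy => by rw [hcert y hy])
  have e : 11 * m * (2 * (m + (2 * k + 1)) + 3) = 11 * m * (2 * m + 4 * k + 5) := by ring
  rw [e] at hV
  obtain ⟨α, hα⟩ := exists_functionals V _ hV
  refine ⟨α, fun y hy => ?_⟩
  have h1 : x₀ + y ∈ V := by
    rw [hα]
    intro i
    have := hy i
    rw [dotProduct_add]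
    have h2 : α i ⬝ᵥ y = α i ⬝ᵥ x₀ := this
    rw [h2]
    exact zmod2_add_self _
  have h2 := hz _ h1
  rw [← add_assoc, vec_add_self, zero_add] at h2
  exact hinj _ _ h2

theorem gran_iff :
    (∃ C c : ℕ, ∀ (n k : ℕ) (f : (Fin n → ZMod 2) → Bool), Gran k f →
      ∃ (d : ℕ) (A : Fin d → Fin n → ZMod 2) (b : Fin d → ZMod 2),
        d ≤ C * (k + 1) ^ c ∧
        (∃ x : Fin n → ZMod 2, ∀ j, ∑ i, A j i * x i = b j) ∧
        ∀ x y : Fin n → ZMod 2,
          (∀ j, ∑ i, A j i * x i = b j) →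
          (∀ j, ∑ i, A j i * y i = b j) → f x = f y) ↔
    (∃ C c : ℕ, ∀ (n k : ℕ) (f : (Fin n → ZMod 2) → Bool), Gran k f →
      ∃ (m : ℕ) (x₀ : Fin n → ZMod 2), m ≤ C * (k + 1) ^ c ∧ CubicCertAt f x₀ m) := by
  constructor
  · rintro ⟨C, c, h⟩
    refine ⟨C, c, fun n k f hf => ?_⟩
    obtain ⟨d, A, b, hd, ⟨x, hx⟩, hxy⟩ := h n k f hf
    refine ⟨d, x, hd, fun j y => ∑ i, A j i * y i, fun j => ?_, fun y hy => ?_⟩
    · refine ⟨∑ i, MvPolynomial.C (A j i) * MvPolynomial.X i, ?_, fun x => ?_⟩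
      · refine (MvPolynomial.totalDegree_finsetSum_le (d := 1) fun i _ => ?_).trans (by norm_num)
        refine (MvPolynomial.totalDegree_mul _ _).trans ?_
        rw [MvPolynomial.totalDegree_C, MvPolynomial.totalDegree_X]
      · simp
    · exact hxy y x (fun j => by rw [← hx j]; exact hy j) hx
  · rintro ⟨C, c, h⟩
    refine ⟨11 * C * (2 * C + 5), 2 * c + 1, fun n k f hf => ?_⟩
    obtain ⟨m, x₀, hm, hc⟩ := h n k f hf
    obtain ⟨A, hA⟩ := gran_main f hf x₀ hc
    refine ⟨_, A, fun j => ∑ i, A j i * x₀ i, ?_, ⟨x₀, fun j => rfl⟩, fun x y hx hy => ?_⟩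
    · have h1 : 1 ≤ (k + 1) ^ c := Nat.one_le_pow _ _ (by omega)
      calc 11 * m * (2 * m + 4 * k + 5)
          ≤ 11 * (C * (k + 1) ^ c) * (2 * (C * (k + 1) ^ c) + 4 * k + 5) := by gcongr
        _ ≤ 11 * (C * (k + 1) ^ c) * ((2 * C + 5) * ((k + 1) ^ c * (k + 1))) := by
            apply Nat.mul_le_mul_left
            have h2 : C * (k + 1) ^ c ≤ C * ((k + 1) ^ c * (k + 1)) := by
              apply Nat.mul_le_mul_left; exact Nat.le_mul_of_pos_right _ (by omega)
            have h3 : (k + 1) ≤ (k + 1) ^ c * (k + 1) := Nat.le_mul_of_pos_left _ h1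
            nlinarith
        _ = 11 * C * (2 * C + 5) * (k + 1) ^ (2 * c + 1) := by ring
    · rw [hA x hx, hA y hy]

end Pool.Agent.XLR
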