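import Pool.Agent.Work.MP_218513_lc.Defs

/-! MP_218513_lc, module Tree: parity decision trees. -/

set_option autoImplicit false

namespace Pool.Agent.XLR

open Module

private theorem tree_ext {n k : ℕ} {f g : (Fin n → ZMod 2) → ZMod 2} (h : PT k f) (hfg : f = g) :
    PT k g := hfg ▸ h

private theorem tree_succ {n k : ℕ} {f : (Fin n → ZMod 2) → ZMod 2} (h : PT k f) :
    PT (k + 1) f := by
  refine tree_ext (PT.node k 0 f f h h) ?_
  funext x
  simp

/-- Padding (query `α = 0`). -/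
theorem PT.mono {n : ℕ} {k l : ℕ} {f : (Fin n → ZMod 2) → ZMod 2} (h : PT k f) (hkl : k ≤ l) : PT l f := by
  induction hkl with
  | refl => exact h
  | step _ ih => exact tree_succ ih

private theorem tree_zmod (a : ZMod 2) : a = 0 ∨ a = 1 := by
  revert a; decide

/-- Query `c` parities, then continue with a tree depending on the answers. Induction on `c` (`Fin.consEquiv` or `Fin.cons`). -/
theorem PT.query {n : ℕ} (c D : ℕ) (α : Fin c → (Fin n → ZMod 2))
    (g : (Fin c → ZMod 2) → ((Fin n → ZMod 2) → ZMod 2)) (hg : ∀ a, PT D (g a)) :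
    PT (c + D) (fun x => g (fun i => α i ⬝ᵥ x) x) := by
  induction c with
  | zero =>
    rw [Nat.zero_add]
    refine tree_ext (hg (fun i => i.elim0)) ?_
    funext x
    exact congrFun (congrArg g (Subsingleton.elim _ _)) x
  | succ c ih =>
    have h0 := ih (fun i => α i.succ) (fun a => g (Fin.cons 0 a)) (fun a => hg _)
    have h1 := ih (fun i => α i.succ) (fun a => g (Fin.cons 1 a)) (fun a => hg _)
    have h2 := PT.node (c + D) (α 0) _ _ h0 h1
    have e : c + 1 + D = c + D + 1 := by omega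
    rw [e]
    refine tree_ext h2 ?_
    funext x
    have h3 : ∀ a : ZMod 2, α 0 ⬝ᵥ x = a →
        (Fin.cons a (fun i => α (Fin.succ i) ⬝ᵥ x) : Fin (c + 1) → ZMod 2) =
          fun i => α i ⬝ᵥ x := by
      intro a ha
      funext i
      refine Fin.cases ?_ (fun j => ?_) i
      · rw [Fin.cons_zero]; exact ha.symm
      · rw [Fin.cons_succ]
    rcases tree_zmod (α 0 ⬝ᵥ x) with h | h
    · simp only [h]
      rw [if_neg (by decide), h3 0 h]
    · simp only [h, if_true]
      rw [h3 1 h]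

private theorem tree_dot {n : ℕ} {W : Type} [AddCommGroup W] [Module (ZMod 2) W]
    (f : (Fin n → ZMod 2) →ₗ[ZMod 2] ZMod 2) (v : Fin n → ZMod 2) :
    (fun j => f (Pi.single j 1)) ⬝ᵥ v = f v := by
  conv_rhs => rw [← Finset.univ_sum_single v]
  rw [map_sum]
  unfold dotProduct
  refine Finset.sum_congr rfl fun j _ => ?_
  have h : (Pi.single j (v j) : Fin n → ZMod 2) = v j • Pi.single j 1 := by
    rw [← Pi.single_smul, smul_eq_mul, mul_one]
  rw [h, map_smul, smul_eq_mul, mul_comm]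

/-- A subspace of codimension at most `c` of `F_2^n` is cut out by `c` parities. -/
theorem exists_functionals {n : ℕ} (V : Submodule (ZMod 2) (Fin n → ZMod 2)) (c : ℕ)
    (hc : n ≤ finrank (ZMod 2) V + c) :
    ∃ α : Fin c → (Fin n → ZMod 2), ∀ v, v ∈ V ↔ ∀ i, α i ⬝ᵥ v = 0 := by
  classical
  have hd : finrank (ZMod 2) ((Fin n → ZMod 2) ⧸ V) + finrank (ZMod 2) V = n := by
    rw [Submodule.finrank_quotient_add_finrank, Module.finrank_fin_fun]
  set d := finrank (ZMod 2) ((Fin n → ZMod 2) ⧸ V) with hdd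
  let e := (Module.finBasis (ZMod 2) ((Fin n → ZMod 2) ⧸ V)).equivFun
  let f : Fin d → ((Fin n → ZMod 2) →ₗ[ZMod 2] ZMod 2) := fun i =>
    (LinearMap.proj i).comp (e.toLinearMap.comp V.mkQ)
  refine ⟨fun i => if h : i.val < d then fun j => f ⟨i.val, h⟩ (Pi.single j 1) else 0, ?_⟩
  intro v
  have h1 : v ∈ V ↔ e (V.mkQ v) = 0 := by
    rw [LinearEquiv.map_eq_zero_iff, Submodule.mkQ_apply, Submodule.Quotient.mk_eq_zero]
  rw [h1]
  constructor
  · intro h i
    by_cases hi : i.val < d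
    · simp only [hi, dif_pos]
      rw [tree_dot (W := ZMod 2)]
      show e (V.mkQ v) ⟨i.val, hi⟩ = 0
      rw [h]; rfl
    · simp only [hi, dif_neg, not_false_eq_true]
      exact zero_dotProduct v
  · intro h
    funext i
    have hid : i.val < d := i.isLt
    have hi := h ⟨i.val, by omega⟩
    simp only [dif_pos hid] at hi
    rw [tree_dot (W := ZMod 2)] at hi
    exact hi

/-- A linear projection onto a subspace. -/
theorem exists_proj {n : ℕ} (V : Submodule (ZMod 2) (Fin n → ZMod 2)) :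
    ∃ π : (Fin n → ZMod 2) →ₗ[ZMod 2] (Fin n → ZMod 2), (∀ v, π v ∈ V) ∧ ∀ v ∈ V, π v = v := by
  obtain ⟨g, hg⟩ := LinearMap.exists_leftInverse_of_injective V.subtype (Submodule.ker_subtype V)
  refine ⟨V.subtype.comp g, fun v => (g v).2, fun v hv => ?_⟩
  have h := LinearMap.congr_fun hg ⟨v, hv⟩
  have h2 : g v = ⟨v, hv⟩ := h
  show (g v : Fin n → ZMod 2) = v
  rw [h2]

/-- PROOF. `F (x + y) = F x + F y + F 0` (second derivative zero); `α i = F (Pi.single i 1) + F 0`; induction over the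
coordinates (or: `x ↦ F x + F 0` is additive, hence `ZMod 2`-linear, and `x = ∑ i, x i • Pi.single i 1`). -/
theorem affine_repr {n : ℕ} (F : (Fin n → ZMod 2) → ZMod 2)
    (hF : ∀ m : Multiset (Fin n → ZMod 2), m.card = 2 → ∀ x, dm m F x = 0) :
    ∃ α : Fin n → ZMod 2, ∀ x, F x = α ⬝ᵥ x + F 0 := by
  have h2 : ∀ a b c d : ZMod 2, a + b + (c + d) = 0 → d + a = (c + a) + (b + a) := by decide
  have h3 : ∀ a : ZMod 2, a + a = 0 := by decide
  have h4 : ∀ a b : ZMod 2, a = (a + b) + b := by decide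
  have hadd : ∀ a b : Fin n → ZMod 2, F (a + b) + F 0 = (F a + F 0) + (F b + F 0) := by
    intro a b
    have h := hF (a ::ₘ b ::ₘ 0) (by simp) 0
    rw [dm_cons, dm_cons, dm_cons, dm_zero, dm_zero, dm_zero, dm_zero, zero_add, zero_add] at h
    exact h2 _ _ _ _ h
  let G : (Fin n → ZMod 2) →+ ZMod 2 :=
    { toFun := fun x => F x + F 0
      map_zero' := h3 _
      map_add' := hadd }
  let L : (Fin n → ZMod 2) →ₗ[ZMod 2] ZMod 2 := G.toZModLinearMap 2
  refine ⟨fun j => L (Pi.single j 1), fun x => ?_⟩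
  rw [tree_dot (W := ZMod 2)]
  show F x = (F x + F 0) + F 0
  exact h4 _ _

/-- An affine function is computed by one query. -/
theorem PT.affine {n : ℕ} (F : (Fin n → ZMod 2) → ZMod 2) (α : Fin n → ZMod 2) (c : ZMod 2)
    (hF : ∀ x, F x = α ⬝ᵥ x + c) : PT 1 F := by
  refine tree_ext (PT.node 0 α (fun _ => c) (fun _ => 1 + c) (PT.leaf c) (PT.leaf (1 + c))) ?_
  funext x
  rw [hF x]
  rcases tree_zmod (α ⬝ᵥ x) with h | h
  · simp only [h]
    rw [if_neg (by decide), zero_add]
  · simp only [h, if_true]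

end Pool.Agent.XLR
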