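import Pool.Agent.Work.MP_218513_lc.Norm
import Pool.Agent.Work.MP_218513_lc.Tree

/-! MP_218513_lc, module CubBias: a biased cubic polynomial has many slices with a large kernel. -/

set_option autoImplicit false

namespace Pool.Agent.XLR

open Module

private theorem cubbias_slice {n : ℕ} (p : (Fin n → ZMod 2) → ZMod 2)
    (hp : ∀ m : Multiset (Fin n → ZMod 2), m.card = 4 → ∀ x, dm m p x = 0)
    (T : (Fin n → ZMod 2) →ₗ[ZMod 2] (Fin n → ZMod 2) →ₗ[ZMod 2] (Fin n → ZMod 2) →ₗ[ZMod 2] ZMod 2)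
    (hT : ∀ a b c x, T a b c = dm (a ::ₘ b ::ₘ c ::ₘ 0) p x) (a : Fin n → ZMod 2) :
    (∑ y, sg (p y + p (y + a))) ^ 2 ≤ 2 ^ n * (Nat.card (LinearMap.ker (T a)) : ℤ) := by
  classical
  have hder : ∀ b : Fin n → ZMod 2, ∀ m : Multiset (Fin n → ZMod 2), m.card = 2 →
      ∀ x, dm m (dm (b ::ₘ a ::ₘ 0) p) x = 0 := by
    intro b m hm x
    rw [← dm_add]
    exact hp _ (by simp [hm]) x
  choose L hL using fun b => affine_repr (dm (b ::ₘ a ::ₘ 0) p) (hder b)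
  have hQ : ∀ v x, (fun y => p y + p (y + a)) (x + v) + (fun y => p y + p (y + a)) x =
      L v ⬝ᵥ x + dm (v ::ₘ a ::ₘ 0) p 0 := by
    intro v x
    rw [← hL v x, dm_cons, dm_cons, dm_cons, dm_zero, dm_zero, dm_zero, dm_zero]
    simp only
    ring
  have h1 := quad_W_sq_le (fun y => p y + p (y + a)) L (fun v => dm (v ::ₘ a ::ₘ 0) p 0) hQ 0
  have h2 : W (fun x => sg ((fun y => p y + p (y + a)) x)) 0 = ∑ y, sg (p y + p (y + a)) := by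
    unfold W
    refine Finset.sum_congr rfl fun x _ => ?_
    rw [zero_dotProduct, sg_zero, mul_one]
  have hTL : ∀ b w, T a b w = L b ⬝ᵥ w := by
    intro b w
    have e1 := hL b w
    have e2 : T a b w = dm (b ::ₘ a ::ₘ 0) p 0 + dm (b ::ₘ a ::ₘ 0) p w := by
      rw [hT a b w 0, Multiset.cons_swap b w, Multiset.cons_swap a w, dm_cons, zero_add,
        Multiset.cons_swap a b]
    rw [e2, e1]
    generalize L b ⬝ᵥ w = s
    generalize dm (b ::ₘ a ::ₘ 0) p 0 = t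
    revert s t
    decide
  have h3 : kerSize L = Nat.card (LinearMap.ker (T a)) := by
    rw [kerSize, ← Fintype.card_subtype, ← Nat.card_eq_fintype_card]
    refine Nat.card_congr (Equiv.subtypeEquivRight fun b => ?_)
    rw [LinearMap.mem_ker]
    constructor
    · intro hb
      refine LinearMap.ext fun w => ?_
      rw [hTL, hb, zero_dotProduct, LinearMap.zero_apply]
    · intro hb
      refine dot_const_zero (L b) 0 fun w => ?_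
      rw [← hTL, hb, LinearMap.zero_apply]
  rw [h2, h3] at h1
  exact h1

/-- PROOF. Let `ψ y = sg (p y) * sg (α ⬝ᵥ y)`, `I = ∑ ψ`. `I ^ 2 = ∑_a sg (α ⬝ᵥ a) * J a`, `J a = ∑_y sg (p y + p (y + a))`.
For each `a` the function `Q = dm {a} p` (`Q y = p y + p (y+a)`) satisfies `Q (y+b) + Q y = L b ⬝ᵥ y + c b` with
`L b ⬝ᵥ w = T a b w` (`affine_repr` applied to `dm (b ::ₘ a ::ₘ 0) p`), and `quad_facts`/`quad_W_sq_le` (coefficient `0`) gives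
`(J a)^2 ≤ 2^n * #{b | L b = 0} = 2^n * Nat.card (ker (T a))`. By Cauchy-Schwarz
`I^4 ≤ 2^n ∑_a (J a)^2 ≤ 2^n * 2^n * ∑_a Nat.card (ker (T a))`; combine with `2^n ≤ |I| * 2^κ`. -/
theorem cubic_bias {n κ : ℕ} (p : (Fin n → ZMod 2) → ZMod 2)
    (hp : ∀ m : Multiset (Fin n → ZMod 2), m.card = 4 → ∀ x, dm m p x = 0)
    (T : (Fin n → ZMod 2) →ₗ[ZMod 2] (Fin n → ZMod 2) →ₗ[ZMod 2] (Fin n → ZMod 2) →ₗ[ZMod 2] ZMod 2)
    (hT : ∀ a b c x, T a b c = dm (a ::ₘ b ::ₘ c ::ₘ 0) p x) (α : Fin n → ZMod 2)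
    (hb : (2 : ℤ) ^ n ≤ |∑ y, sg (p y) * sg (α ⬝ᵥ y)| * 2 ^ κ) :
    2 ^ (2 * n) ≤ 2 ^ (4 * κ) * ∑ a : Fin n → ZMod 2, Nat.card (LinearMap.ker (T a)) := by
  classical
  set I : ℤ := ∑ y, sg (p y) * sg (α ⬝ᵥ y) with hI
  set J : (Fin n → ZMod 2) → ℤ := fun a => ∑ y, sg (p y + p (y + a)) with hJ
  have hI2 : I ^ 2 = ∑ a, sg (α ⬝ᵥ a) * J a := by
    have e1 : I ^ 2 = ∑ y, ∑ a, (sg (p y) * sg (α ⬝ᵥ y)) * (sg (p (y + a)) * sg (α ⬝ᵥ (y + a))) := by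
      rw [sq]
      nth_rw 1 [hI]
      rw [Finset.sum_mul]
      refine Finset.sum_congr rfl fun y _ => ?_
      rw [hI, ← Equiv.sum_comp (Equiv.addLeft y) (fun z => sg (p z) * sg (α ⬝ᵥ z)), Finset.mul_sum]
      rfl
    rw [e1, Finset.sum_comm]
    refine Finset.sum_congr rfl fun a _ => ?_
    rw [hJ]
    simp only
    rw [Finset.mul_sum]
    refine Finset.sum_congr rfl fun y _ => ?_
    rw [dotProduct_add, sg_add, sg_add]
    have := sg_mul_self (α ⬝ᵥ y)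
    calc sg (p y) * sg (α ⬝ᵥ y) * (sg (p (y + a)) * (sg (α ⬝ᵥ y) * sg (α ⬝ᵥ a)))
        = (sg (α ⬝ᵥ y) * sg (α ⬝ᵥ y)) * (sg (α ⬝ᵥ a) * (sg (p y) * sg (p (y + a)))) := by ring
      _ = _ := by rw [this, one_mul]
  have hcs : (∑ a, sg (α ⬝ᵥ a) * J a) ^ 2 ≤
      (∑ a : Fin n → ZMod 2, sg (α ⬝ᵥ a) ^ 2) * ∑ a, J a ^ 2 :=
    Finset.sum_mul_sq_le_sq_mul_sq _ _ _
  have hone : (∑ a : Fin n → ZMod 2, sg (α ⬝ᵥ a) ^ 2) = 2 ^ n := by
    have : ∀ a : Fin n → ZMod 2, sg (α ⬝ᵥ a) ^ 2 = 1 := fun a => by rw [sq]; exact sg_mul_self _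
    simp only [this, Finset.sum_const, Finset.card_univ, Fintype.card_pi, ZMod.card, Finset.prod_const,
      Fintype.card_fin, nsmul_eq_mul, mul_one, Nat.cast_pow, Nat.cast_ofNat]
  have hJ2 : ∑ a, J a ^ 2 ≤ 2 ^ n * ∑ a : Fin n → ZMod 2, (Nat.card (LinearMap.ker (T a)) : ℤ) := by
    rw [Finset.mul_sum]
    exact Finset.sum_le_sum fun a _ => cubbias_slice p hp T hT a
  set S : ℤ := ∑ a : Fin n → ZMod 2, (Nat.card (LinearMap.ker (T a)) : ℤ) with hS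
  have hI4 : |I| ^ 4 ≤ 2 ^ n * (2 ^ n * S) := by
    calc |I| ^ 4 = (I ^ 2) ^ 2 := by rw [← sq_abs I]; ring
      _ ≤ 2 ^ n * ∑ a, J a ^ 2 := by rw [hI2, ← hone]; exact hcs
      _ ≤ 2 ^ n * (2 ^ n * S) := mul_le_mul_of_nonneg_left hJ2 (by positivity)
  have hfin : (2 : ℤ) ^ (2 * n) ≤ 2 ^ (4 * κ) * S := by
    have h1 : ((2 : ℤ) ^ n) ^ 4 ≤ (|I| * 2 ^ κ) ^ 4 := pow_le_pow_left₀ (by positivity) hb 4
    have h2 : (2 : ℤ) ^ (2 * n) * 2 ^ (2 * n) ≤ 2 ^ (2 * n) * (2 ^ (4 * κ) * S) := by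
      calc (2 : ℤ) ^ (2 * n) * 2 ^ (2 * n) = ((2 : ℤ) ^ n) ^ 4 := by
            rw [← pow_add, ← pow_mul]; congr 1; ring
        _ ≤ (|I| * 2 ^ κ) ^ 4 := h1
        _ = |I| ^ 4 * 2 ^ (4 * κ) := by rw [mul_pow, ← pow_mul, mul_comm κ 4]
        _ ≤ 2 ^ n * (2 ^ n * S) * 2 ^ (4 * κ) := mul_le_mul_of_nonneg_right hI4 (by positivity)
        _ = 2 ^ (2 * n) * (2 ^ (4 * κ) * S) := by
            rw [two_mul n, pow_add]; ring
    exact le_of_mul_le_mul_left h2 (by positivity)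
  have hcast : ((2 ^ (4 * κ) * ∑ a : Fin n → ZMod 2, Nat.card (LinearMap.ker (T a)) : ℕ) : ℤ) =
      2 ^ (4 * κ) * S := by
    push_cast
    rfl
  have : ((2 ^ (2 * n) : ℕ) : ℤ) ≤
      ((2 ^ (4 * κ) * ∑ a : Fin n → ZMod 2, Nat.card (LinearMap.ker (T a)) : ℕ) : ℤ) := by
    rw [hcast]
    push_cast
    exact hfin
  exact_mod_cast this

end Pool.Agent.XLR
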