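import Mathlib

/-! MP_218513_lc, module CubCount: from many slices of small rank to a subspace all of whose slices have small rank.

PROOF. Write `N a = Nat.card (ker (T a)) = 2 ^ finrank (ker (T a))`, `R = 4 κ + 2`, and call `a` small if `2 ^ n ≤ N a * 2 ^ R`
(i.e. `n ≤ finrank (ker (T a)) + R`). If `a` is not small then `N a * 2 ^ R < 2 ^ n`. By symmetry `b ∈ ker (T a) ↔ a ∈ ker (T b)`.
(1) `2 ^ R * ∑_{a not small} N a ≤ 2 ^ (2 n)`; the hypothesis gives `2 ^ (2 n) ≤ 2 ^ (4 κ) ∑_a N a`, `2 ^ R = 4 * 2 ^ (4 κ)`, hence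
`4 * 2 ^ (2 n) ≤ 2 ^ R * ∑_a N a ≤ 2 ^ R * ∑_{a small} N a + 2 ^ (2 n)`, so `3 * 2 ^ (2 n) ≤ 2 ^ R * ∑_{a small} N a`.
(2) double counting: `∑_a #{b ∈ ker (T a) | b not small} = ∑_{b not small} N b`, and `2 ^ R` times it is `≤ 2 ^ (2 n)`.
(3) so there is a small `a` with `2 * #{b ∈ ker (T a) | b not small} < N a` (otherwise `2 ^ R ∑_{a small} N a ≤ 2 * 2 ^ (2 n)`, contradiction).
(4) for `v ∈ ker (T a)`: more than half of the `b ∈ ker (T a)` are small, and more than half of them have `v + b` small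
(`b ↦ v + b` is a bijection of `ker (T a)`), so some `b` has `b`, `v + b` both small; `ker (T b) ⊓ ker (T (v + b)) ≤ ker (T v)`
(`T v = T (v + b) + T b` in characteristic two, or `T v = T (v+b) - T b`), and an intersection of two subspaces of codimension `≤ R`
has codimension `≤ 2 R`. -/

set_option autoImplicit false

namespace Pool.Agent.XLR

open Module

theorem exists_good_radical {n κ : ℕ}
    (T : (Fin n → ZMod 2) →ₗ[ZMod 2] (Fin n → ZMod 2) →ₗ[ZMod 2] (Fin n → ZMod 2) →ₗ[ZMod 2] ZMod 2)
    (hsymm : ∀ a b c, T a b c = T b a c)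
    (hZ : 2 ^ (2 * n) ≤ 2 ^ (4 * κ) * ∑ a : Fin n → ZMod 2, Nat.card (LinearMap.ker (T a))) :
    ∃ a : Fin n → ZMod 2, n ≤ finrank (ZMod 2) (LinearMap.ker (T a)) + (4 * κ + 2) ∧
      ∀ v ∈ LinearMap.ker (T a), n ≤ finrank (ZMod 2) (LinearMap.ker (T v)) + 2 * (4 * κ + 2) := by
  classical
  set R := 4 * κ + 2 with hR
  set N : (Fin n → ZMod 2) → ℕ := fun a => Nat.card (LinearMap.ker (T a)) with hN
  have hsym : ∀ a b, b ∈ LinearMap.ker (T a) ↔ a ∈ LinearMap.ker (T b) := by
    intro a b
    rw [LinearMap.mem_ker, LinearMap.mem_ker, LinearMap.ext_iff, LinearMap.ext_iff]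
    exact forall_congr' fun c => by rw [hsymm]
  have hNfin : ∀ a, N a = 2 ^ finrank (ZMod 2) (LinearMap.ker (T a)) := by
    intro a
    simp only [hN]
    rw [Nat.card_eq_fintype_card, Module.card_eq_pow_finrank (K := ZMod 2), ZMod.card]
  have hNcard : ∀ a, N a = (Finset.univ.filter fun b => b ∈ LinearMap.ker (T a)).card := by
    intro a
    simp only [hN]
    rw [Nat.card_eq_fintype_card, Fintype.card_subtype]
  let small : (Fin n → ZMod 2) → Prop := fun a => 2 ^ n ≤ N a * 2 ^ R
  have hV : Fintype.card (Fin n → ZMod 2) = 2 ^ n := by simp [ZMod.card]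
  -- (1)
  have h1 : 2 ^ R * ∑ a ∈ Finset.univ.filter (fun a => ¬ small a), N a ≤ 2 ^ (2 * n) := by
    rw [Finset.mul_sum]
    calc ∑ a ∈ Finset.univ.filter (fun a => ¬ small a), 2 ^ R * N a
        ≤ ∑ _a ∈ Finset.univ.filter (fun a => ¬ small a), 2 ^ n := by
          refine Finset.sum_le_sum fun a ha => ?_
          rw [Finset.mem_filter] at ha
          have := ha.2
          simp only [small, not_le] at this
          rw [mul_comm]
          exact this.le
      _ ≤ ∑ _a : Fin n → ZMod 2, 2 ^ n :=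
          Finset.sum_le_sum_of_subset (Finset.filter_subset _ _)
      _ = 2 ^ (2 * n) := by
          rw [Finset.sum_const, Finset.card_univ, hV, smul_eq_mul, two_mul, pow_add]
  have hsplit : ∑ a, N a = ∑ a ∈ Finset.univ.filter (fun a => small a), N a +
      ∑ a ∈ Finset.univ.filter (fun a => ¬ small a), N a :=
    (Finset.sum_filter_add_sum_filter_not _ _ _).symm
  have h1' : 3 * 2 ^ (2 * n) ≤ 2 ^ R * ∑ a ∈ Finset.univ.filter (fun a => small a), N a := by
    have e1 : 2 ^ R = 4 * 2 ^ (4 * κ) := by rw [hR, pow_add]; ring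
    have e2 : 4 * 2 ^ (2 * n) ≤ 2 ^ R * ∑ a, N a := by
      rw [e1, mul_assoc]
      exact Nat.mul_le_mul_left 4 hZ
    rw [hsplit, mul_add] at e2
    omega
  -- (2)
  let cnt : (Fin n → ZMod 2) → ℕ := fun a =>
    (Finset.univ.filter fun b => b ∈ LinearMap.ker (T a) ∧ ¬ small b).card
  have h2 : ∑ a, cnt a = ∑ b ∈ Finset.univ.filter (fun b => ¬ small b), N b := by
    have e1 : ∀ a, cnt a = ∑ b ∈ Finset.univ.filter (fun b => ¬ small b),
        if b ∈ LinearMap.ker (T a) then 1 else 0 := by
      intro a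
      rw [← Finset.card_filter, Finset.filter_filter]
      simp only [cnt]
      congr 1
      ext b
      simp only [Finset.mem_filter, and_comm]
    simp only [e1]
    rw [Finset.sum_comm]
    refine Finset.sum_congr rfl fun b _ => ?_
    rw [hNcard, ← Finset.card_filter]
    congr 1
    ext a
    simp only [Finset.mem_filter, Finset.mem_univ, true_and]
    exact hsym a b
  -- (3)
  obtain ⟨a, ha, hcnt⟩ : ∃ a, small a ∧ 2 * cnt a < N a := by
    by_contra hcon
    push Not at hcon
    have e1 : ∑ a ∈ Finset.univ.filter (fun a => small a), N a ≤ 2 * ∑ a, cnt a := by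
      rw [Finset.mul_sum]
      calc ∑ a ∈ Finset.univ.filter (fun a => small a), N a
          ≤ ∑ a ∈ Finset.univ.filter (fun a => small a), 2 * cnt a := by
            refine Finset.sum_le_sum fun a ha => ?_
            rw [Finset.mem_filter] at ha
            exact hcon a ha.2
        _ ≤ _ := Finset.sum_le_sum_of_subset (Finset.filter_subset _ _)
    have e2 : 2 ^ R * ∑ a ∈ Finset.univ.filter (fun a => small a), N a ≤
        2 * (2 ^ R * ∑ a, cnt a) := by
      calc 2 ^ R * ∑ a ∈ Finset.univ.filter (fun a => small a), N a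
          ≤ 2 ^ R * (2 * ∑ a, cnt a) := Nat.mul_le_mul_left _ e1
        _ = _ := by ring
    rw [h2] at e2
    have hpos : 0 < 2 ^ (2 * n) := by positivity
    omega
  have hdim : ∀ b, small b → n ≤ finrank (ZMod 2) (LinearMap.ker (T b)) + R := by
    intro b hb
    simp only [small] at hb
    rw [hNfin, ← pow_add] at hb
    exact (Nat.pow_le_pow_iff_right (by norm_num)).1 hb
  refine ⟨a, hdim a ha, ?_⟩
  intro v hv
  -- (4)
  obtain ⟨b, hb1, hb2⟩ : ∃ b, small b ∧ small (v + b) := by
    by_contra hcon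
    push Not at hcon
    have hsub : (Finset.univ.filter fun b => b ∈ LinearMap.ker (T a)) ⊆
        (Finset.univ.filter fun b => b ∈ LinearMap.ker (T a) ∧ ¬ small b) ∪
        (Finset.univ.filter fun b => b ∈ LinearMap.ker (T a) ∧ ¬ small b).image
          (fun b => b - v) := by
      intro b hb
      rw [Finset.mem_filter] at hb
      rw [Finset.mem_union]
      by_cases hs : small b
      · right
        rw [Finset.mem_image]
        refine ⟨v + b, ?_, by abel⟩
        rw [Finset.mem_filter]
        exact ⟨Finset.mem_univ _, Submodule.add_mem _ hv hb.2, hcon b hs⟩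
      · left
        rw [Finset.mem_filter]
        exact ⟨Finset.mem_univ _, hb.2, hs⟩
    have h3 := (Finset.card_le_card hsub).trans (Finset.card_union_le _ _)
    rw [← hNcard] at h3
    have h4 := Finset.card_image_le (s := Finset.univ.filter fun b =>
      b ∈ LinearMap.ker (T a) ∧ ¬ small b) (f := fun b => b - v)
    change N a ≤ cnt a + _ at h3
    change _ ≤ cnt a at h4
    omega
  have hle : LinearMap.ker (T b) ⊓ LinearMap.ker (T (v + b)) ≤ LinearMap.ker (T v) := by
    rintro c ⟨hc1, hc2⟩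
    rw [SetLike.mem_coe, LinearMap.mem_ker] at hc1 hc2
    rw [LinearMap.mem_ker]
    rw [map_add, LinearMap.add_apply, hc1, add_zero] at hc2
    exact hc2
  have h5 := Submodule.finrank_mono hle
  have h6 := Submodule.finrank_sup_add_finrank_inf_eq (LinearMap.ker (T b))
    (LinearMap.ker (T (v + b)))
  have h7 := Submodule.finrank_le (LinearMap.ker (T b) ⊔ LinearMap.ker (T (v + b)))
  have h8 : finrank (ZMod 2) (Fin n → ZMod 2) = n := by simp
  have h9 := hdim b hb1
  have h10 := hdim _ hb2
  omega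

end Pool.Agent.XLR
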