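import Pool.Agent.Work.MP_218513_lc.Norm
import Pool.Agent.Work.MP_218513_lc.Tree

/-! MP_218513_lc, module CubTri: the trilinear form of a cubic polynomial over `F_2`. -/

set_option autoImplicit false

namespace Pool.Agent.XLR

open Module

private theorem cubtri_const {n : ℕ} (p : (Fin n → ZMod 2) → ZMod 2)
    (hp : ∀ m : Multiset (Fin n → ZMod 2), m.card = 4 → ∀ x, dm m p x = 0)
    (m : Multiset (Fin n → ZMod 2)) (hm : m.card = 3) (x : Fin n → ZMod 2) : dm m p x = dm m p 0 := by
  have h := hp (x ::ₘ m) (by simp [hm]) 0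
  rw [dm_cons, zero_add] at h
  revert h
  generalize dm m p x = a
  generalize dm m p 0 = b
  revert a b
  decide

private theorem cubtri_add {n : ℕ} (p : (Fin n → ZMod 2) → ZMod 2)
    (hp : ∀ m : Multiset (Fin n → ZMod 2), m.card = 4 → ∀ x, dm m p x = 0)
    (m : Multiset (Fin n → ZMod 2)) (hm : m.card = 2) (a a' : Fin n → ZMod 2) :
    dm ((a + a') ::ₘ m) p 0 = dm (a ::ₘ m) p 0 + dm (a' ::ₘ m) p 0 := by
  rw [← cubtri_const p hp (a' ::ₘ m) (by simp [hm]) a, dm_cons, dm_cons, dm_cons, zero_add, zero_add]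
  generalize dm m p (a + a') = s
  generalize dm m p a = t
  generalize dm m p 0 = u
  revert s t u
  decide

private theorem cubtri_smul {n : ℕ} (p : (Fin n → ZMod 2) → ZMod 2)
    (m : Multiset (Fin n → ZMod 2)) (c : ZMod 2) (a : Fin n → ZMod 2) :
    dm ((c • a) ::ₘ m) p 0 = c • dm (a ::ₘ m) p 0 := by
  have hc : c = 0 ∨ c = 1 := by revert c; decide
  rcases hc with rfl | rfl
  · rw [zero_smul, zero_smul, dm_cons, add_zero]
    generalize dm m p 0 = u
    revert u
    decide
  · rw [one_smul, one_smul]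

/-- PROOF. `dm m p x` for `m.card = 3` does not depend on `x` (as `dm (x ::ₘ m) p 0 = 0`), and it is additive in each argument:
`dm ((a + a') ::ₘ m) p x = dm (a ::ₘ m) p x + dm (a' ::ₘ m) p (x + a)` by `dm_cons` (characteristic two). An additive map between
`ZMod 2`-modules is linear (`AddMonoidHom.toZModLinearMap`). -/
theorem exists_trilinear {n : ℕ} (p : (Fin n → ZMod 2) → ZMod 2)
    (hp : ∀ m : Multiset (Fin n → ZMod 2), m.card = 4 → ∀ x, dm m p x = 0) :
    ∃ T : (Fin n → ZMod 2) →ₗ[ZMod 2] (Fin n → ZMod 2) →ₗ[ZMod 2] (Fin n → ZMod 2) →ₗ[ZMod 2] ZMod 2,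
      ∀ a b c x, T a b c = dm (a ::ₘ b ::ₘ c ::ₘ 0) p x := by
  let B : (Fin n → ZMod 2) → ((Fin n → ZMod 2) →ₗ[ZMod 2] (Fin n → ZMod 2) →ₗ[ZMod 2] ZMod 2) := fun a =>
    LinearMap.mk₂ (ZMod 2) (fun b c => dm (a ::ₘ b ::ₘ c ::ₘ 0) p 0)
      (by
        intro b b' c
        rw [Multiset.cons_swap a (b + b'), Multiset.cons_swap a b, Multiset.cons_swap a b']
        exact cubtri_add p hp _ (by simp) b b')
      (by
        intro t b c
        rw [Multiset.cons_swap a (t • b), Multiset.cons_swap a b]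
        exact cubtri_smul p _ t b)
      (by
        intro b c c'
        rw [Multiset.cons_swap b (c + c'), Multiset.cons_swap b c, Multiset.cons_swap b c',
          Multiset.cons_swap a (c + c'), Multiset.cons_swap a c, Multiset.cons_swap a c']
        exact cubtri_add p hp _ (by simp) c c')
      (by
        intro t b c
        rw [Multiset.cons_swap b (t • c), Multiset.cons_swap b c,
          Multiset.cons_swap a (t • c), Multiset.cons_swap a c]
        exact cubtri_smul p _ t c)
  have hB : ∀ a b c, B a b c = dm (a ::ₘ b ::ₘ c ::ₘ 0) p 0 := fun a b c => rfl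
  refine ⟨{ toFun := B
            map_add' := ?_
            map_smul' := ?_ }, ?_⟩
  · intro a a'
    refine LinearMap.ext fun b => LinearMap.ext fun c => ?_
    rw [LinearMap.add_apply, LinearMap.add_apply, hB, hB, hB]
    exact cubtri_add p hp _ (by simp) a a'
  · intro t a
    refine LinearMap.ext fun b => LinearMap.ext fun c => ?_
    rw [RingHom.id_apply, LinearMap.smul_apply, LinearMap.smul_apply, hB, hB]
    exact cubtri_smul p _ t a
  · intro a b c x
    exact (cubtri_const p hp (a ::ₘ b ::ₘ c ::ₘ 0) (by simp) x).symm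

end Pool.Agent.XLR
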