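import Pool.Agent.Work.MP_218513_lc.Kill

/-! MP_218513_lc: parity decision trees for sparse functions of low degree, over `ZMod 2`. -/

set_option autoImplicit false

namespace Pool.Agent.XLR

open Module

/-- The recursive bound. -/
def Bd (Λ : ℕ) : ℕ → ℕ
  | 0 => 0
  | 1 => 1
  | (d + 2) => (Nat.log 2 (8 ^ d * Λ + 2) + 1) * (8 ^ d * Λ) + Bd Λ (d + 1)

theorem dm_translate {n : ℕ} (F : (Fin n → ZMod 2) → ZMod 2) (c : Fin n → ZMod 2)
    (π : (Fin n → ZMod 2) →ₗ[ZMod 2] (Fin n → ZMod 2)) (m : Multiset (Fin n → ZMod 2)) (x : Fin n → ZMod 2) :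
    dm m (fun y => F (c + π y)) x = dm (m.map π) F (c + π x) := by
  induction m using Multiset.induction_on generalizing x with
  | empty => simp [dm_zero]
  | cons a m ih => rw [Multiset.map_cons, dm_cons, dm_cons, ih, ih, map_add, add_assoc]

theorem vec_add_self {n : ℕ} (v : Fin n → ZMod 2) : v + v = 0 := by
  funext i; exact zmod2_add_self _

theorem main_PT (Λ : ℕ) : ∀ (d n : ℕ) (F : (Fin n → ZMod 2) → ZMod 2),
    (∀ m : Multiset (Fin n → ZMod 2), m.card = d + 1 → ∀ x, dm m F x = 0) →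
    nrm (fun x => sg (F x)) ^ 2 ≤ 2 ^ Λ * 4 ^ n → PT (Bd Λ d) F := by
  intro d
  induction d with
  | zero =>
    intro n F hF _
    have hc : ∀ x, F x = F 0 := by
      intro x
      have := dm_const (k := 0) F hF 0 rfl x
      simpa [dm_zero] using this
    have : F = fun _ => F 0 := funext hc
    rw [this]
    exact PT.leaf _
  | succ d ih =>
    intro n F hF hs
    rcases d with _ | d
    · obtain ⟨α, hα⟩ := affine_repr F hF
      exact PT.affine F α (F 0) hα
    · obtain ⟨V, hVdim, hV⟩ := exists_kill F hF hs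
      set c := (Nat.log 2 (8 ^ d * Λ + 2) + 1) * (8 ^ d * Λ) with hc
      obtain ⟨α, hα⟩ := exists_functionals V c hVdim
      obtain ⟨π, hπV, hπ⟩ := exists_proj V
      classical
      -- representatives of the cosets
      let rep : (Fin c → ZMod 2) → (Fin n → ZMod 2) := fun a =>
        if h : ∃ x, (fun i => α i ⬝ᵥ x) = a then h.choose else 0
      have hrep : ∀ x : Fin n → ZMod 2, x + rep (fun i => α i ⬝ᵥ x) ∈ V := by
        intro x
        have h : ∃ x', (fun i => α i ⬝ᵥ x') = (fun i => α i ⬝ᵥ x) := ⟨x, rfl⟩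
        rw [hα]
        intro i
        have hr : rep (fun i => α i ⬝ᵥ x) = h.choose := dif_pos h
        rw [hr, dotProduct_add]
        have hi : α i ⬝ᵥ h.choose = α i ⬝ᵥ x := congrFun h.choose_spec i
        rw [hi]
        exact zmod2_add_self _
      -- the functions on the cosets
      let g : (Fin c → ZMod 2) → ((Fin n → ZMod 2) → ZMod 2) := fun a y =>
        F ((rep a + π (rep a)) + π y)
      have hg : ∀ a, PT (Bd Λ (d + 1)) (g a) := by
        intro a
        refine ih n (g a) ?_ ?_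
        · intro m hm x
          show dm m (fun y => F ((rep a + π (rep a)) + π y)) x = 0
          rw [dm_translate]
          apply hV
          · rw [Multiset.card_map]; exact hm
          · intro v hv
            obtain ⟨w, _, rfl⟩ := Multiset.mem_map.1 hv
            exact hπV w
        · exact (pow_le_pow_left₀ (nrm_nonneg _)
          (nrm_comp_le (fun x => sg (F x)) (rep a + π (rep a)) π) 2).trans hs
      have key := PT.query c (Bd Λ (d + 1)) α g hg
      have hfun : (fun x => g (fun i => α i ⬝ᵥ x) x) = F := by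
        funext x
        show F ((rep _ + π (rep _)) + π x) = F x
        congr 1
        have h1 := hπ _ (hrep x)
        rw [map_add] at h1
        rw [add_assoc, add_comm (π (rep _)), h1, add_comm x, ← add_assoc, vec_add_self, zero_add]
      rw [hfun] at key
      exact key

theorem log_bound (Λ : ℕ) (d : ℕ) :
    Nat.log 2 (8 ^ d * Λ + 2) + 1 ≤ 3 * (d + 1) * (Nat.log 2 Λ + 1) := by
  set l := Nat.log 2 Λ with hl
  have h1 : Λ < 2 ^ (l + 1) := Nat.lt_pow_succ_log_self (by norm_num) Λ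
  have h8 : (1 : ℕ) ≤ 8 ^ d := Nat.one_le_pow _ _ (by norm_num)
  have h2l : (1 : ℕ) ≤ 2 ^ l := Nat.one_le_pow _ _ (by norm_num)
  have h3 : 8 ^ d * Λ + 2 < 8 ^ d * (4 * 2 ^ (l + 1)) := by
    rw [pow_succ] at h1 ⊢
    nlinarith
  have h4 : 8 ^ d * (4 * 2 ^ (l + 1)) ≤ 2 ^ (3 * (d + 1) * (l + 1)) := by
    have e1 : 2 ^ (3 * (d + 1) * (l + 1)) = 8 ^ ((d + 1) * (l + 1)) := by
      rw [mul_assoc, pow_mul]; norm_num
    rw [e1]
    calc 8 ^ d * (4 * 2 ^ (l + 1)) = 8 ^ d * 8 * 2 ^ l := by ring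
      _ ≤ 8 ^ d * 8 * 8 ^ l := by
        apply Nat.mul_le_mul_left
        exact Nat.pow_le_pow_left (by norm_num) l
      _ = 8 ^ (d + 1 + l) := by rw [pow_add, pow_succ]
      _ ≤ 8 ^ ((d + 1) * (l + 1)) := by
        apply Nat.pow_le_pow_right (by norm_num)
        nlinarith
  exact Nat.log_lt_of_lt_pow (by omega) (h3.trans_le h4)

/-- Closed form of the bound. -/
theorem Bd_le (Λ : ℕ) (hΛ : 1 ≤ Λ) : ∀ d : ℕ,
    Bd Λ d ≤ d * 8 ^ (d - 1) * (Λ * (Nat.log 2 Λ + 1))
  | 0 => by simp [Bd]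
  | 1 => by
    have : 0 < Λ * (Nat.log 2 Λ + 1) := by positivity
    simp only [Bd]; omega
  | (d + 2) => by
    have ih := Bd_le Λ hΛ (d + 1)
    have hl := log_bound Λ d
    simp only [Bd]
    simp only [Nat.add_sub_cancel] at ih
    have e : d + 2 - 1 = d + 1 := rfl
    rw [e]
    calc (Nat.log 2 (8 ^ d * Λ + 2) + 1) * (8 ^ d * Λ) + Bd Λ (d + 1)
        ≤ (3 * (d + 1) * (Nat.log 2 Λ + 1)) * (8 ^ d * Λ) + (d + 1) * 8 ^ d * (Λ * (Nat.log 2 Λ + 1)) := by
          gcongr
      _ = (4 * (d + 1)) * (8 ^ d * (Λ * (Nat.log 2 Λ + 1))) := by ring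
      _ ≤ (8 * (d + 2)) * (8 ^ d * (Λ * (Nat.log 2 Λ + 1))) := by
          apply Nat.mul_le_mul_right; omega
      _ = (d + 2) * 8 ^ (d + 1) * (Λ * (Nat.log 2 Λ + 1)) := by ring

end Pool.Agent.XLR
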