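import Pool.Agent.Work.MP_218513_lc.Norm
import Pool.Agent.Work.MP_218513_lc.Tree

/-! MP_218513_lc, module QuadDrop: a biased quadratic polynomial vanishes on a subspace of small codimension. -/

set_option autoImplicit false

namespace Pool.Agent.XLR

open Module

/-- A biased quadratic function vanishes on a subspace of small codimension.
PROOF. `Q = q`; `L` from `affine_repr (dm (v ::ₘ 0) q)`, so `q (x + v) + q x = L v ⬝ᵥ x + c v`; `quad_facts` gives `N` with
`N * (range L).ncard = 2^n` and `(W (sg ∘ q) α)^2 ≤ 2^n N`; the bias gives `4^n ≤ 2^n N 4^κ`, so the kernel of the additive map `L`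
(`quad_additive`) has codimension `≤ 2 κ`; on it `q (v + v') = q v + q v'` (as `q 0 = 0`), so the kernel of `q` there has
codimension at most one more. -/
theorem quad_drop {n κ : ℕ} (q : (Fin n → ZMod 2) → ZMod 2)
    (hq : ∀ m : Multiset (Fin n → ZMod 2), m.card = 3 → ∀ x, dm m q x = 0) (h0 : q 0 = 0) (α : Fin n → ZMod 2)
    (hb : (2 : ℤ) ^ n ≤ |∑ y, sg (q y) * sg (α ⬝ᵥ y)| * 2 ^ κ) :
    ∃ V : Submodule (ZMod 2) (Fin n → ZMod 2), n ≤ finrank (ZMod 2) V + (2 * κ + 1) ∧ ∀ v ∈ V, q v = 0 := by
  classical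
  have hder : ∀ v : Fin n → ZMod 2, ∀ m : Multiset (Fin n → ZMod 2), m.card = 2 →
      ∀ x, dm m (dm (v ::ₘ 0) q) x = 0 := by
    intro v m hm x
    rw [← dm_add]
    exact hq _ (by simp [hm]) x
  choose L hL using fun v => affine_repr (dm (v ::ₘ 0) q) (hder v)
  have hQ : ∀ v x, q (x + v) + q x = L v ⬝ᵥ x + dm (v ::ₘ 0) q 0 := by
    intro v x
    rw [← hL v x, dm_cons, dm_zero, dm_zero, add_comm]
  have hadd := quad_additive q L _ hQ
  have hW := quad_W_sq_le q L _ hQ α
  have hWe : W (fun x => sg (q x)) α = ∑ y, sg (q y) * sg (α ⬝ᵥ y) := rfl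
  rw [hWe] at hW
  set I : ℤ := ∑ y, sg (q y) * sg (α ⬝ᵥ y) with hI
  -- the size of the kernel
  have hker : 2 ^ n ≤ kerSize L * 2 ^ (2 * κ) := by
    have h1 : ((2 : ℤ) ^ n) ^ 2 ≤ (|I| * 2 ^ κ) ^ 2 := pow_le_pow_left₀ (by positivity) hb 2
    have h2 : (2 : ℤ) ^ n * 2 ^ n ≤ 2 ^ n * (kerSize L * 2 ^ (2 * κ)) := by
      calc (2 : ℤ) ^ n * 2 ^ n = ((2 : ℤ) ^ n) ^ 2 := (sq _).symm
        _ ≤ (|I| * 2 ^ κ) ^ 2 := h1
        _ = I ^ 2 * 2 ^ (2 * κ) := by rw [mul_pow, sq_abs, ← pow_mul, mul_comm κ 2]
        _ ≤ 2 ^ n * kerSize L * 2 ^ (2 * κ) := mul_le_mul_of_nonneg_right hW (by positivity)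
        _ = _ := by ring
    have h3 : (2 : ℤ) ^ n ≤ kerSize L * 2 ^ (2 * κ) := le_of_mul_le_mul_left h2 (by positivity)
    exact_mod_cast h3
  -- the kernel as a submodule
  let K : Submodule (ZMod 2) (Fin n → ZMod 2) :=
    { carrier := {v | L v = 0}
      add_mem' := by
        intro v w hv hw
        rw [Set.mem_ofPred_eq] at hv hw ⊢
        rw [hadd, hv, hw, add_zero]
      zero_mem' := by
        rw [Set.mem_ofPred_eq]
        have := hadd 0 0
        rw [add_zero] at this
        have h3 : L 0 + 0 = L 0 + L 0 := by rw [add_zero]; exact this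
        exact (add_left_cancel h3).symm
      smul_mem' := by
        intro c v hv
        rw [Set.mem_ofPred_eq] at hv ⊢
        have hc : c = 0 ∨ c = 1 := by revert c; decide
        rcases hc with rfl | rfl
        · rw [zero_smul]
          have := hadd 0 0
          rw [add_zero] at this
          have h3 : L 0 + 0 = L 0 + L 0 := by rw [add_zero]; exact this
          exact (add_left_cancel h3).symm
        · rw [one_smul]; exact hv }
  have hK : ∀ v, v ∈ K ↔ L v = 0 := fun v => Iff.rfl
  have hKcard : 2 ^ finrank (ZMod 2) K = kerSize L := by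
    have h1 : Nat.card K = 2 ^ finrank (ZMod 2) K := by
      have := Module.natCard_eq_pow_finrank (K := ZMod 2) (V := K)
      rw [this, Nat.card_zmod]
    rw [← h1, kerSize, ← Fintype.card_subtype, ← Nat.card_eq_fintype_card]
    rfl
  have hKdim : n ≤ finrank (ZMod 2) K + 2 * κ := by
    rw [← hKcard, ← pow_add] at hker
    exact (Nat.pow_le_pow_iff_right (by norm_num)).1 hker
  -- q is additive on the kernel
  have hqK : ∀ v ∈ K, ∀ w, q (w + v) = q w + q v := by
    intro v hv w
    have e1 := hQ v w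
    have e2 := hQ v 0
    rw [(hK v).1 hv, zero_dotProduct, zero_add] at e1 e2
    rw [zero_add, h0, add_zero] at e2
    rw [← e2] at e1
    revert e1
    generalize q (w + v) = a
    generalize q w = b
    generalize q v = c
    revert a b c
    decide
  let l : K →ₗ[ZMod 2] ZMod 2 :=
    { toFun := fun v => q v
      map_add' := by
        intro v w
        exact hqK w w.2 v
      map_smul' := by
        intro c v
        have hc : c = 0 ∨ c = 1 := by revert c; decide
        rcases hc with rfl | rfl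
        · rw [RingHom.id_apply, zero_smul, zero_smul]; exact h0
        · rw [RingHom.id_apply, one_smul, one_smul] }
  refine ⟨(LinearMap.ker l).map K.subtype, ?_, ?_⟩
  · have h1 : finrank (ZMod 2) ((LinearMap.ker l).map K.subtype) = finrank (ZMod 2) (LinearMap.ker l) :=
      Submodule.finrank_map_subtype_eq K (LinearMap.ker l)
    have h2 := LinearMap.finrank_range_add_finrank_ker l
    have h3 : finrank (ZMod 2) (LinearMap.range l) ≤ 1 := by
      have := Submodule.finrank_le (LinearMap.range l)
      rwa [finrank_self] at this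
    rw [h1]
    omega
  · intro v hv
    rw [Submodule.mem_map] at hv
    obtain ⟨w, hw, rfl⟩ := hv
    exact hw

end Pool.Agent.XLR
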