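import Pool.Agent.Work.MP_218513_lc.CubIso
import Pool.Agent.Work.MP_218513_lc.CubCount
import Pool.Agent.Work.MP_218513_lc.CubTri
import Pool.Agent.Work.MP_218513_lc.CubBias
import Pool.Agent.Work.MP_218513_lc.QuadDrop
import Pool.Agent.Work.MP_218513_lc.CertBase
import Pool.Agent.Work.MP_218513_lc.MainPT

/-! MP_218513_lc: cubic certificates give parity certificates. -/

set_option autoImplicit false

namespace Pool.Agent.XLR

open Module

/-- A biased cubic polynomial has degree at most two on all cosets of a subspace of small codimension. -/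
theorem cubic_drop {n κ : ℕ} (p : (Fin n → ZMod 2) → ZMod 2)
    (hp : ∀ m : Multiset (Fin n → ZMod 2), m.card = 4 → ∀ x, dm m p x = 0) (α : Fin n → ZMod 2)
    (hb : (2 : ℤ) ^ n ≤ |∑ y, sg (p y) * sg (α ⬝ᵥ y)| * 2 ^ κ) :
    ∃ V : Submodule (ZMod 2) (Fin n → ZMod 2), n ≤ finrank (ZMod 2) V + (20 * κ + 10) ∧
      ∀ m : Multiset (Fin n → ZMod 2), m.card = 3 → (∀ v ∈ m, v ∈ V) → ∀ x, dm m p x = 0 := by
  obtain ⟨T, hT⟩ := exists_trilinear p hp
  have h12 : ∀ a b c, T a b c = T b a c := by
    intro a b c; rw [hT a b c 0, hT b a c 0, Multiset.cons_swap]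
  have h23 : ∀ a b c, T a b c = T a c b := by
    intro a b c; rw [hT a b c 0, hT a c b 0, Multiset.cons_swap b c]
  obtain ⟨a, ha, hv⟩ := exists_good_radical (κ := κ) T h12 (cubic_bias p hp T hT α hb)
  set K := LinearMap.ker (T a) with hK
  -- restriction to K
  let TK : K →ₗ[ZMod 2] K →ₗ[ZMod 2] K →ₗ[ZMod 2] ZMod 2 :=
    { toFun := fun a => ((LinearMap.lcomp (ZMod 2) (ZMod 2) K.subtype).comp (T a)).comp K.subtype
      map_add' := by intro x y; ext u w; simp
      map_smul' := by intro c x; ext u w; simp }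
  have hTK : ∀ x y z : K, TK x y z = T x y z := fun x y z => rfl
  have hrank : ∀ x : K, finrank (ZMod 2) (LinearMap.range (TK x)) ≤ 2 * (4 * κ + 2) := by
    intro x
    have h1 := hv x x.2
    have h2 := LinearMap.finrank_range_add_finrank_ker (T (x : Fin n → ZMod 2))
    have h3 : finrank (ZMod 2) (Fin n → ZMod 2) = n := by simp
    have h4 : finrank (ZMod 2) (LinearMap.range (T (x : Fin n → ZMod 2))) ≤ 2 * (4 * κ + 2) := by omega
    refine le_trans ?_ h4
    have h5 : LinearMap.range (TK x) ≤
        (LinearMap.range (T (x : Fin n → ZMod 2))).map (LinearMap.lcomp (ZMod 2) (ZMod 2) K.subtype) := by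
      rintro _ ⟨y, rfl⟩
      exact ⟨T x y, ⟨y, rfl⟩, rfl⟩
    exact (Submodule.finrank_mono h5).trans (Submodule.finrank_map_le _ _)
  obtain ⟨K', hK'dim, hK'⟩ := iso_subspace (2 * (4 * κ + 2)) K TK
    (fun x y z => by rw [hTK, hTK, h23]) hrank
  refine ⟨K'.map K.subtype, ?_, ?_⟩
  · have h6 : finrank (ZMod 2) (K'.map K.subtype) = finrank (ZMod 2) K' :=
      (Submodule.equivMapOfInjective K.subtype K.injective_subtype K').finrank_eq.symm
    rw [h6]; omega
  · intro m hm hmV x
    obtain ⟨u, v, w, rfl⟩ := Multiset.card_eq_three.1 hm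
    obtain ⟨u', hu', hu⟩ := (Submodule.mem_map).1 (hmV u (by simp))
    obtain ⟨v', hv', hv⟩ := (Submodule.mem_map).1 (hmV v (by simp))
    obtain ⟨w', hw', hw⟩ := (Submodule.mem_map).1 (hmV w (by simp))
    have h7 : T u v w = 0 := by
      rw [← hu, ← hv, ← hw]
      exact hK' u' hu' v' hv' w' hw'
    rw [hT u v w x] at h7
    exact h7

/-- degree bound attached to a level: `2 ↦` cubic, `1 ↦` quadratic, `0 ↦` zero function -/
def LevOK {n : ℕ} (l : ℕ) (p : (Fin n → ZMod 2) → ZMod 2) : Prop :=
  l ≤ 2 ∧ p 0 = 0 ∧ (∀ m : Multiset (Fin n → ZMod 2), m.card = l + 2 → ∀ x, dm m p x = 0) ∧ (l = 0 → ∀ y, p y = 0)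

/-- cost of a level -/
def cost (κ : ℕ) : ℕ → ℕ
  | 0 => 0
  | 1 => 2 * κ + 1
  | _ => 22 * κ + 11


theorem dm_sum {n k : ℕ} (c : Fin k → ZMod 2) (p : Fin k → (Fin n → ZMod 2) → ZMod 2)
    (m : Multiset (Fin n → ZMod 2)) (x : Fin n → ZMod 2) :
    dm m (fun y => ∑ i, c i * p i y) x = ∑ i, c i * dm m (p i) x := by
  induction m using Multiset.induction_on generalizing x with
  | empty => simp [dm_zero]
  | cons a m ih =>
    rw [dm_cons, ih, ih, ← Finset.sum_add_distrib]
    refine Finset.sum_congr rfl fun i _ => ?_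
    rw [dm_cons, mul_add]

/-- If all `k`-fold derivatives vanish then so do all longer ones. -/
theorem dm_zero_of_le {n k : ℕ} (F : (Fin n → ZMod 2) → ZMod 2)
    (hF : ∀ m : Multiset (Fin n → ZMod 2), m.card = k → ∀ x, dm m F x = 0)
    (m : Multiset (Fin n → ZMod 2)) (hm : k ≤ m.card) : ∀ x, dm m F x = 0 := by
  induction m using Multiset.induction_on with
  | empty =>
    intro x
    exact hF 0 (by simpa using hm.antisymm (Nat.zero_le _) |>.symm) x
  | cons a m ih =>
    intro x
    rcases Nat.lt_or_ge k (a ::ₘ m).card with h | h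
    · rw [Multiset.card_cons] at h
      rw [dm_cons, ih (by omega), ih (by omega), add_zero]
    · exact hF _ (h.antisymm hm) x

theorem zmod2_ne_zero {a : ZMod 2} (h : a ≠ 0) : a = 1 := by revert a; decide

theorem LevOK.comp {n l : ℕ} {p : (Fin n → ZMod 2) → ZMod 2} (h : LevOK l p)
    (π : (Fin n → ZMod 2) →ₗ[ZMod 2] (Fin n → ZMod 2)) : LevOK l (fun y => p (π y)) := by
  obtain ⟨h1, h2, h3, h4⟩ := h
  refine ⟨h1, by show p (π 0) = 0; rw [map_zero]; exact h2, ?_, fun h y => h4 h _⟩
  intro m hm x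
  have := dm_translate p 0 π m x
  simp only [zero_add] at this
  rw [this]
  exact h3 _ (by rw [Multiset.card_map]; exact hm) _

theorem cert_ind {n k Λ : ℕ} : ∀ (N : ℕ) (F : (Fin n → ZMod 2) → ZMod 2) (p : Fin k → (Fin n → ZMod 2) → ZMod 2)
    (lev : Fin k → ℕ), spar (fun x => sg (F x)) ≤ 2 ^ Λ → (∀ i, LevOK (lev i) (p i)) → ∑ i, lev i = N →
    (∀ y, (∀ i, p i y = 0) → F y = 0) →
    ∃ V : Submodule (ZMod 2) (Fin n → ZMod 2),
      n ≤ finrank (ZMod 2) V + ∑ i, cost (k + Λ + 1) (lev i) ∧ ∀ v ∈ V, F v = 0 := by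
  classical
  intro N
  induction N using Nat.strong_induction_on with
  | _ N ih =>
  intro F p lev hs hlev hN hcert
  by_cases hno : ∀ c : Fin k → ZMod 2, (∃ y, ∑ i, c i * p i y ≠ 0) → ∀ α : Fin n → ZMod 2,
      |∑ y, sg (∑ i, c i * p i y) * sg (α ⬝ᵥ y)| * 2 ^ (k + Λ + 1) < 2 ^ n
  · refine ⟨⊤, ?_, fun v _ => cert_base F hs p hcert hno v⟩
    have : finrank (ZMod 2) (⊤ : Submodule (ZMod 2) (Fin n → ZMod 2)) = n := by simp
    rw [this]; omega
  · push Not at hno
    obtain ⟨c, ⟨y₀, hy₀⟩, α, hb⟩ := hno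
    set q : (Fin n → ZMod 2) → ZMod 2 := fun y => ∑ i, c i * p i y with hq
    -- an index of maximal level
    have hne : (Finset.univ.filter (fun i => c i ≠ 0 ∧ lev i ≠ 0)).Nonempty := by
      obtain ⟨i, _, hi⟩ := Finset.exists_ne_zero_of_sum_ne_zero hy₀
      refine ⟨i, Finset.mem_filter.2 ⟨Finset.mem_univ _, left_ne_zero_of_mul hi, fun h0 => ?_⟩⟩
      exact right_ne_zero_of_mul hi ((hlev i).2.2.2 h0 y₀)
    obtain ⟨j, hj, hmax⟩ := Finset.exists_max_image _ lev hne
    obtain ⟨-, hcj, hlj⟩ := Finset.mem_filter.1 hj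
    have hle : ∀ i, c i ≠ 0 → lev i ≤ lev j := by
      intro i hi
      by_cases h0 : lev i = 0
      · omega
      · exact hmax i (Finset.mem_filter.2 ⟨Finset.mem_univ _, hi, h0⟩)
    have hq0 : q 0 = 0 := Finset.sum_eq_zero (fun i _ => by rw [(hlev i).2.1, mul_zero])
    have hqd : ∀ m : Multiset (Fin n → ZMod 2), m.card = lev j + 2 → ∀ x, dm m q x = 0 := by
      intro m hm x
      rw [hq, dm_sum]
      refine Finset.sum_eq_zero (fun i _ => ?_)
      by_cases hi : c i = 0
      · rw [hi, zero_mul]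
      · rw [dm_zero_of_le (p i) (hlev i).2.2.1 m (by have := hle i hi; omega) x, mul_zero]
    -- the subspace
    obtain ⟨V₁, hV₁, hdrop⟩ : ∃ V₁ : Submodule (ZMod 2) (Fin n → ZMod 2),
        n + cost (k + Λ + 1) (lev j - 1) ≤ finrank (ZMod 2) V₁ + cost (k + Λ + 1) (lev j) ∧
        ∀ π : (Fin n → ZMod 2) →ₗ[ZMod 2] (Fin n → ZMod 2), (∀ v, π v ∈ V₁) →
          LevOK (lev j - 1) (fun y => q (π y)) := by
      have hl2 := (hlev j).1
      have hcases : lev j = 1 ∨ lev j = 2 := by omega
      rcases hcases with h1 | h2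
      · have hqd' := hqd
        rw [h1] at hqd'
        obtain ⟨V₁, hd, hz⟩ := quad_drop q hqd' hq0 α hb
        refine ⟨V₁, ?_, fun π hπ => ?_⟩
        · rw [h1]; simp only [cost]; omega
        · rw [h1]
          have hzero : (fun y => q (π y)) = fun _ => 0 := funext fun y => hz _ (hπ y)
          rw [hzero]
          refine ⟨by omega, rfl, fun m _ x => ?_, fun _ _ => rfl⟩
          simp [dm]
      · have hqd' := hqd
        rw [h2] at hqd'
        obtain ⟨V₁, hd, hz⟩ := cubic_drop q hqd' α hb
        refine ⟨V₁, ?_, fun π hπ => ?_⟩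
        · rw [h2]; simp only [cost]; omega
        · rw [h2]
          refine ⟨by omega, by show q (π 0) = 0; rw [map_zero]; exact hq0, fun m hm x => ?_, fun h => absurd h (by omega)⟩
          have := dm_translate q 0 π m x
          simp only [zero_add] at this
          rw [this]
          apply hz
          · rw [Multiset.card_map]; exact hm
          · intro v hv
            obtain ⟨w, _, rfl⟩ := Multiset.mem_map.1 hv
            exact hπ w
    obtain ⟨π, hπV, hπ⟩ := exists_proj V₁
    -- the new data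
    set p' : Fin k → (Fin n → ZMod 2) → ZMod 2 := Function.update (fun i y => p i (π y)) j (fun y => q (π y)) with hp'
    set lev' : Fin k → ℕ := Function.update lev j (lev j - 1) with hlev'
    have hok : ∀ i, LevOK (lev' i) (p' i) := by
      intro i
      by_cases hij : i = j
      · subst hij
        rw [hp', hlev', Function.update_self, Function.update_self]
        exact hdrop π hπV
      · rw [hp', hlev', Function.update_of_ne hij, Function.update_of_ne hij]
        exact (hlev i).comp π
    have hs' : spar (fun x => sg (F (π x))) ≤ 2 ^ Λ := by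
      have := spar_comp_le (fun x => sg (F x)) 0 π
      simp only [zero_add] at this
      exact this.trans hs
    have hcert' : ∀ y, (∀ i, p' i y = 0) → F (π y) = 0 := by
      intro y hy
      apply hcert
      have hother : ∀ i, i ≠ j → p i (π y) = 0 := by
        intro i hij
        have := hy i
        rw [hp', Function.update_of_ne hij] at this
        exact this
      have hjj : q (π y) = 0 := by
        have := hy j
        rw [hp', Function.update_self] at this
        exact this
      intro i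
      by_cases hij : i = j
      · subst hij
        have h3 : q (π y) = c i * p i (π y) := by
          rw [hq]
          exact Finset.sum_eq_single i (fun l _ hl => by rw [hother l hl, mul_zero]) (fun h => absurd (Finset.mem_univ _) h)
        rw [h3, zmod2_ne_zero hcj, one_mul] at hjj
        exact hjj
      · exact hother i hij
    have hsum : ∀ g : ℕ → ℕ, ∑ i, g (lev' i) + g (lev j) = ∑ i, g (lev i) + g (lev j - 1) := by
      intro g
      have e1 : ∑ i, g (lev' i) = g (lev j - 1) + ∑ i ∈ Finset.univ.erase j, g (lev i) := by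
        rw [← Finset.add_sum_erase Finset.univ (fun i => g (lev' i)) (Finset.mem_univ j)]
        congr 1
        · rw [hlev', Function.update_self]
        · refine Finset.sum_congr rfl fun i hi => ?_
          rw [hlev', Function.update_of_ne (Finset.ne_of_mem_erase hi)]
      have e2 : ∑ i, g (lev i) = g (lev j) + ∑ i ∈ Finset.univ.erase j, g (lev i) :=
        (Finset.add_sum_erase Finset.univ (fun i => g (lev i)) (Finset.mem_univ j)).symm
      rw [e1, e2]; ring
    have hN' : ∑ i, lev' i < N := by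
      have := hsum id
      simp only [id] at this
      omega
    obtain ⟨V₂, hV₂, hV₂z⟩ := ih _ hN' (fun y => F (π y)) p' lev' hs' hok rfl hcert'
    refine ⟨V₂ ⊓ V₁, ?_, ?_⟩
    · have h5 := hsum (cost (k + Λ + 1))
      have h6 := Submodule.finrank_sup_add_finrank_inf_eq V₂ V₁
      have h7 : finrank (ZMod 2) (V₂ ⊔ V₁ : Submodule (ZMod 2) (Fin n → ZMod 2)) ≤ n := by
        have := Submodule.finrank_le (V₂ ⊔ V₁)
        simpa using this
      omega
    · intro v hv
      have : F (π v) = 0 := hV₂z v (Submodule.mem_inf.1 hv).1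
      rwa [hπ v (Submodule.mem_inf.1 hv).2] at this

/-- Cubic certificates give parity certificates. -/
theorem cert_main {n k Λ : ℕ} (F : (Fin n → ZMod 2) → ZMod 2) (hs : spar (fun x => sg (F x)) ≤ 2 ^ Λ)
    (x₀ : Fin n → ZMod 2) (p : Fin k → (Fin n → ZMod 2) → ZMod 2)
    (hp : ∀ i, ∀ m : Multiset (Fin n → ZMod 2), m.card = 4 → ∀ x, dm m (p i) x = 0)
    (hcert : ∀ y, (∀ i, p i y = p i x₀) → F y = F x₀) :
    ∃ V : Submodule (ZMod 2) (Fin n → ZMod 2),
      n ≤ finrank (ZMod 2) V + 11 * k * (2 * (k + Λ) + 3) ∧ ∀ v ∈ V, F (x₀ + v) = F x₀ := by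
  have hshift : ∀ (g : (Fin n → ZMod 2) → ZMod 2) (d : ZMod 2) (m : Multiset (Fin n → ZMod 2)), m.card ≠ 0 →
      ∀ x, dm m (fun y => g (x₀ + y) + d) x = dm m g (x₀ + x) := by
    intro g d m
    induction m using Multiset.induction_on with
    | empty => intro h; exact absurd rfl h
    | cons a m ih =>
      intro _ x
      by_cases h0 : m = 0
      · subst h0
        rw [dm_cons, dm_cons, dm_zero, dm_zero, dm_zero, dm_zero, ← add_assoc x₀ x a]
        have := zmod2_add_self d
        linear_combination this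
      · have hc : m.card ≠ 0 := fun h => h0 (Multiset.card_eq_zero.1 h)
        rw [dm_cons, dm_cons, ih hc, ih hc, add_assoc]
  have hs' : spar (fun x => sg (F (x₀ + x) + F x₀)) ≤ 2 ^ Λ := by
    have h1 : spar (fun x => sg (F (x₀ + x) + F x₀)) = spar (fun x => sg (F (x₀ + x))) := by
      unfold spar
      congr 1
      ext α
      simp only [Finset.mem_filter, Finset.mem_univ, true_and]
      have : W (fun x => sg (F (x₀ + x) + F x₀)) α = sg (F x₀) * W (fun x => sg (F (x₀ + x))) α := by
        unfold W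
        rw [Finset.mul_sum]
        refine Finset.sum_congr rfl fun x _ => ?_
        show sg (F (x₀ + x) + F x₀) * sg (α ⬝ᵥ x) = sg (F x₀) * (sg (F (x₀ + x)) * sg (α ⬝ᵥ x))
        rw [sg_add]; ring
      rw [this]
      have hne : sg (F x₀) ≠ 0 := by generalize F x₀ = a; revert a; decide
      constructor
      · intro h h'; exact h (by rw [h', mul_zero])
      · intro h; exact mul_ne_zero hne h
    rw [h1]
    have := spar_comp_le (fun x => sg (F x)) x₀ LinearMap.id
    simp only [LinearMap.id_apply] at this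
    exact this.trans hs
  obtain ⟨V, hV, hz⟩ := cert_ind (Λ := Λ) _ (fun y => F (x₀ + y) + F x₀) (fun i y => p i (x₀ + y) + p i x₀)
    (fun _ => 2) hs'
    (fun i => ⟨le_refl 2, by simp [zmod2_add_self], fun m hm x => by
      rw [hshift (p i) (p i x₀) m (by omega) x]; exact hp i m hm _, fun h => absurd h (by omega)⟩) rfl
    (fun y hy => by
      have : F (x₀ + y) = F x₀ := by
        apply hcert
        intro i
        have h := hy i
        have h2 : p i (x₀ + y) = - p i x₀ := eq_neg_of_add_eq_zero_left h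
        rw [h2]; exact ZMod.neg_eq_self_mod_two _
      rw [this]; exact zmod2_add_self _)
  refine ⟨V, ?_, ?_⟩
  · have h1 : ∑ _i : Fin k, cost (k + Λ + 1) 2 = 11 * k * (2 * (k + Λ) + 3) := by
      rw [Finset.sum_const, Finset.card_univ, Fintype.card_fin, smul_eq_mul]
      simp only [cost]; ring
    rw [h1] at hV
    exact hV
  · intro v hv
    have h := hz v hv
    have h2 : F (x₀ + v) = - F x₀ := eq_neg_of_add_eq_zero_left h
    rw [h2]; exact ZMod.neg_eq_self_mod_two _

end Pool.Agent.XLR
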