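import Pool.Agent.Work.MP_218513_lc.RankIneq

/-! MP_218513_lc, module CubIso: a trilinear form over `F_2` all of whose slices have rank at most `r` vanishes on a
subspace of codimension at most `2 r`.

PROOF. Strong induction on `r`, for all spaces. Let `b₁` be such that `r₁ = rank (T b₁)` is maximal, `r₁ ≤ r`. If `r₁ = 0`
then `T = 0`, take `K = ⊤`. Otherwise put `K₁ = ker (T b₁)`, a space of dimension `dim X - r₁`. For `a : X` apply
`rank_ineq` to `M = T b₁`, `N = T a : X → Dual X` (`N + M = T (a + b₁)`): the compression `mkQ ∘ N ∘ subtype : K₁ → Dual X ⧸ range M`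
has rank `≤ (r₁ + r₁ - r₁) / 2 = r₁ / 2`. Because `M` is symmetric, every element of `range M` vanishes on `K₁`, so the restriction
`Dual X → Dual K₁` factors through `Dual X ⧸ range M`; hence the bilinear form `T a` restricted to `K₁ × K₁` has rank
`≤ r₁ / 2 < r`. By induction applied to `K₁` and `T` restricted to `K₁` there is `K ≤ K₁` with
`dim K₁ ≤ dim K + 2 (r₁ / 2)`, so `dim X = dim K₁ + r₁ ≤ dim K + 2 r₁ ≤ dim K + 2 r`. -/

set_option autoImplicit false

namespace Pool.Agent.XLR

open Module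

theorem iso_subspace (r : ℕ) : ∀ (X : Type) [AddCommGroup X] [Module (ZMod 2) X] [FiniteDimensional (ZMod 2) X]
    (T : X →ₗ[ZMod 2] X →ₗ[ZMod 2] X →ₗ[ZMod 2] ZMod 2),
    (∀ a b c, T a b c = T a c b) →
    (∀ a, finrank (ZMod 2) (LinearMap.range (T a)) ≤ r) →
    ∃ K : Submodule (ZMod 2) X, finrank (ZMod 2) X ≤ finrank (ZMod 2) K + 2 * r ∧
      ∀ a ∈ K, ∀ b ∈ K, ∀ c ∈ K, T a b c = 0 := by
  induction r using Nat.strong_induction_on with
  | _ r ih =>
  intro X _ _ _ T hsymm hr
  -- a slice of maximal rank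
  obtain ⟨b₁, hb₁⟩ : ∃ b₁ : X, ∀ a, finrank (ZMod 2) (LinearMap.range (T a)) ≤
      finrank (ZMod 2) (LinearMap.range (T b₁)) := by
    have hbdd : BddAbove (Set.range fun a : X => finrank (ZMod 2) (LinearMap.range (T a))) :=
      ⟨r, by rintro _ ⟨a, rfl⟩; exact hr a⟩
    obtain ⟨b₁, hb₁⟩ := Nat.sSup_mem (Set.range_nonempty _) hbdd
    exact ⟨b₁, fun a => by
      change (fun a : X => finrank (ZMod 2) (LinearMap.range (T a))) b₁ = _ at hb₁
      simp only at hb₁
      rw [hb₁]
      exact le_csSup hbdd ⟨a, rfl⟩⟩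
  set M : X →ₗ[ZMod 2] X →ₗ[ZMod 2] ZMod 2 := T b₁ with hM
  set r₁ := finrank (ZMod 2) (LinearMap.range M) with hr₁
  have hr₁r : r₁ ≤ r := hr b₁
  rcases Nat.eq_zero_or_pos r₁ with h0 | hpos
  · refine ⟨⊤, by simp, ?_⟩
    intro a _ b _ c _
    have h1 : finrank (ZMod 2) (LinearMap.range (T a)) = 0 := by
      have := hb₁ a
      omega
    rw [Submodule.finrank_eq_zero, LinearMap.range_eq_bot] at h1
    rw [h1]
    rfl
  · set K₁ : Submodule (ZMod 2) X := LinearMap.ker M with hK₁
    let T' : K₁ →ₗ[ZMod 2] K₁ →ₗ[ZMod 2] K₁ →ₗ[ZMod 2] ZMod 2 :=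
      LinearMap.mk₂ (ZMod 2) (fun a b => (T a b).domRestrict K₁)
        (fun a a' b => by ext c; simp) (fun t a b => by ext c; simp)
        (fun a b b' => by ext c; simp) (fun t a b => by ext c; simp)
    have hT' : ∀ a b c : K₁, T' a b c = T a b c := fun a b c => rfl
    have hrank : ∀ a : K₁, finrank (ZMod 2) (LinearMap.range (T' a)) ≤ r₁ / 2 := by
      intro a
      have h1 : r₁ + 2 * finrank (ZMod 2)
          (LinearMap.range ((LinearMap.range M).mkQ ∘ₗ T a ∘ₗ K₁.subtype)) ≤
          finrank (ZMod 2) (LinearMap.range (T a)) + finrank (ZMod 2)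
            (LinearMap.range (T a + M)) := rank_ineq M (T a)
      have h2 : T a + M = T (a + b₁) := by rw [map_add]
      rw [h2] at h1
      have h3 := hb₁ a
      have h4 := hb₁ (a + b₁)
      let res : (X →ₗ[ZMod 2] ZMod 2) →ₗ[ZMod 2] (K₁ →ₗ[ZMod 2] ZMod 2) :=
        { toFun := fun f => f.domRestrict K₁
          map_add' := fun f g => by ext c; simp
          map_smul' := fun t f => by ext c; simp }
      have hker : LinearMap.range M ≤ LinearMap.ker res := by
        rintro _ ⟨x, rfl⟩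
        rw [LinearMap.mem_ker]
        ext c
        change T b₁ x c = 0
        rw [hsymm]
        have hc : M c = 0 := c.2
        change M c x = 0
        rw [hc]
        rfl
      let φ := (LinearMap.range M).liftQ res hker
      have h5 : T' a = φ ∘ₗ ((LinearMap.range M).mkQ ∘ₗ T a ∘ₗ K₁.subtype) := by
        ext b c
        rfl
      have h6 : finrank (ZMod 2) (LinearMap.range (T' a)) ≤ finrank (ZMod 2)
          (LinearMap.range ((LinearMap.range M).mkQ ∘ₗ T a ∘ₗ K₁.subtype)) := by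
        rw [h5, LinearMap.range_comp]
        exact Submodule.finrank_map_le _ _
      omega
    obtain ⟨K', hK', hK'0⟩ := ih (r₁ / 2) (by omega) K₁ T'
      (fun a b c => by rw [hT', hT', hsymm]) hrank
    refine ⟨K'.map K₁.subtype, ?_, ?_⟩
    · have h1 : finrank (ZMod 2) (K'.map K₁.subtype) = finrank (ZMod 2) K' :=
        LinearEquiv.finrank_eq (Submodule.equivMapOfInjective _ K₁.injective_subtype K').symm
      have h2 : r₁ + finrank (ZMod 2) K₁ = finrank (ZMod 2) X :=
        M.finrank_range_add_finrank_ker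
      rw [h1]
      omega
    · rintro _ ⟨a, ha, rfl⟩ _ ⟨b, hb, rfl⟩ _ ⟨c, hc, rfl⟩
      exact hK'0 a ha b hb c hc

end Pool.Agent.XLR
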