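import Mathlib

/-! MP_218513_lc: definitions for the low degree theorem (iterated derivatives, symmetric
multilinear forms as functions of multisets, Walsh sparsity over `ZMod 2`, parity trees). -/

set_option autoImplicit false

namespace Pool.Agent.XLR

open Module

/-- Iterated derivative (in characteristic two) of `G` along the multiset `m` of directions:
the sum of `G (x + sum of J)` over all sub-multisets `J` of `m`. -/
def dm {V A : Type*} [AddCommMonoid V] [AddCommMonoid A] (m : Multiset V) (G : V → A) (x : V) : A :=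
  (m.powerset.map (fun J => G (x + J.sum))).sum

/-- A function of multisets which, on multisets of size `d`, is linear in each argument:
a symmetric `d`-linear form. -/
structure IsForm (K : Type*) {V : Type*} [Field K] [AddCommGroup V] [Module K V] (d : ℕ)
    (T : Multiset V → K) : Prop where
  add : ∀ (m : Multiset V) (v w : V), m.card + 1 = d → T ((v + w) ::ₘ m) = T (v ::ₘ m) + T (w ::ₘ m)
  smul : ∀ (m : Multiset V) (c : K) (v : V), m.card + 1 = d → T ((c • v) ::ₘ m) = c * T (v ::ₘ m)

open Classical in
/-- The bilinear slice `(v, w) ↦ T (v, w, b)` of a form of order `b.card + 2` (junk `0` otherwise). -/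
noncomputable def bil (K : Type*) {V : Type*} [Field K] [AddCommGroup V] [Module K V]
    (T : Multiset V → K) (b : Multiset V) : V →ₗ[K] (V →ₗ[K] K) :=
  if h : ∃ B : V →ₗ[K] (V →ₗ[K] K), ∀ v w : V, B v w = T (v ::ₘ w ::ₘ b) then h.choose else 0

theorem bil_apply {K V : Type*} [Field K] [AddCommGroup V] [Module K V]
    {T : Multiset V → K} {b : Multiset V} (hT : IsForm K (b.card + 2) T) (v w : V) :
    bil K T b v w = T (v ::ₘ w ::ₘ b) := by
  have h : ∃ B : V →ₗ[K] (V →ₗ[K] K), ∀ v w : V, B v w = T (v ::ₘ w ::ₘ b) := by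
    refine ⟨LinearMap.mk₂ K (fun v w => T (v ::ₘ w ::ₘ b)) ?_ ?_ ?_ ?_, fun v w => rfl⟩
    · intro v v' w
      exact hT.add (w ::ₘ b) v v' (by simp)
    · intro c v w
      exact hT.smul (w ::ₘ b) c v (by simp)
    · intro v w w'
      have := hT.add (v ::ₘ b) w w' (by simp)
      rw [Multiset.cons_swap (w + w') v b, Multiset.cons_swap w v b, Multiset.cons_swap w' v b] at this
      exact this
    · intro c v w
      have := hT.smul (v ::ₘ b) c w (by simp)
      rw [Multiset.cons_swap (c • w) v b, Multiset.cons_swap w v b] at this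
      exact this
  unfold bil
  rw [dif_pos h]
  exact h.choose_spec v w

theorem bil_symm {K V : Type*} [Field K] [AddCommGroup V] [Module K V]
    {T : Multiset V → K} {b : Multiset V} (hT : IsForm K (b.card + 2) T) (v w : V) :
    bil K T b v w = bil K T b w v := by
  rw [bil_apply hT, bil_apply hT, Multiset.cons_swap]

/-- If we fix one argument of a form we get a form of order one less. -/
theorem IsForm.cons {K V : Type*} [Field K] [AddCommGroup V] [Module K V] {d : ℕ}
    {T : Multiset V → K} (hT : IsForm K (d + 1) T) (a : V) :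
    IsForm K d (fun m => T (a ::ₘ m)) := by
  constructor
  · intro m v w hm
    have := hT.add (a ::ₘ m) v w (by simp [hm])
    rw [Multiset.cons_swap (v + w) a m, Multiset.cons_swap v a m, Multiset.cons_swap w a m] at this
    exact this
  · intro m c v hm
    have := hT.smul (a ::ₘ m) c v (by simp [hm])
    rw [Multiset.cons_swap (c • v) a m, Multiset.cons_swap v a m] at this
    exact this

/-- The sign `(-1)^a` of an element of `ZMod 2`. -/
def sg (a : ZMod 2) : ℤ := if a = 0 then 1 else -1

/-- Unnormalised Walsh coefficient. -/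
def W {n : ℕ} (h : (Fin n → ZMod 2) → ℤ) (α : Fin n → ZMod 2) : ℤ := ∑ x, h x * sg (α ⬝ᵥ x)

/-- Number of nonzero Walsh coefficients. -/
def spar {n : ℕ} (h : (Fin n → ZMod 2) → ℤ) : ℕ := (Finset.univ.filter (fun α => W h α ≠ 0)).card

/-- The embedding of `F_2^n` in `K^n`. -/
def emb (K : Type*) [Field K] [Algebra (ZMod 2) K] {n : ℕ} (v : Fin n → ZMod 2) : Fin n → K :=
  fun i => algebraMap (ZMod 2) K (v i)

/-- Polynomial functions `K^n → K` all of whose monomials are squarefree of degree at most `k`. -/
def IsPoly {K : Type*} [Field K] {n : ℕ} (k : ℕ) (G : (Fin n → K) → K) : Prop :=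
  ∃ c : Finset (Fin n) → K, (∀ S, k < S.card → c S = 0) ∧ ∀ x, G x = ∑ S, c S * ∏ i ∈ S, x i

/-- `PT k f`: the function `f` is computed by a parity decision tree of height `k`. -/
inductive PT {n : ℕ} : ℕ → ((Fin n → ZMod 2) → ZMod 2) → Prop
  | leaf (c : ZMod 2) : PT 0 (fun _ => c)
  | node (k : ℕ) (α : Fin n → ZMod 2) (g₀ g₁ : (Fin n → ZMod 2) → ZMod 2) (h₀ : PT k g₀) (h₁ : PT k g₁) :
      PT (k + 1) (fun x => if α ⬝ᵥ x = 1 then g₁ x else g₀ x)

theorem sg_add (a b : ZMod 2) : sg (a + b) = sg a * sg b := by
  revert a b; decide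

theorem sg_mul_self (a : ZMod 2) : sg a * sg a = 1 := by
  revert a; decide

theorem dm_zero {V A : Type*} [AddCommMonoid V] [AddCommMonoid A] (G : V → A) (x : V) :
    dm 0 G x = G x := by simp [dm]

theorem dm_cons {V A : Type*} [AddCommMonoid V] [AddCommMonoid A] (a : V) (m : Multiset V) (G : V → A) (x : V) :
    dm (a ::ₘ m) G x = dm m G x + dm m G (x + a) := by
  simp [dm, Multiset.powerset_cons, add_assoc]

/-- A derivative can also be taken first. -/
theorem dm_cons' {V A : Type*} [AddCommMonoid V] [AddCommMonoid A] (a : V) (m : Multiset V) (G : V → A) (x : V) :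
    dm (a ::ₘ m) G x = dm m (fun y => G y + G (y + a)) x := by
  simp only [dm, Multiset.powerset_cons, Multiset.map_add, Multiset.map_map, Multiset.sum_add,
    Multiset.sum_map_add, Function.comp_apply, Multiset.sum_cons]
  congr 2
  refine Multiset.map_congr rfl (fun J _ => ?_)
  congr 1
  abel

theorem dm_add {V A : Type*} [AddCommMonoid V] [AddCommMonoid A] (a m : Multiset V) (G : V → A) (x : V) :
    dm (a + m) G x = dm a (dm m G) x := by
  induction a using Multiset.induction_on generalizing x with
  | empty => simp [dm_zero]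
  | cons v a ih => rw [Multiset.cons_add, dm_cons, dm_cons, ih, ih]

end Pool.Agent.XLR
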