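import Pool.Agent.Work.MP_218513_lc.Tree

/-! MP_218513_lc: a Boolean function on `F_2^n` whose support is a disjoint union of affine subspaces
of codimension at most `k` is computed by a parity decision tree of height at most `k (k + 1) / 2`. -/

set_option autoImplicit false

namespace Pool.Agent.XLR

open Module

/-- On `S`, the function `F` is computed by a parity decision tree of height `t`. -/
def TreeOn {n : ℕ} (F : (Fin n → ZMod 2) → ZMod 2) (t : ℕ) (S : Set (Fin n → ZMod 2)) : Prop :=
  ∃ g, PT t g ∧ ∀ x ∈ S, g x = F x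

theorem TreeOn.mono {n : ℕ} {F : (Fin n → ZMod 2) → ZMod 2} {t u : ℕ} {S : Set (Fin n → ZMod 2)}
    (h : TreeOn F t S) (htu : t ≤ u) : TreeOn F u S := by
  obtain ⟨g, hg, hS⟩ := h
  exact ⟨g, hg.mono htu, hS⟩

theorem TreeOn.const {n : ℕ} {F : (Fin n → ZMod 2) → ZMod 2} (c : ZMod 2) {S : Set (Fin n → ZMod 2)}
    (h : ∀ x ∈ S, F x = c) (t : ℕ) : TreeOn F t S :=
  TreeOn.mono ⟨fun _ => c, PT.leaf c, fun x hx => (h x hx).symm⟩ (Nat.zero_le t)

theorem TreeOn.split {n : ℕ} {F : (Fin n → ZMod 2) → ZMod 2} {t : ℕ} {S : Set (Fin n → ZMod 2)}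
    (α : Fin n → ZMod 2) (h0 : TreeOn F t {x | x ∈ S ∧ α ⬝ᵥ x = 0})
    (h1 : TreeOn F t {x | x ∈ S ∧ α ⬝ᵥ x = 1}) : TreeOn F (t + 1) S := by
  obtain ⟨g0, hg0, e0⟩ := h0
  obtain ⟨g1, hg1, e1⟩ := h1
  refine ⟨_, PT.node t α g0 g1 hg0 hg1, fun x hx => ?_⟩
  have hz : α ⬝ᵥ x = 0 ∨ α ⬝ᵥ x = 1 := by
    generalize α ⬝ᵥ x = a
    revert a; decide
  rcases hz with h | h
  · show (if α ⬝ᵥ x = 1 then g1 x else g0 x) = F x
    rw [if_neg (by rw [h]; decide)]
    exact e0 x ⟨hx, h⟩
  · show (if α ⬝ᵥ x = 1 then g1 x else g0 x) = F x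
    rw [if_pos h]
    exact e1 x ⟨hx, h⟩

private theorem ft_dot {n : ℕ} (f : (Fin n → ZMod 2) →ₗ[ZMod 2] ZMod 2) (v : Fin n → ZMod 2) :
    (fun j => f (Pi.single j 1)) ⬝ᵥ v = f v := by
  conv_rhs => rw [← Finset.univ_sum_single v]
  rw [map_sum]
  unfold dotProduct
  refine Finset.sum_congr rfl fun j _ => ?_
  have h : (Pi.single j (v j) : Fin n → ZMod 2) = v j • Pi.single j 1 := by
    rw [← Pi.single_smul, smul_eq_mul, mul_one]
  rw [h, map_smul, smul_eq_mul, mul_comm]

/-- Query the parities which separate the cosets of `U'` inside a coset of `U`. -/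
theorem TreeOn.refine {n t : ℕ} (F : (Fin n → ZMod 2) → ZMod 2) (U' : Submodule (ZMod 2) (Fin n → ZMod 2)) :
    ∀ (r : ℕ) (U : Submodule (ZMod 2) (Fin n → ZMod 2)), U' ≤ U →
      finrank (ZMod 2) U ≤ finrank (ZMod 2) U' + r → ∀ x0 : Fin n → ZMod 2,
      (∀ x, x - x0 ∈ U → TreeOn F t {y | y - x ∈ U'}) → TreeOn F (r + t) {y | y - x0 ∈ U} := by
  intro r
  induction r with
  | zero =>
    intro U hle hd x0 h
    have e : U' = U := Submodule.eq_of_le_of_finrank_le hle (by simpa using hd)
    have := h x0 (by rw [sub_self]; exact U.zero_mem)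
    rw [e] at this
    rw [Nat.zero_add]
    exact this
  | succ r ih =>
    intro U hle hd x0 h
    have er : r + 1 + t = (r + t) + 1 := by omega
    rw [er]
    by_cases heq : U' = U
    · have := h x0 (by rw [sub_self]; exact U.zero_mem)
      rw [heq] at this
      exact this.mono (by omega)
    · have hlt : U' < U := lt_of_le_of_ne hle heq
      obtain ⟨u, huU, huU'⟩ := SetLike.exists_of_lt hlt
      obtain ⟨f, hfu, hf⟩ := Submodule.exists_dual_map_eq_bot_of_notMem huU' inferInstance
      have hfU' : ∀ v ∈ U', f v = 0 := by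
        intro v hv
        have h1 : f v ∈ U'.map f := Submodule.mem_map_of_mem hv
        rw [hf] at h1
        simpa using h1
      set U1 : Submodule (ZMod 2) (Fin n → ZMod 2) := U ⊓ LinearMap.ker f with hU1
      have hU1lt : U1 < U := by
        refine lt_of_le_of_ne inf_le_left ?_
        intro he
        have : u ∈ U1 := by rw [he]; exact huU
        exact hfu (LinearMap.mem_ker.1 (Submodule.mem_inf.1 this).2)
      have hU'1 : U' ≤ U1 := le_inf hle (fun v hv => LinearMap.mem_ker.2 (hfU' v hv))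
      have hd1 : finrank (ZMod 2) U1 ≤ finrank (ZMod 2) U' + r := by
        have := Submodule.finrank_lt_finrank_of_lt hU1lt
        omega
      have key : ∀ c : ZMod 2, TreeOn F (r + t)
          {x | x ∈ {y | y - x0 ∈ U} ∧ (fun j => f (Pi.single j 1)) ⬝ᵥ x = c} := by
        intro c
        by_cases hne : ∃ x1, x1 - x0 ∈ U ∧ f x1 = c
        · obtain ⟨x1, hx1, hc⟩ := hne
          have h2 : TreeOn F (r + t) {y | y - x1 ∈ U1} := by
            refine ih U1 hU'1 hd1 x1 (fun x hx => h x ?_)
            have h3 : x - x1 ∈ U := (Submodule.mem_inf.1 hx).1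
            have : x - x0 = (x - x1) + (x1 - x0) := by abel
            rw [this]
            exact U.add_mem h3 hx1
          obtain ⟨g, hg, hgS⟩ := h2
          refine ⟨g, hg, fun x hx => hgS x ?_⟩
          obtain ⟨hxU, hxc⟩ := hx
          rw [ft_dot] at hxc
          show x - x1 ∈ U1
          refine Submodule.mem_inf.2 ⟨?_, LinearMap.mem_ker.2 ?_⟩
          · have h3 : x - x0 ∈ U := hxU
            have : x - x1 = (x - x0) - (x1 - x0) := by abel
            rw [this]
            exact U.sub_mem h3 hx1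
          · rw [map_sub, hxc, hc, sub_self]
        · refine TreeOn.const 0 (fun x hx => ?_) _
          exfalso
          obtain ⟨hxU, hxc⟩ := hx
          rw [ft_dot] at hxc
          exact hne ⟨x, hxU, hxc⟩
      exact TreeOn.split _ (key 0) (key 1)

theorem tree_flats {n : ℕ} {ι : Type*} (F : (Fin n → ZMod 2) → ZMod 2)
    (D : ι → Submodule (ZMod 2) (Fin n → ZMod 2)) (y : ι → Fin n → ZMod 2)
    (hF1 : ∀ i x, x - y i ∈ D i → F x = 1) (hF0 : ∀ x, (∀ i, x - y i ∉ D i) → F x = 0)
    (hdis : ∀ i j, i ≠ j → ∀ x, ¬ (x - y i ∈ D i ∧ x - y j ∈ D j)) :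
    ∀ (r : ℕ) (U : Submodule (ZMod 2) (Fin n → ZMod 2)) (x0 : Fin n → ZMod 2),
      (∀ i, (∃ x, x - x0 ∈ U ∧ x - y i ∈ D i) →
        finrank (ZMod 2) U ≤ finrank (ZMod 2) (U ⊓ D i : Submodule (ZMod 2) (Fin n → ZMod 2)) + r) →
      TreeOn F (r * (r + 1) / 2) {x | x - x0 ∈ U} := by
  intro r
  induction r with
  | zero =>
    intro U x0 h
    by_cases hne : ∃ i, ∃ x, x - x0 ∈ U ∧ x - y i ∈ D i
    · obtain ⟨i, x, hx, hxi⟩ := hne
      have h1 := h i ⟨x, hx, hxi⟩
      have e : U ⊓ D i = U := Submodule.eq_of_le_of_finrank_le inf_le_left (by simpa using h1)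
      refine TreeOn.const 1 (fun z hz => hF1 i z ?_) _
      have h2 : z - x ∈ U := by
        have : z - x = (z - x0) - (x - x0) := by abel
        rw [this]
        exact U.sub_mem hz hx
      rw [← e] at h2
      have : z - y i = (z - x) + (x - y i) := by abel
      rw [this]
      exact (D i).add_mem (Submodule.mem_inf.1 h2).2 hxi
    · refine TreeOn.const 0 (fun z hz => hF0 z (fun i hi => hne ⟨i, z, hz, hi⟩)) _
  | succ r ih =>
    intro U x0 h
    by_cases hne : ∃ i, ∃ x, x - x0 ∈ U ∧ x - y i ∈ D i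
    · obtain ⟨i, x, hx, hxi⟩ := hne
      have h1 := h i ⟨x, hx, hxi⟩
      have e : (r + 1) * (r + 1 + 1) / 2 = (r + 1) + r * (r + 1) / 2 := by
        have : (r + 1) * (r + 1 + 1) = r * (r + 1) + 2 * (r + 1) := by ring
        omega
      rw [e]
      refine TreeOn.refine F (U ⊓ D i) (r + 1) U inf_le_left h1 x0 (fun z hz => ?_)
      by_cases hzi : ∃ w, w - z ∈ U ⊓ D i ∧ w - y i ∈ D i
      · obtain ⟨w, hw, hwi⟩ := hzi
        refine TreeOn.const 1 (fun v hv => hF1 i v ?_) _
        have hv' : v - z ∈ D i := (Submodule.mem_inf.1 hv).2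
        have : v - y i = (v - z) - (w - z) + (w - y i) := by abel
        rw [this]
        exact (D i).add_mem ((D i).sub_mem hv' (Submodule.mem_inf.1 hw).2) hwi
      · refine ih (U ⊓ D i) z (fun j hj => ?_)
        obtain ⟨w, hw, hwj⟩ := hj
        have hij : i ≠ j := by
          rintro rfl
          exact hzi ⟨w, hw, hwj⟩
        have hwU : w - x0 ∈ U := by
          have : w - x0 = (w - z) + (z - x0) := by abel
          rw [this]
          exact U.add_mem (Submodule.mem_inf.1 hw).1 hz
        have h2 := h j ⟨w, hwU, hwj⟩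
        -- strictness
        have hlt : (U ⊓ D i) ⊔ (U ⊓ D j) < U := by
          refine lt_of_le_of_ne (sup_le inf_le_left inf_le_left) ?_
          intro he
          have h3 : w - x ∈ (U ⊓ D i) ⊔ (U ⊓ D j) := by
            rw [he]
            have : w - x = (w - x0) - (x - x0) := by abel
            rw [this]
            exact U.sub_mem hwU hx
          obtain ⟨a, ha, b, hb, hab⟩ := Submodule.mem_sup.1 h3
          -- the point `x + a = w - b`
          refine hdis i j hij (x + a) ⟨?_, ?_⟩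
          · have : x + a - y i = a + (x - y i) := by abel
            rw [this]
            exact (D i).add_mem (Submodule.mem_inf.1 ha).2 hxi
          · have h4 : x + a = w - b := by
              rw [eq_sub_iff_add_eq, add_assoc, hab]
              abel
            have : x + a - y j = (w - y j) - b := by rw [h4]; abel
            rw [this]
            exact (D j).sub_mem hwj (Submodule.mem_inf.1 hb).2
        have h5 := Submodule.finrank_lt_finrank_of_lt hlt
        have h6 := Submodule.finrank_sup_add_finrank_inf_eq (U ⊓ D i) (U ⊓ D j)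
        have h7 : (U ⊓ D i) ⊓ (U ⊓ D j) ≤ (U ⊓ D i) ⊓ D j := inf_le_inf_left _ inf_le_right
        have h8 := Submodule.finrank_mono h7
        omega
    · refine TreeOn.const 0 (fun z hz => hF0 z (fun i hi => hne ⟨i, z, hz, hi⟩)) _

end Pool.Agent.XLR
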