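import Pool.Agent.Work.MP_79d924_lc.FS.Main
import Pool.Agent.Work.MP_218513_lc.FlatTree
import Pool.Agent.Work.MP_218513_lc.CertFinal

/-! MP_218513_lc: parity decision trees of Boolean functions with flat spectrum and small density. -/

set_option autoImplicit false

namespace Pool.Agent.XLR

open Module

private theorem fm_flat {n k : ℕ} (A : Fin k → Fin n → ZMod 2) (b : Fin k → ZMod 2)
    (hA : LinearIndependent (ZMod 2) A) :
    ∃ (D : Submodule (ZMod 2) (Fin n → ZMod 2)) (y : Fin n → ZMod 2),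
      n ≤ finrank (ZMod 2) D + k ∧ ∀ x : Fin n → ZMod 2, (∀ j, ∑ l, A j l * x l = b j) ↔ x - y ∈ D := by
  have hrank : (Matrix.of A).rank = k := by
    have h3 := LinearIndependent.rank_matrix (M := Matrix.of A) hA
    rw [h3, Fintype.card_fin]
  have hsurj : Function.Surjective (Matrix.of A).mulVecLin := by
    rw [← LinearMap.range_eq_top]
    apply Submodule.eq_top_of_finrank_eq
    rw [← Matrix.rank, hrank]
    simp
  obtain ⟨y, hy⟩ := hsurj b
  have hval : ∀ (x : Fin n → ZMod 2) j, (Matrix.of A).mulVecLin x j = ∑ l, A j l * x l := by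
    intro x j
    simp [Matrix.mulVec, dotProduct]
  refine ⟨LinearMap.ker (Matrix.of A).mulVecLin, y, ?_, fun x => ?_⟩
  · have h1 := LinearMap.finrank_range_add_finrank_ker (Matrix.of A).mulVecLin
    rw [Module.finrank_fin_fun] at h1
    have h2 : finrank (ZMod 2) (LinearMap.range (Matrix.of A).mulVecLin) ≤ k := by
      have := Submodule.finrank_le (LinearMap.range (Matrix.of A).mulVecLin)
      rwa [Module.finrank_fin_fun] at this
    omega
  · rw [LinearMap.mem_ker, map_sub, hy, sub_eq_zero]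
    constructor
    · intro h
      funext j
      rw [hval, h j]
    · intro h j
      rw [← hval, h]

private theorem fm_sign (a : ZMod 2) : ((sg a : ℤ) : ℝ) = (-1 : ℝ) ^ a.val := by
  have h : a = 0 ∨ a = 1 := by revert a; decide
  rcases h with h | h
  · subst h; simp [sg]
  · subst h
    have : (1 : ZMod 2).val = 1 := rfl
    rw [this]
    simp [sg]

/-- The Walsh coefficients of `f` and those of the real normalisation. -/
private theorem fm_fc {n : ℕ} (f : (Fin n → Bool) → Bool) (a : Fin n → ZMod 2) :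
    Pool.Agent.Work.MP_79d924_lc.FS.fc (fun x => f (xb x)) a
      = ((W (fun x => iv (toF f x)) a : ℤ) : ℝ) / 2 ^ n := by
  unfold Pool.Agent.Work.MP_79d924_lc.FS.fc W
  rw [one_div, inv_mul_eq_div]
  congr 1
  push_cast
  refine Finset.sum_congr rfl fun x _ => ?_
  have h1 : ((iv (toF f x) : ℤ) : ℝ) = if f (xb x) then (1 : ℝ) else 0 := by
    show ((iv (toZ (f (xb x))) : ℤ) : ℝ) = _
    cases f (xb x) <;> simp [toZ, iv]
  rw [h1, fm_sign]
  rfl

private theorem fm_iv_sq (a : ZMod 2) : iv a ^ 2 = iv a := by revert a; decide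

/-- The Walsh coefficients in the two normalisations. -/
theorem fm_key {n : ℕ} (f : (Fin n → Bool) → Bool) (α : Fin n → ZMod 2) : W (fun x => iv (toF f x)) α
      = ∑ x : Fin n → Bool, (if f x then (1 : ℤ) else 0) *
        (-1) ^ ((supp α).filter (fun i => x i = true)).card := by
  unfold W
  rw [sum_xz]
  refine Finset.sum_congr rfl fun x _ => ?_
  have hb : ∀ b : Bool, iv (toZ b) = (if b then (1 : ℤ) else 0) := by
    intro b; cases b <;> simp [toZ, iv]
  show iv (toZ (f (xb (xz x)))) * sg (α ⬝ᵥ xz x) = _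
  rw [hb, xb_xz, ← sg_natCast, ← dot_ind, ind_supp]

private theorem fm_sg_cases (a : ZMod 2) : sg a = 1 ∨ sg a = -1 := by revert a; decide

/-- Boolean functions with flat spectrum and small density. -/
theorem flat_tree {n w : ℕ} (f : (Fin n → Bool) → Bool) (hw : 0 < w)
    (hflat : ∀ α : Fin n → ZMod 2, α ≠ 0 → W (fun x => iv (toF f x)) α = 0 ∨
      W (fun x => iv (toF f x)) α = w ∨ W (fun x => iv (toF f x)) α = -w)
    (hF : ∃ x, toF f x = 0) (hF1 : ∃ x, toF f x = 1)
    (hsmall : 2 ^ 24 * (W (fun x => iv (toF f x)) 0) ^ 6 ≤ (w : ℤ) ^ 5 * 2 ^ n) :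
    DTle (Nat.log 2 (sps f) * (Nat.log 2 (sps f) + 1) / 2) f := by
  classical
  set h : (Fin n → ZMod 2) → ℤ := fun x => iv (toF f x) with hh
  -- divisibility of the other Walsh coefficients
  have hdvd : ∀ α : Fin n → ZMod 2, α ≠ 0 → (w : ℤ) ∣ W h α := by
    intro α hα
    rcases hflat α hα with e | e | e
    · rw [e]; exact dvd_zero _
    · rw [e]
    · rw [e]; exact (dvd_refl _).neg_right
  have hinv : ∀ x, (w : ℤ) ∣ 2 ^ n * h x - W h 0 := by
    intro x
    rw [inversion h x, ← Finset.add_sum_erase _ _ (Finset.mem_univ (0 : Fin n → ZMod 2))]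
    have : sg ((0 : Fin n → ZMod 2) ⬝ᵥ x) = 1 := by rw [zero_dotProduct]; decide
    rw [this, mul_one, add_sub_cancel_left]
    refine Finset.dvd_sum fun α hα => ?_
    exact (hdvd α (Finset.ne_of_mem_erase hα)).mul_right _
  obtain ⟨x0, hx0⟩ := hF
  obtain ⟨x1, hx1⟩ := hF1
  have hw0 : (w : ℤ) ∣ W h 0 := by
    have := hinv x0
    have e : h x0 = 0 := by rw [hh]; simp [hx0, iv]
    rw [e, mul_zero, zero_sub] at this
    exact (dvd_neg).1 this
  have hwn : (w : ℤ) ∣ 2 ^ n := by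
    have := hinv x1
    have e : h x1 = 1 := by rw [hh]; simp [hx1, iv]
    rw [e, mul_one] at this
    have h2 := dvd_add this hw0
    rwa [sub_add_cancel] at h2
  have hwn' : w ∣ 2 ^ n := by exact_mod_cast hwn
  obtain ⟨e, hen, hwe⟩ := (Nat.dvd_prime_pow Nat.prime_two).1 hwn'
  obtain ⟨k, hk⟩ := Nat.exists_eq_add_of_le hen
  have h2n : (2 : ℤ) ^ n = w * 2 ^ k := by
    rw [hwe, hk, pow_add]; push_cast; ring
  -- `W h 0` is the number of ones
  have hW0 : W h 0 = ∑ x, h x := by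
    unfold W
    refine Finset.sum_congr rfl fun x _ => ?_
    rw [zero_dotProduct]
    have : sg 0 = 1 := by decide
    rw [this, mul_one]
  have hnn : ∀ x, 0 ≤ h x := by
    intro x
    show 0 ≤ iv (toF f x)
    generalize toF f x = a
    revert a; decide
  have hle1 : ∀ x, h x ≤ 1 := by
    intro x
    show iv (toF f x) ≤ 1
    generalize toF f x = a
    revert a; decide
  have hW0pos : 0 < W h 0 := by
    rw [hW0]
    refine Finset.sum_pos' (fun x _ => hnn x) ⟨x1, Finset.mem_univ _, ?_⟩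
    rw [hh]; simp [hx1, iv]
  have hW0lt : W h 0 < 2 ^ n := by
    rw [hW0]
    have h3 : ∑ x, h x < ∑ _x : Fin n → ZMod 2, (1 : ℤ) := by
      refine Finset.sum_lt_sum (fun x _ => hle1 x) ⟨x0, Finset.mem_univ _, ?_⟩
      rw [hh]; simp [hx0, iv]
    refine lt_of_lt_of_eq h3 ?_
    simp
  obtain ⟨m', hm'⟩ := hw0
  have hwZ : (0 : ℤ) < w := by exact_mod_cast hw
  have hm'pos : 0 < m' := by
    rw [hm'] at hW0pos
    exact (mul_pos_iff_of_pos_left hwZ).1 hW0pos
  obtain ⟨m, rfl⟩ := Int.eq_ofNat_of_zero_le hm'pos.le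
  have hm1 : 1 ≤ m := by exact_mod_cast hm'pos
  have hmk : m < 2 ^ k := by
    rw [hm', h2n] at hW0lt
    have := lt_of_mul_lt_mul_left hW0lt hwZ.le
    exact_mod_cast this
  -- the hypothesis of the flat spectrum theorem
  have hsm : 2 ^ 24 * m ^ 6 ≤ 2 ^ k := by
    rw [hm', h2n] at hsmall
    have h4 : (w : ℤ) ^ 6 * (2 ^ 24 * m ^ 6) ≤ (w : ℤ) ^ 6 * 2 ^ k := by
      calc (w : ℤ) ^ 6 * (2 ^ 24 * m ^ 6) = 2 ^ 24 * ((w : ℤ) * m) ^ 6 := by ring
        _ ≤ (w : ℤ) ^ 5 * (w * 2 ^ k) := hsmall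
        _ = (w : ℤ) ^ 6 * 2 ^ k := by ring
    have h5 := le_of_mul_le_mul_left h4 (pow_pos hwZ 6)
    exact_mod_cast h5
  have hwR : (0 : ℝ) < (w : ℝ) := by exact_mod_cast hw
  have h2nR : (2 : ℝ) ^ n = w * 2 ^ k := by exact_mod_cast h2n
  have hkR : (0 : ℝ) < (2 : ℝ) ^ k := by positivity
  have hfc0 : Pool.Agent.Work.MP_79d924_lc.FS.fc (fun x => f (xb x)) 0 = m / 2 ^ k := by
    rw [fm_fc, ← hh, hm', h2nR]
    push_cast
    field_simp
  have hfc1 : ∀ a, a ≠ 0 → Pool.Agent.Work.MP_79d924_lc.FS.fc (fun x => f (xb x)) a = 0 ∨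
      Pool.Agent.Work.MP_79d924_lc.FS.fc (fun x => f (xb x)) a = 1 / 2 ^ k ∨
      Pool.Agent.Work.MP_79d924_lc.FS.fc (fun x => f (xb x)) a = -(1 / 2 ^ k) := by
    intro a ha
    rw [fm_fc, ← hh, h2nR]
    rcases hflat a ha with e | e | e
    · left; rw [e]; simp
    · right; left; rw [e]; push_cast; field_simp
    · right; right; rw [e]; push_cast; field_simp
  obtain ⟨A, b, hA, hAf, hdis⟩ :=
    Pool.Agent.Work.MP_79d924_lc.FS.flat_spectrum hsm (fun x => f (xb x)) hfc0 hfc1
  choose D y hD hDy using fun i => fm_flat (A i) (b i) (hA i)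
  have hFz : ∀ x, toF f x = 1 ↔ f (xb x) = true := by
    intro x
    show toZ (f (xb x)) = 1 ↔ _
    cases f (xb x) <;> simp [toZ]
  have hz01 : ∀ a : ZMod 2, a ≠ 1 → a = 0 := by decide
  have htree := tree_flats (toF f) D y
    (fun i x hx => (hFz x).2 ((hAf x).2 ⟨i, (hDy i x).2 hx⟩))
    (fun x hx => hz01 _ (fun h1 => by
      obtain ⟨i, hi⟩ := (hAf x).1 ((hFz x).1 h1)
      exact hx i ((hDy i x).1 hi)))
    (fun i j hij x hx => hdis i j hij x ⟨(hDy i x).2 hx.1, (hDy j x).2 hx.2⟩)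
    k ⊤ 0 (fun i _ => by
      rw [top_inf_eq, finrank_top, Module.finrank_fin_fun]
      exact hD i)
  obtain ⟨g, hg, hgF⟩ := htree
  have hgeq : g = toF f := by
    funext x
    exact hgF x (by simp)
  rw [hgeq] at hg
  have hDT := DTle_of_PT hg
  rw [toF_dec] at hDT
  -- sparsity
  have hpar := parseval h
  have hsq : ∑ x, h x ^ 2 = W h 0 := by
    rw [hW0]
    exact Finset.sum_congr rfl fun x _ => fm_iv_sq _
  rw [hsq, ← Finset.add_sum_erase _ _ (Finset.mem_univ (0 : Fin n → ZMod 2))] at hpar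
  have herase : ∑ α ∈ Finset.univ.erase (0 : Fin n → ZMod 2), W h α ^ 2
      = (w : ℤ) ^ 2 * ((Finset.univ.erase (0 : Fin n → ZMod 2)).filter (fun α => W h α ≠ 0)).card := by
    rw [Finset.card_filter]
    push_cast
    rw [Finset.mul_sum]
    refine Finset.sum_congr rfl fun α hα => ?_
    by_cases h0 : W h α = 0
    · simp [h0]
    · rcases hflat α (Finset.ne_of_mem_erase hα) with e | e | e
      · exact absurd e h0
      · simp [e]
      · simp [e]
  rw [herase, hm', h2n] at hpar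
  set N := ((Finset.univ.erase (0 : Fin n → ZMod 2)).filter (fun α => W h α ≠ 0)).card with hN
  have hpar2 : (m : ℤ) ^ 2 + N = 2 ^ k * m := by
    have h6 : (w : ℤ) ^ 2 * ((m : ℤ) ^ 2 + N) = (w : ℤ) ^ 2 * (2 ^ k * m) := by
      have : (w : ℤ) ^ 2 * ((m : ℤ) ^ 2 + N) = (w * m) ^ 2 + (w : ℤ) ^ 2 * N := by ring
      rw [this, hpar]
      ring
    exact mul_left_cancel₀ (pow_ne_zero 2 hwZ.ne') h6
  have hspar : sps f = N + 1 := by
    rw [← sps_eq]
    unfold spar
    rw [hN, ← Finset.card_insert_of_notMem (s := (Finset.univ.erase (0 : Fin n → ZMod 2)).filter (fun α => W h α ≠ 0))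
      (a := (0 : Fin n → ZMod 2)) (by simp)]
    congr 1
    ext α
    simp only [Finset.mem_filter, Finset.mem_univ, true_and, Finset.mem_insert, Finset.mem_erase]
    constructor
    · intro h7
      by_cases hα : α = 0
      · left; exact hα
      · right; exact ⟨⟨hα, trivial⟩, h7⟩
    · rintro (h7 | h7)
      · rw [h7]; exact hW0pos.ne'
      · exact h7.2
  have hsps : 2 ^ k ≤ sps f := by
    rw [hspar]
    have h8 : ((2 : ℤ) ^ k) ≤ N + 1 := by
      have hm1Z : (1 : ℤ) ≤ m := by exact_mod_cast hm1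
      have hmkZ : (m : ℤ) + 1 ≤ 2 ^ k := by exact_mod_cast hmk
      nlinarith [mul_nonneg (sub_nonneg.2 hm1Z) (sub_nonneg.2 hmkZ)]
    exact_mod_cast h8
  have hkL : k ≤ Nat.log 2 (sps f) := Nat.le_log_of_pow_le (by norm_num) hsps
  exact hDT.mono (Nat.div_le_div_right (Nat.mul_le_mul hkL (Nat.succ_le_succ hkL)))

/-- The same in the normalisation of the Fourier coefficients. -/
theorem flat_tree_real {n : ℕ} (f : (Fin n → Bool) → Bool) (c : ℝ)
    (hflat : ∀ S : Finset (Fin n), S ≠ ∅ →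
      ((∑ x : Fin n → Bool, (if f x then (1 : ℝ) else 0) *
        (-1) ^ (S.filter (fun i => x i = true)).card) / 2 ^ n = 0 ∨
      |(∑ x : Fin n → Bool, (if f x then (1 : ℝ) else 0) *
        (-1) ^ (S.filter (fun i => x i = true)).card) / 2 ^ n| = c))
    (hsmall : 2 ^ 24 * ((∑ x : Fin n → Bool, (if f x then (1 : ℝ) else 0) *
        (-1) ^ ((∅ : Finset (Fin n)).filter (fun i => x i = true)).card) / 2 ^ n) ^ 6 ≤ c ^ 5) :
    DTle (Nat.log 2 (sps f) * (Nat.log 2 (sps f) + 1) / 2) f := by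
  classical
  have h2n : (0 : ℝ) < 2 ^ n := by positivity
  have hcast : ∀ S : Finset (Fin n), (∑ x : Fin n → Bool, (if f x then (1 : ℝ) else 0) *
        (-1) ^ (S.filter (fun i => x i = true)).card)
      = ((W (fun x => iv (toF f x)) (ind S) : ℤ) : ℝ) := by
    intro S
    rw [fm_key, supp_ind]
    push_cast
    rfl
  simp only [hcast] at hflat hsmall
  have hind0 : ind (∅ : Finset (Fin n)) = 0 := by
    funext i; simp [ind]
  rw [hind0] at hsmall
  have hflat' : ∀ α : Fin n → ZMod 2, α ≠ 0 →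
      ((W (fun x => iv (toF f x)) α : ℤ) : ℝ) / 2 ^ n = 0 ∨
      |((W (fun x => iv (toF f x)) α : ℤ) : ℝ) / 2 ^ n| = c := by
    intro α hα
    have h1 := hflat (supp α) (by
      intro h
      apply hα
      rw [← ind_supp α, h, hind0])
    rwa [ind_supp] at h1
  have hz01 : ∀ a : ZMod 2, a ≠ 1 → a = 0 := by decide
  have hz10 : ∀ a : ZMod 2, a ≠ 0 → a = 1 := by decide
  -- constant functions
  have hconst : ∀ a : ZMod 2, (∀ x, toF f x = a) →
      DTle (Nat.log 2 (sps f) * (Nat.log 2 (sps f) + 1) / 2) f := by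
    intro a ha
    have h1 : PT 0 (toF f) := by
      have : toF f = fun _ => a := funext ha
      rw [this]
      exact PT.leaf a
    have h2 := DTle_of_PT h1
    rw [toF_dec] at h2
    exact h2.mono (Nat.zero_le _)
  by_cases hF0 : ∃ x, toF f x = 0
  swap
  · exact hconst 1 (fun x => hz10 _ (fun h => hF0 ⟨x, h⟩))
  by_cases hF1 : ∃ x, toF f x = 1
  swap
  · exact hconst 0 (fun x => hz01 _ (fun h => hF1 ⟨x, h⟩))
  -- a non-zero coefficient
  have hex : ∃ α : Fin n → ZMod 2, α ≠ 0 ∧ W (fun x => iv (toF f x)) α ≠ 0 := by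
    by_contra hno
    push Not at hno
    obtain ⟨x0, hx0⟩ := hF0
    obtain ⟨x1, hx1⟩ := hF1
    have hin : ∀ x, 2 ^ n * iv (toF f x) = W (fun x => iv (toF f x)) 0 := by
      intro x
      rw [inversion (fun x => iv (toF f x)) x, Finset.sum_eq_single (0 : Fin n → ZMod 2)]
      · have : sg ((0 : Fin n → ZMod 2) ⬝ᵥ x) = 1 := by rw [zero_dotProduct]; decide
        rw [this, mul_one]
      · intro β _ hβ
        rw [hno β hβ, zero_mul]
      · intro h
        exact absurd (Finset.mem_univ _) h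
    have e0 := hin x0
    have e1 := hin x1
    rw [hx0] at e0
    rw [hx1] at e1
    have i0 : iv (0 : ZMod 2) = 0 := by decide
    have i1 : iv (1 : ZMod 2) = 1 := by decide
    rw [i0, mul_zero] at e0
    rw [i1, mul_one, ← e0] at e1
    exact absurd e1 (by positivity)
  obtain ⟨α, hα, hWα⟩ := hex
  set w : ℕ := (W (fun x => iv (toF f x)) α).natAbs with hw
  have hwpos : 0 < w := Int.natAbs_pos.2 hWα
  have hwR : (w : ℝ) = |((W (fun x => iv (toF f x)) α : ℤ) : ℝ)| := by
    rw [hw, Nat.cast_natAbs, Int.cast_abs]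
  have hc : c = w / 2 ^ n := by
    rcases hflat' α hα with h | h
    · exfalso
      rw [div_eq_zero_iff] at h
      rcases h with h | h
      · exact hWα (by exact_mod_cast h)
      · exact h2n.ne' h
    · rw [← h, abs_div, abs_of_pos h2n, hwR]
  refine flat_tree f hwpos (fun β hβ => ?_) hF0 hF1 ?_
  · rcases hflat' β hβ with h | h
    · left
      rw [div_eq_zero_iff] at h
      rcases h with h | h
      · exact_mod_cast h
      · exact absurd h h2n.ne'
    · right
      rw [abs_div, abs_of_pos h2n, hc, div_left_inj' h2n.ne'] at h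
      have h3 : |W (fun x => iv (toF f x)) β| = (w : ℤ) := by exact_mod_cast h
      rcases abs_eq (by positivity : (0 : ℤ) ≤ w) |>.1 h3 with h4 | h4
      · left; exact h4
      · right; exact h4
  · rw [hc] at hsmall
    have h5 : (2 : ℝ) ^ 24 * ((W (fun x => iv (toF f x)) 0 : ℤ) : ℝ) ^ 6 ≤ (w : ℝ) ^ 5 * 2 ^ n := by
      have e1 : (2 : ℝ) ^ 24 * (((W (fun x => iv (toF f x)) 0 : ℤ) : ℝ) / 2 ^ n) ^ 6
          = (2 : ℝ) ^ 24 * ((W (fun x => iv (toF f x)) 0 : ℤ) : ℝ) ^ 6 / (2 ^ n) ^ 6 := by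
        rw [div_pow, mul_div_assoc]
      have e2 : ((w : ℝ) / 2 ^ n) ^ 5 = ((w : ℝ) ^ 5 * 2 ^ n) / (2 ^ n) ^ 6 := by
        rw [div_pow]
        field_simp
      rw [e1, e2, div_le_div_iff_of_pos_right (by positivity)] at hsmall
      exact hsmall
    exact_mod_cast h5

end Pool.Agent.XLR
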