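import Pool.Agent.Work.MP_218513_lc.Defs

/-! MP_218513_lc, module Fourier: Walsh coefficients on `F_2^n` and sparsity. -/

set_option autoImplicit false

namespace Pool.Agent.XLR

open Module

theorem sg_zero : sg 0 = 1 := by decide

theorem sg_one : sg 1 = -1 := by decide

/-- Orthogonality. -/
theorem sum_sg {n : ℕ} (α : Fin n → ZMod 2) :
    ∑ x : Fin n → ZMod 2, sg (α ⬝ᵥ x) = if α = 0 then 2 ^ n else 0 := by
  split_ifs with h
  · subst h
    simp [sg_zero, ZMod.card]
  · obtain ⟨i, hi⟩ : ∃ i, α i ≠ 0 := by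
      by_contra hcon
      push Not at hcon
      exact h (funext hcon)
    have hi1 : α i = 1 := by
      revert hi
      generalize α i = a
      revert a
      decide
    have key : ∑ x : Fin n → ZMod 2, sg (α ⬝ᵥ (x + Pi.single i 1)) =
        ∑ x : Fin n → ZMod 2, sg (α ⬝ᵥ x) :=
      Equiv.sum_comp (Equiv.addRight (Pi.single i 1)) (fun x => sg (α ⬝ᵥ x))
    have h2 : ∀ x : Fin n → ZMod 2, sg (α ⬝ᵥ (x + Pi.single i 1)) = - sg (α ⬝ᵥ x) := by
      intro x
      rw [dotProduct_add, sg_add, dotProduct_single, hi1, mul_one, sg_one, mul_neg_one]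
    simp_rw [h2, Finset.sum_neg_distrib] at key
    linarith

theorem sum_sg' {n : ℕ} (z : Fin n → ZMod 2) :
    ∑ α : Fin n → ZMod 2, sg (α ⬝ᵥ z) = if z = 0 then 2 ^ n else 0 := by
  rw [← sum_sg z]
  refine Finset.sum_congr rfl fun α _ => ?_
  rw [dotProduct_comm]

theorem add_eq_zero_iff' {n : ℕ} (x y : Fin n → ZMod 2) : y + x = 0 ↔ y = x := by
  constructor
  · intro h
    funext i
    have := congrFun h i
    simp only [Pi.add_apply, Pi.zero_apply] at this
    revert this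
    generalize y i = a
    generalize x i = b
    revert a b
    decide
  · rintro rfl
    funext i
    simp only [Pi.add_apply, Pi.zero_apply]
    generalize y i = a
    revert a
    decide

/-- Inversion. -/
theorem inversion {n : ℕ} (h : (Fin n → ZMod 2) → ℤ) (x : Fin n → ZMod 2) :
    2 ^ n * h x = ∑ α, W h α * sg (α ⬝ᵥ x) := by
  have h1 : ∀ α : Fin n → ZMod 2, W h α * sg (α ⬝ᵥ x) = ∑ y, h y * sg (α ⬝ᵥ (y + x)) := by
    intro α
    unfold W
    rw [Finset.sum_mul]
    refine Finset.sum_congr rfl fun y _ => ?_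
    rw [dotProduct_add, sg_add, mul_assoc]
  simp_rw [h1]
  rw [Finset.sum_comm]
  simp_rw [← Finset.mul_sum, sum_sg', add_eq_zero_iff']
  simp [mul_comm]

/-- Parseval. -/
theorem parseval {n : ℕ} (h : (Fin n → ZMod 2) → ℤ) :
    ∑ α, W h α ^ 2 = 2 ^ n * ∑ x, h x ^ 2 := by
  have h1 : ∀ α : Fin n → ZMod 2, W h α ^ 2 = ∑ x, h x * (W h α * sg (α ⬝ᵥ x)) := by
    intro α
    rw [sq]
    conv_lhs => rw [show W h α * W h α = W h α * ∑ x, h x * sg (α ⬝ᵥ x) from rfl]
    rw [Finset.mul_sum]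
    refine Finset.sum_congr rfl fun x _ => ?_
    ring
  simp_rw [h1]
  rw [Finset.sum_comm]
  simp_rw [← Finset.mul_sum, ← inversion]
  rw [Finset.mul_sum]
  refine Finset.sum_congr rfl fun x _ => ?_
  ring

/-- Convolution. -/
theorem W_mul {n : ℕ} (h k : (Fin n → ZMod 2) → ℤ) (γ : Fin n → ZMod 2) :
    2 ^ n * W (fun x => h x * k x) γ = ∑ α, W h α * W k (α + γ) := by
  have h1 : 2 ^ n * W (fun x => h x * k x) γ = ∑ x, (2 ^ n * h x) * (k x * sg (γ ⬝ᵥ x)) := by
    unfold W
    rw [Finset.mul_sum]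
    refine Finset.sum_congr rfl fun x _ => ?_
    ring
  rw [h1]
  simp_rw [inversion h, Finset.sum_mul]
  rw [Finset.sum_comm]
  refine Finset.sum_congr rfl fun α _ => ?_
  rw [show W h α * W k (α + γ) = W h α * ∑ x, k x * sg ((α + γ) ⬝ᵥ x) from rfl, Finset.mul_sum]
  refine Finset.sum_congr rfl fun x _ => ?_
  rw [add_dotProduct, sg_add]
  ring

/-- PROOF. `2^n * W (h k) γ = ∑_α W h α * W k (γ + α)`, so the support of the product is contained in the sumset. -/
theorem spar_mul_le {n : ℕ} (h k : (Fin n → ZMod 2) → ℤ) : spar (fun x => h x * k x) ≤ spar h * spar k := by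
  classical
  unfold spar
  refine le_trans (Finset.card_le_card ?_) (Finset.card_image₂_le (fun a b => a + b)
    (Finset.univ.filter (fun α => W h α ≠ 0)) (Finset.univ.filter (fun α => W k α ≠ 0)))
  intro γ hγ
  rw [Finset.mem_filter] at hγ
  have hne : ∑ α, W h α * W k (α + γ) ≠ 0 := by
    rw [← W_mul h k γ]
    exact mul_ne_zero (by positivity) hγ.2
  obtain ⟨α, _, hα⟩ := Finset.exists_ne_zero_of_sum_ne_zero hne
  rw [Finset.mem_image₂]
  refine ⟨α, ?_, α + γ, ?_, ?_⟩
  · rw [Finset.mem_filter]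
    exact ⟨Finset.mem_univ _, left_ne_zero_of_mul hα⟩
  · rw [Finset.mem_filter]
    exact ⟨Finset.mem_univ _, right_ne_zero_of_mul hα⟩
  · rw [← add_assoc, (add_eq_zero_iff' α α).2 rfl, zero_add]

theorem functional_eq {n : ℕ} (l : (Fin n → ZMod 2) →ₗ[ZMod 2] ZMod 2) (y : Fin n → ZMod 2) :
    l y = (fun i => l (Pi.single i 1)) ⬝ᵥ y := by
  conv_lhs => rw [show y = ∑ i, y i • (Pi.single i (1 : ZMod 2) : Fin n → ZMod 2) from by
    rw [← pi_eq_sum_univ' y]]
  rw [map_sum]
  unfold dotProduct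
  refine Finset.sum_congr rfl fun i _ => ?_
  rw [map_smul, smul_eq_mul, mul_comm]

/-- The adjoint of a linear map with respect to the dot product. -/
def adj {n : ℕ} (A : (Fin n → ZMod 2) →ₗ[ZMod 2] (Fin n → ZMod 2)) :
    (Fin n → ZMod 2) → (Fin n → ZMod 2) := fun α i => α ⬝ᵥ A (Pi.single i 1)

theorem adj_spec {n : ℕ} (A : (Fin n → ZMod 2) →ₗ[ZMod 2] (Fin n → ZMod 2))
    (α y : Fin n → ZMod 2) : α ⬝ᵥ A y = adj A α ⬝ᵥ y := by
  let l : (Fin n → ZMod 2) →ₗ[ZMod 2] ZMod 2 :=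
    { toFun := fun y => α ⬝ᵥ A y
      map_add' := fun x y => by rw [map_add, dotProduct_add]
      map_smul' := fun c x => by rw [map_smul, dotProduct_smul]; rfl }
  exact functional_eq l y

/-- Affine pullback, multiplied by `2 ^ n`. -/
theorem W_comp' {n : ℕ} (h : (Fin n → ZMod 2) → ℤ) (c : Fin n → ZMod 2)
    (A : (Fin n → ZMod 2) →ₗ[ZMod 2] (Fin n → ZMod 2)) (β : Fin n → ZMod 2) :
    2 ^ n * W (fun y => h (c + A y)) β =
      ∑ α, W h α * sg (α ⬝ᵥ c) * (if adj A α + β = 0 then 2 ^ n else 0) := by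
  have h1 : 2 ^ n * W (fun y => h (c + A y)) β = ∑ y, (2 ^ n * h (c + A y)) * sg (β ⬝ᵥ y) := by
    unfold W
    rw [Finset.mul_sum]
    refine Finset.sum_congr rfl fun x _ => ?_
    ring
  rw [h1]
  simp_rw [inversion h, Finset.sum_mul]
  rw [Finset.sum_comm]
  refine Finset.sum_congr rfl fun α _ => ?_
  rw [← sum_sg, Finset.mul_sum]
  refine Finset.sum_congr rfl fun x _ => ?_
  rw [add_dotProduct, sg_add, ← adj_spec, dotProduct_add, sg_add]
  ring

/-- Affine pullback. -/
theorem W_comp {n : ℕ} (h : (Fin n → ZMod 2) → ℤ) (c : Fin n → ZMod 2)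
    (A : (Fin n → ZMod 2) →ₗ[ZMod 2] (Fin n → ZMod 2)) (β : Fin n → ZMod 2) :
    W (fun y => h (c + A y)) β =
      ∑ α ∈ Finset.univ.filter (fun α => adj A α = β), W h α * sg (α ⬝ᵥ c) := by
  have h1 : (2 : ℤ) ^ n * W (fun y => h (c + A y)) β =
      2 ^ n * ∑ α ∈ Finset.univ.filter (fun α => adj A α = β), W h α * sg (α ⬝ᵥ c) := by
    rw [W_comp', Finset.sum_filter, Finset.mul_sum]
    refine Finset.sum_congr rfl fun α _ => ?_
    simp only [add_eq_zero_iff']
    split_ifs <;> ring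
  exact mul_left_cancel₀ (by positivity) h1

/-- PROOF. With `φ y = c + A y`: `2^n * W (h ∘ φ) β = ∑_α W h α * sg (α ⬝ᵥ c) * ∑_y sg (α ⬝ᵥ A y + β ⬝ᵥ y)`; the linear functional
`y ↦ α ⬝ᵥ A y` is `y ↦ A' α ⬝ᵥ y` for a function `A'` (`A' α i = α ⬝ᵥ A (Pi.single i 1)`), so a nonzero coefficient forces
`β = A' α` with `W h α ≠ 0`; hence the support is contained in the image of the support of `W h` under `A'`. -/
theorem spar_comp_le {n : ℕ} (h : (Fin n → ZMod 2) → ℤ) (c : Fin n → ZMod 2)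
    (A : (Fin n → ZMod 2) →ₗ[ZMod 2] (Fin n → ZMod 2)) : spar (fun y => h (c + A y)) ≤ spar h := by
  classical
  unfold spar
  refine le_trans (Finset.card_le_card ?_) (Finset.card_image_le (f := adj A)
    (s := Finset.univ.filter (fun α => W h α ≠ 0)))
  intro β hβ
  rw [Finset.mem_filter] at hβ
  have hne : ∑ α ∈ Finset.univ.filter (fun α => adj A α = β), W h α * sg (α ⬝ᵥ c) ≠ 0 := by
    rw [← W_comp]
    exact hβ.2
  obtain ⟨α, hα1, hα⟩ := Finset.exists_ne_zero_of_sum_ne_zero hne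
  rw [Finset.mem_filter] at hα1
  rw [Finset.mem_image]
  refine ⟨α, ?_, hα1.2⟩
  rw [Finset.mem_filter]
  exact ⟨Finset.mem_univ _, left_ne_zero_of_mul hα⟩

/-- PROOF. Induction on `m`: `sg (dm (a ::ₘ m) F x) = sg (dm m F x) * sg (dm m F (x + a))`, then `spar_mul_le` and
`spar_comp_le` with `A = id`. -/
theorem spar_dm_le {n : ℕ} (F : (Fin n → ZMod 2) → ZMod 2) (m : Multiset (Fin n → ZMod 2)) :
    spar (fun x => sg (dm m F x)) ≤ spar (fun x => sg (F x)) ^ (2 ^ m.card) := by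
  induction m using Multiset.induction_on with
  | empty => simp [dm_zero]
  | cons a m ih =>
    have h1 : (fun x => sg (dm (a ::ₘ m) F x)) =
        fun x => sg (dm m F x) * sg (dm m F (x + a)) := by
      funext x
      rw [dm_cons, sg_add]
    have h2 : spar (fun x => sg (dm m F (x + a))) ≤ spar (fun x => sg (dm m F x)) := by
      have := spar_comp_le (fun x => sg (dm m F x)) a LinearMap.id
      simp only [LinearMap.id_apply] at this
      simpa only [add_comm] using this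
    rw [h1]
    calc spar (fun x => sg (dm m F x) * sg (dm m F (x + a)))
        ≤ spar (fun x => sg (dm m F x)) * spar (fun x => sg (dm m F (x + a))) := spar_mul_le _ _
      _ ≤ spar (fun x => sg (F x)) ^ (2 ^ m.card) * spar (fun x => sg (F x)) ^ (2 ^ m.card) :=
          Nat.mul_le_mul ih (h2.trans ih)
      _ = spar (fun x => sg (F x)) ^ (2 ^ (a ::ₘ m).card) := by
          rw [← pow_add, Multiset.card_cons, pow_succ, mul_two]

end Pool.Agent.XLR
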