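import Pool.Agent.Work.MP_218513_lc.Tree
import Pool.Agent.Work.MP_218513_lc.Fourier

/-! MP_218513_lc, module Halve: certificates halve the sparsity; from certificates to trees. -/

set_option autoImplicit false

namespace Pool.Agent.XLR

open Module

/-- `0 ↦ 0`, `1 ↦ 1`. -/
def iv (a : ZMod 2) : ℤ := if a = 0 then 0 else 1

private theorem halve_iv_inj {a b : ZMod 2} (h : iv a = iv b) : a = b := by
  revert a b; decide

private theorem halve_iv_nonneg (a : ZMod 2) : 0 ≤ iv a := by
  unfold iv; split_ifs <;> norm_num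

private theorem halve_sg_ne (a : ZMod 2) : sg a ≠ 0 := by
  revert a; decide

private theorem halve_zmod (a : ZMod 2) : a = 0 ∨ a = 1 := by
  revert a; decide

private theorem halve_add_self {n : ℕ} (v : Fin n → ZMod 2) : v + v = 0 :=
  (add_eq_zero_iff' v v).2 rfl

/-- Restricting to a coset of a subspace `V` such that `F` is constant on `x₀ + V` halves the sparsity.
PROOF. `W_comp`: with `A' = adj π`, `W (iv F (c + π ·)) β = ∑_{α | A' α = β} W (iv F) α * sg (α ⬝ᵥ c)`. The function
`y ↦ iv (F (x₀ + π y))` is constant, so for `β ≠ 0`, `∑_{α | A' α = β} W (iv F) α * sg (α ⬝ᵥ x₀) = 0`: the fibre of `A'` over `β ≠ 0` contains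
no or at least two elements `α` with `W (iv F) α ≠ 0`. So `2 * #{β ≠ 0 | W (iv F (c + π ·)) β ≠ 0} + [W .. 0 ≠ 0] ≤ spar (iv F)`. -/
theorem spar_halve {n : ℕ} (F : (Fin n → ZMod 2) → ZMod 2) (V : Submodule (ZMod 2) (Fin n → ZMod 2))
    (x₀ : Fin n → ZMod 2) (hV : ∀ v ∈ V, F (x₀ + v) = F x₀)
    (π : (Fin n → ZMod 2) →ₗ[ZMod 2] (Fin n → ZMod 2)) (hπ : ∀ v, π v ∈ V) (c : Fin n → ZMod 2) :
    2 * spar (fun y => iv (F (c + π y))) ≤ spar (fun y => iv (F y)) + 1 := by
  classical
  set h : (Fin n → ZMod 2) → ℤ := fun y => iv (F y) with hh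
  set g : (Fin n → ZMod 2) → ℤ := fun y => iv (F (c + π y)) with hg
  have hgW : ∀ β, W g β = ∑ α ∈ Finset.univ.filter (fun α => adj π α = β), W h α * sg (α ⬝ᵥ c) :=
    fun β => W_comp h c π β
  have hzero : ∀ β : Fin n → ZMod 2, β ≠ 0 →
      ∑ α ∈ Finset.univ.filter (fun α => adj π α = β), W h α * sg (α ⬝ᵥ x₀) = 0 := by
    intro β hβ
    rw [← W_comp h x₀ π β]
    have h1 : (fun y => h (x₀ + π y)) = fun _ => h x₀ := by
      funext y
      show iv (F (x₀ + π y)) = iv (F x₀)
      rw [hV _ (hπ y)]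
    rw [h1]
    unfold W
    rw [← Finset.mul_sum, sum_sg, if_neg hβ, mul_zero]
  have hfib : ∀ β : Fin n → ZMod 2, (if W g β ≠ 0 then 2 else 0) ≤
      ((Finset.univ.filter (fun α => W h α ≠ 0)).filter (fun α => adj π α = β)).card
        + (if β = 0 then 1 else 0) := by
    intro β
    split_ifs with h1 h2
    · -- β = 0
      have hne : ∑ α ∈ Finset.univ.filter (fun α => adj π α = β), W h α * sg (α ⬝ᵥ c) ≠ 0 := by
        rw [← hgW]; exact h1
      obtain ⟨α, hα1, hα⟩ := Finset.exists_ne_zero_of_sum_ne_zero hne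
      have : 0 < ((Finset.univ.filter (fun α => W h α ≠ 0)).filter (fun α => adj π α = β)).card := by
        refine Finset.card_pos.2 ⟨α, ?_⟩
        rw [Finset.mem_filter, Finset.mem_filter]
        exact ⟨⟨Finset.mem_univ _, left_ne_zero_of_mul hα⟩, (Finset.mem_filter.1 hα1).2⟩
      omega
    · have hne : ∑ α ∈ Finset.univ.filter (fun α => adj π α = β), W h α * sg (α ⬝ᵥ c) ≠ 0 := by
        rw [← hgW]; exact h1
      obtain ⟨α, hα1, hα⟩ := Finset.exists_ne_zero_of_sum_ne_zero hne
      have hα2 := (Finset.mem_filter.1 hα1).2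
      have hmem : α ∈ (Finset.univ.filter (fun α => W h α ≠ 0)).filter (fun α => adj π α = β) := by
        rw [Finset.mem_filter, Finset.mem_filter]
        exact ⟨⟨Finset.mem_univ _, left_ne_zero_of_mul hα⟩, hα2⟩
      by_contra hlt
      have hle : ((Finset.univ.filter (fun α => W h α ≠ 0)).filter (fun α => adj π α = β)).card ≤ 1 := by
        omega
      have huniq := Finset.card_le_one.1 hle
      have hs := hzero β h2
      rw [Finset.sum_eq_single α] at hs
      · exact (mul_ne_zero (left_ne_zero_of_mul hα) (halve_sg_ne _)) hs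
      · intro b hb hba
        by_cases hWb : W h b = 0
        · rw [hWb, zero_mul]
        · exact absurd (huniq b (by
            rw [Finset.mem_filter, Finset.mem_filter]
            exact ⟨⟨Finset.mem_univ _, hWb⟩, (Finset.mem_filter.1 hb).2⟩) α hmem) hba
      · intro hn
        exact absurd hα1 hn
    · exact Nat.zero_le _
    · exact Nat.zero_le _
  have hsum := Finset.sum_le_sum (fun β (_ : β ∈ (Finset.univ : Finset (Fin n → ZMod 2))) => hfib β)
  rw [Finset.sum_add_distrib, Finset.sum_ite_eq' Finset.univ (0 : Fin n → ZMod 2),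
    if_pos (Finset.mem_univ _)] at hsum
  have e1 : (∑ β : Fin n → ZMod 2, (if W g β ≠ 0 then 2 else 0)) = 2 * spar g := by
    unfold spar
    rw [← Finset.sum_filter, Finset.sum_const, smul_eq_mul, mul_comm]
  have e2 : (∑ β : Fin n → ZMod 2,
      ((Finset.univ.filter (fun α => W h α ≠ 0)).filter (fun α => adj π α = β)).card) = spar h := by
    unfold spar
    rw [← Finset.card_eq_sum_card_fiberwise]
    intro x _
    simp
  rw [e1, e2] at hsum
  exact hsum

/-- A Boolean function with at most one nonzero coefficient is constant.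
PROOF. If `spar ≤ 1`, `iv (F x) = 2^{-n} W(α) sg (α ⬝ᵥ x)` by `inversion` (or `0`), a nonnegative function; if `α ≠ 0` take `x` with
`α ⬝ᵥ x = 1`: `iv (F x) = - iv (F 0)`, so both are `0` and `W = 0`. -/
theorem const_of_spar_le_one {n : ℕ} (F : (Fin n → ZMod 2) → ZMod 2) (h : spar (fun y => iv (F y)) ≤ 1) :
    ∀ x y, F x = F y := by
  classical
  set g : (Fin n → ZMod 2) → ℤ := fun y => iv (F y) with hg
  have hpos : (0 : ℤ) < 2 ^ n := by positivity
  have hex : ∃ α₀ : Fin n → ZMod 2, ∀ α, α ≠ α₀ → W g α = 0 := by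
    unfold spar at h
    by_cases hne : ∃ α, W g α ≠ 0
    · obtain ⟨α₀, hα₀⟩ := hne
      refine ⟨α₀, fun α hα => ?_⟩
      by_contra hW
      exact hα (Finset.card_le_one.1 h α (by simp [hW]) α₀ (by simp [hα₀]))
    · push Not at hne
      exact ⟨0, fun α _ => hne α⟩
  obtain ⟨α₀, hα₀⟩ := hex
  have hinv : ∀ x, 2 ^ n * g x = W g α₀ * sg (α₀ ⬝ᵥ x) := by
    intro x
    rw [inversion g x, Finset.sum_eq_single α₀]
    · intro b _ hb
      rw [hα₀ b hb, zero_mul]
    · intro hn
      exact absurd (Finset.mem_univ _) hn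
  have hgconst : ∀ x y, g x = g y := by
    by_cases hz : α₀ = 0
    · intro x y
      have h1 := hinv x
      have h2 := hinv y
      rw [hz] at h1 h2
      simp only [zero_dotProduct] at h1 h2
      exact mul_left_cancel₀ hpos.ne' (h1.trans h2.symm)
    · obtain ⟨i, hi⟩ : ∃ i, α₀ i ≠ 0 := by
        by_contra hcon
        push Not at hcon
        exact hz (funext hcon)
      have hi1 : α₀ i = 1 := (halve_zmod _).resolve_left hi
      have h1 := hinv 0
      have h2 := hinv (Pi.single i 1)
      rw [dotProduct_zero, sg_zero, mul_one] at h1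
      rw [dotProduct_single, hi1, mul_one, sg_one] at h2
      have p1 : 0 ≤ 2 ^ n * g 0 := mul_nonneg hpos.le (halve_iv_nonneg _)
      have p2 : 0 ≤ 2 ^ n * g (Pi.single i 1) := mul_nonneg hpos.le (halve_iv_nonneg _)
      have hW : W g α₀ = 0 := by linarith
      intro x y
      have h3 := hinv x
      have h4 := hinv y
      rw [hW, zero_mul] at h3 h4
      exact mul_left_cancel₀ hpos.ne' (h3.trans h4.symm)
  intro x y
  exact halve_iv_inj (hgconst x y)

/-- From certificates for all restrictions to trees. `𝒞` is a class of functions closed under composition with affine maps, every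
member of which is constant on some coset of a subspace of codimension at most `M`.
PROOF. Induction on `t`. `t = 0`: `spar ≤ 1`, so `F` is constant (`const_of_spar_le_one`). Step `t + 1`: `V, x₀` of codimension `≤ M`; `exists_functionals` gives `α : Fin M → _`;
`exists_proj` gives `π`; for each answer vector `a` choose a representative `r a` as in `main_PT` and put `g a y = F ((r a + π (r a)) + π y)`;
`spar_halve`: `2 spar (iv g) ≤ spar (iv F) + 1 ≤ 2 ^ (t + 1) + 1`, so `spar (iv g) ≤ 2 ^ t`; `PT.query M (t * M)`. -/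
theorem PT_of_kill {n M : ℕ} (𝒞 : ((Fin n → ZMod 2) → ZMod 2) → Prop)
    (hcomp : ∀ F, 𝒞 F → ∀ (c : Fin n → ZMod 2) (A : (Fin n → ZMod 2) →ₗ[ZMod 2] (Fin n → ZMod 2)), 𝒞 (fun y => F (c + A y)))
    (hkill : ∀ F, 𝒞 F → ∃ (x₀ : Fin n → ZMod 2) (V : Submodule (ZMod 2) (Fin n → ZMod 2)),
      n ≤ finrank (ZMod 2) V + M ∧ ∀ v ∈ V, F (x₀ + v) = F x₀) (t : ℕ) :
    ∀ F, 𝒞 F → spar (fun y => iv (F y)) ≤ 2 ^ t → PT (t * M) F := by
  classical
  induction t with
  | zero =>
    intro F _ hs
    have hc := const_of_spar_le_one F (by simpa using hs)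
    have : F = fun _ => F 0 := funext (fun x => hc x 0)
    rw [this, Nat.zero_mul]
    exact PT.leaf _
  | succ t ih =>
    intro F hF hs
    obtain ⟨x₀, V, hVdim, hV⟩ := hkill F hF
    obtain ⟨α, hα⟩ := exists_functionals V M hVdim
    obtain ⟨π, hπV, hπ⟩ := exists_proj V
    let rep : (Fin M → ZMod 2) → (Fin n → ZMod 2) := fun a =>
      if h : ∃ x, (fun i => α i ⬝ᵥ x) = a then h.choose else 0
    have hrep : ∀ x : Fin n → ZMod 2, x + rep (fun i => α i ⬝ᵥ x) ∈ V := by
      intro x
      have h : ∃ x', (fun i => α i ⬝ᵥ x') = (fun i => α i ⬝ᵥ x) := ⟨x, rfl⟩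
      rw [hα]
      intro i
      have hr : rep (fun i => α i ⬝ᵥ x) = h.choose := dif_pos h
      rw [hr, dotProduct_add]
      have hi : α i ⬝ᵥ h.choose = α i ⬝ᵥ x := congrFun h.choose_spec i
      rw [hi]
      generalize α i ⬝ᵥ x = a
      revert a
      decide
    let g : (Fin M → ZMod 2) → ((Fin n → ZMod 2) → ZMod 2) := fun a y =>
      F ((rep a + π (rep a)) + π y)
    have hg : ∀ a, PT (t * M) (g a) := by
      intro a
      refine ih (g a) (hcomp F hF _ π) ?_
      have h1 := spar_halve F V x₀ hV π hπV (rep a + π (rep a))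
      have h2 : 2 ^ (t + 1) = 2 * 2 ^ t := by rw [pow_succ, mul_comm]
      show spar (fun y => iv (F ((rep a + π (rep a)) + π y))) ≤ 2 ^ t
      omega
    have key := PT.query M (t * M) α g hg
    have hfun : (fun x => g (fun i => α i ⬝ᵥ x) x) = F := by
      funext x
      show F ((rep _ + π (rep _)) + π x) = F x
      congr 1
      have h1 := hπ _ (hrep x)
      rw [map_add] at h1
      rw [add_assoc, add_comm (π (rep _)), h1, add_comm x, ← add_assoc, halve_add_self, zero_add]
    rw [hfun] at key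
    have e : M + t * M = (t + 1) * M := by ring
    rw [e] at key
    exact key

end Pool.Agent.XLR
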