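import Pool.Agent.Work.MP_218513_lc.Defs

/-! MP_218513_lc, module Mobius: polynomial representation of functions on `F_2^n`. -/

set_option autoImplicit false

namespace Pool.Agent.XLR

open Module

private lemma mob_sum {n : ℕ} (F : (Fin n → ZMod 2) → ZMod 2) (A : Finset (Fin n)) :
    ∀ y, ∑ S ∈ A.powerset, dm (S.val.map fun i => (Pi.single i 1 : Fin n → ZMod 2)) F y =
      F (y + ∑ i ∈ A, (Pi.single i 1 : Fin n → ZMod 2)) := by
  classical
  induction A using Finset.induction_on with
  | empty => intro y; simp [dm_zero]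
  | insert a A ha ih =>
    intro y
    rw [Finset.sum_powerset_insert ha, ← Finset.sum_add_distrib, Finset.sum_insert ha, ← add_assoc,
      ← ih (y + Pi.single a 1)]
    refine Finset.sum_congr rfl fun S hS => ?_
    have haS : a ∉ S := fun h => ha (Finset.mem_powerset.1 hS h)
    rw [Finset.insert_val_of_notMem haS, Multiset.map_cons, dm_cons, ← add_assoc,
      CharTwo.add_self_eq_zero, zero_add]

private lemma dm_big {n : ℕ} (d : ℕ) (F : (Fin n → ZMod 2) → ZMod 2)
    (hF : ∀ m : Multiset (Fin n → ZMod 2), m.card = d + 1 → ∀ x, dm m F x = 0) (k : ℕ) :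
    ∀ m : Multiset (Fin n → ZMod 2), m.card = d + 1 + k → ∀ x, dm m F x = 0 := by
  induction k with
  | zero => exact hF
  | succ k ih =>
    intro m hm x
    induction m using Multiset.induction_on with
    | empty => simp at hm
    | cons a m _ =>
      rw [Multiset.card_cons] at hm
      rw [dm_cons, ih m (by omega), ih m (by omega), add_zero]

/-- Every function on `F_2^n` whose `(d+1)`-fold derivatives vanish extends to a polynomial function of degree at most `d`
over `K`.
PROOF. Moebius inversion: `F x = ∑_S c S ∏_{i∈S} x i` with `c S = ∑_{J ⊆ S} F (1_J)`, and `c S = dm (S.val.map e) F 0`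
vanishes if `S.card > d` (`dm` of a longer multiset is a `dm` of the zero function). Put
`G x = ∑_S algebraMap (c S) * ∏_{i∈S} x i`. -/
theorem exists_poly {n : ℕ} (K : Type*) [Field K] [Algebra (ZMod 2) K] (d : ℕ) (F : (Fin n → ZMod 2) → ZMod 2)
    (hF : ∀ m : Multiset (Fin n → ZMod 2), m.card = d + 1 → ∀ x, dm m F x = 0) :
    ∃ G : (Fin n → K) → K, IsPoly d G ∧ ∀ x, G (emb K x) = algebraMap (ZMod 2) K (F x) := by
  classical
  set c : Finset (Fin n) → ZMod 2 :=
    fun S => dm (S.val.map fun i => (Pi.single i 1 : Fin n → ZMod 2)) F 0 with hc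
  refine ⟨fun x => ∑ S, algebraMap (ZMod 2) K (c S) * ∏ i ∈ S, x i,
    ⟨fun S => algebraMap (ZMod 2) K (c S), ?_, fun x => rfl⟩, ?_⟩
  · intro S hS
    have h1 : c S = 0 := by
      refine dm_big d F hF (S.card - (d + 1)) _ ?_ 0
      rw [Multiset.card_map, Finset.card_val]
      omega
    simp only [h1, map_zero]
  · intro x
    have h1 : ∀ S : Finset (Fin n), ∏ i ∈ S, emb K x i = algebraMap (ZMod 2) K (∏ i ∈ S, x i) := by
      intro S
      rw [map_prod]
      rfl
    simp only [h1]
    rw [← Finset.sum_congr rfl fun S _ => (map_mul (algebraMap (ZMod 2) K) _ _), ← map_sum]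
    congr 1
    set A : Finset (Fin n) := Finset.univ.filter (fun i => x i ≠ 0) with hA
    have hz : ∀ a : ZMod 2, a ≠ 0 → a = 1 := by decide
    have hx : x = ∑ i ∈ A, (Pi.single i 1 : Fin n → ZMod 2) := by
      funext j
      rw [Finset.sum_apply]
      simp only [Pi.single_apply]
      rw [Finset.sum_ite_eq A j]
      by_cases hj : x j = 0
      · rw [if_neg (by simp [hA, hj]), hj]
      · rw [if_pos (by simp [hA, hj]), hz _ hj]
    have hprod : ∀ S : Finset (Fin n), ∏ i ∈ S, x i = if S ⊆ A then 1 else 0 := by
      intro S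
      split_ifs with hS
      · refine Finset.prod_eq_one fun i hi => hz _ ?_
        have := hS hi
        rw [hA, Finset.mem_filter] at this
        exact this.2
      · obtain ⟨i, hi, hiA⟩ := Finset.not_subset.1 hS
        refine Finset.prod_eq_zero hi ?_
        by_contra hne
        exact hiA (by rw [hA, Finset.mem_filter]; exact ⟨Finset.mem_univ _, hne⟩)
    have h2 := mob_sum F A 0
    rw [zero_add, ← hx] at h2
    rw [← h2]
    simp only [hprod, mul_ite, mul_one, mul_zero]
    rw [← Finset.sum_filter]
    refine Finset.sum_congr ?_ fun _ _ => rfl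
    ext S
    simp

end Pool.Agent.XLR
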