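import Pool.Agent.Work.MP_218513_lc.QuadImage

/-! MP_218513_lc: the (unnormalised) spectral norm `∑ |W h α|`. -/

set_option autoImplicit false

namespace Pool.Agent.XLR

open Module

/-- Unnormalised spectral norm: `2^n` times the sum of the absolute values of the Fourier coefficients. -/
def nrm {n : ℕ} (h : (Fin n → ZMod 2) → ℤ) : ℤ := ∑ α, |W h α|

theorem nrm_nonneg {n : ℕ} (h : (Fin n → ZMod 2) → ℤ) : 0 ≤ nrm h :=
  Finset.sum_nonneg (fun _ _ => abs_nonneg _)

theorem convolution {n : ℕ} (h k : (Fin n → ZMod 2) → ℤ) (γ : Fin n → ZMod 2) :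
    2 ^ n * W (fun x => h x * k x) γ = ∑ α, W h α * W k (α + γ) := by
  have h1 : 2 ^ n * W (fun x => h x * k x) γ = ∑ x, (2 ^ n * h x) * (k x * sg (γ ⬝ᵥ x)) := by
    unfold W
    rw [Finset.mul_sum]
    refine Finset.sum_congr rfl fun x _ => ?_
    ring
  rw [h1]
  simp_rw [inversion h, Finset.sum_mul]
  rw [Finset.sum_comm]
  refine Finset.sum_congr rfl fun α _ => ?_
  rw [show W h α * W k (α + γ) = W h α * ∑ x, k x * sg ((α + γ) ⬝ᵥ x) from rfl, Finset.mul_sum]
  refine Finset.sum_congr rfl fun x _ => ?_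
  rw [add_dotProduct, sg_add]
  ring

theorem nrm_mul_le {n : ℕ} (h k : (Fin n → ZMod 2) → ℤ) :
    2 ^ n * nrm (fun x => h x * k x) ≤ nrm h * nrm k := by
  have h1 : 2 ^ n * nrm (fun x => h x * k x) = ∑ γ, |∑ α, W h α * W k (α + γ)| := by
    unfold nrm
    rw [Finset.mul_sum]
    refine Finset.sum_congr rfl fun γ _ => ?_
    rw [← convolution, abs_mul, abs_of_nonneg (by positivity : (0 : ℤ) ≤ 2 ^ n)]
  rw [h1]
  calc ∑ γ, |∑ α, W h α * W k (α + γ)| ≤ ∑ γ, ∑ α, |W h α| * |W k (α + γ)| := by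
        refine Finset.sum_le_sum fun γ _ => ?_
        refine (Finset.abs_sum_le_sum_abs _ _).trans (le_of_eq ?_)
        exact Finset.sum_congr rfl fun α _ => abs_mul _ _
    _ = ∑ α, |W h α| * ∑ γ, |W k (α + γ)| := by
        rw [Finset.sum_comm]
        exact Finset.sum_congr rfl fun α _ => (Finset.mul_sum _ _ _).symm
    _ = nrm h * nrm k := by
        unfold nrm
        rw [Finset.sum_mul]
        refine Finset.sum_congr rfl fun α _ => ?_
        congr 1
        exact Equiv.sum_comp (Equiv.addLeft α) (fun y => |W k y|)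

theorem nrm_comp_le {n : ℕ} (h : (Fin n → ZMod 2) → ℤ) (c : Fin n → ZMod 2)
    (A : (Fin n → ZMod 2) →ₗ[ZMod 2] (Fin n → ZMod 2)) : nrm (fun y => h (c + A y)) ≤ nrm h := by
  classical
  let A' : (Fin n → ZMod 2) → (Fin n → ZMod 2) := fun α i => α ⬝ᵥ A (Pi.single i 1)
  have hA' : ∀ α y : Fin n → ZMod 2, α ⬝ᵥ A y = A' α ⬝ᵥ y := by
    intro α y
    let l : (Fin n → ZMod 2) →ₗ[ZMod 2] ZMod 2 :=
      { toFun := fun y => α ⬝ᵥ A y
        map_add' := fun x y => by rw [map_add, dotProduct_add]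
        map_smul' := fun c x => by rw [map_smul, dotProduct_smul]; rfl }
    exact functional_eq l y
  have key : ∀ β : Fin n → ZMod 2, 2 ^ n * W (fun y => h (c + A y)) β =
      ∑ α, W h α * sg (α ⬝ᵥ c) * (if A' α + β = 0 then 2 ^ n else 0) := by
    intro β
    have h1 : 2 ^ n * W (fun y => h (c + A y)) β = ∑ y, (2 ^ n * h (c + A y)) * sg (β ⬝ᵥ y) := by
      unfold W
      rw [Finset.mul_sum]
      refine Finset.sum_congr rfl fun x _ => ?_
      ring
    rw [h1]
    simp_rw [inversion h, Finset.sum_mul]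
    rw [Finset.sum_comm]
    refine Finset.sum_congr rfl fun α _ => ?_
    rw [← sum_sg, Finset.mul_sum]
    refine Finset.sum_congr rfl fun x _ => ?_
    rw [add_dotProduct, sg_add, ← hA', dotProduct_add, sg_add]
    ring
  have hsg : ∀ a : ZMod 2, |sg a| = 1 := by intro a; revert a; decide
  have h2 : 2 ^ n * nrm (fun y => h (c + A y)) ≤ 2 ^ n * nrm h := by
    calc 2 ^ n * nrm (fun y => h (c + A y)) = ∑ β, |2 ^ n * W (fun y => h (c + A y)) β| := by
          unfold nrm
          rw [Finset.mul_sum]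
          refine Finset.sum_congr rfl fun β _ => ?_
          rw [abs_mul, abs_of_nonneg (by positivity : (0 : ℤ) ≤ 2 ^ n)]
      _ ≤ ∑ β, ∑ α, |W h α| * (if A' α + β = 0 then 2 ^ n else 0) := by
          refine Finset.sum_le_sum fun β _ => ?_
          rw [key β]
          refine (Finset.abs_sum_le_sum_abs _ _).trans (le_of_eq ?_)
          refine Finset.sum_congr rfl fun α _ => ?_
          rw [abs_mul, abs_mul, hsg, mul_one]
          split_ifs <;> simp
      _ = ∑ α, |W h α| * ∑ β, (if A' α + β = 0 then 2 ^ n else 0) := by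
          rw [Finset.sum_comm]
          exact Finset.sum_congr rfl fun α _ => (Finset.mul_sum _ _ _).symm
      _ = 2 ^ n * nrm h := by
          unfold nrm
          rw [Finset.mul_sum]
          refine Finset.sum_congr rfl fun α _ => ?_
          have : ∀ β : Fin n → ZMod 2, (A' α + β = 0) ↔ (A' α = β) := fun β => add_eq_zero_iff' β (A' α)
          simp only [this, Finset.sum_ite_eq, Finset.mem_univ, if_true]
          ring
  exact le_of_mul_le_mul_left h2 (by positivity)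

theorem nrm_dm_le {n Λ : ℕ} (F : (Fin n → ZMod 2) → ZMod 2)
    (hF : nrm (fun x => sg (F x)) ^ 2 ≤ 2 ^ Λ * 4 ^ n) (m : Multiset (Fin n → ZMod 2)) :
    nrm (fun x => sg (dm m F x)) ^ 2 ≤ (2 ^ Λ) ^ (2 ^ m.card) * 4 ^ n := by
  induction m using Multiset.induction_on with
  | empty => simpa [dm_zero] using hF
  | cons a m ih =>
    have h1 : (fun x => sg (dm (a ::ₘ m) F x)) =
        fun x => sg (dm m F x) * sg (dm m F (x + a)) := by
      funext x
      rw [dm_cons, sg_add]
    have h2 : nrm (fun x => sg (dm m F (x + a))) ≤ nrm (fun x => sg (dm m F x)) := by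
      have := nrm_comp_le (fun x => sg (dm m F x)) a LinearMap.id
      simp only [LinearMap.id_apply] at this
      simpa only [add_comm] using this
    have h3 := nrm_mul_le (fun x => sg (dm m F x)) (fun x => sg (dm m F (x + a)))
    rw [← h1] at h3
    set P := nrm (fun x => sg (dm m F x)) with hP
    set Q := nrm (fun x => sg (dm (a ::ₘ m) F x)) with hQ
    have hP0 : 0 ≤ P := nrm_nonneg _
    have hQ0 : 0 ≤ Q := nrm_nonneg _
    have h4 : 2 ^ n * Q ≤ P ^ 2 := by
      rw [sq]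
      exact h3.trans (mul_le_mul_of_nonneg_left h2 hP0)
    have h5 : (2 ^ n * Q) ^ 2 ≤ ((2 ^ Λ) ^ (2 ^ m.card) * 4 ^ n) ^ 2 := by
      apply pow_le_pow_left₀ (by positivity)
      exact h4.trans ih
    have h6 : (4 : ℤ) ^ n = 2 ^ n * 2 ^ n := by rw [← mul_pow]; norm_num
    have h7 : (2 ^ n * Q) ^ 2 = 4 ^ n * Q ^ 2 := by rw [h6]; ring
    have h8 : (((2 : ℤ) ^ Λ) ^ (2 ^ m.card) * 4 ^ n) ^ 2
        = 4 ^ n * ((2 ^ Λ) ^ (2 ^ (a ::ₘ m).card) * 4 ^ n) := by
      rw [Multiset.card_cons, pow_succ 2, pow_mul ((2 : ℤ) ^ Λ)]; ring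
    rw [h7, h8] at h5
    exact le_of_mul_le_mul_left h5 (by positivity)

theorem quad_facts {n : ℕ} (Q : (Fin n → ZMod 2) → ZMod 2) (L : (Fin n → ZMod 2) → (Fin n → ZMod 2))
    (c : (Fin n → ZMod 2) → ZMod 2) (hQ : ∀ v x, Q (x + v) + Q x = L v ⬝ᵥ x + c v) :
    ∃ N : ℕ, 0 < N ∧ N * (Set.range L).ncard = 2 ^ n ∧
      ∀ α, W (fun x => sg (Q x)) α ^ 2 ≤ 2 ^ n * N := by
  classical
  set h : (Fin n → ZMod 2) → ℤ := fun x => sg (Q x) with hh
  set N : ℕ := (Finset.univ.filter (fun v => L v = 0)).card with hN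
  have hW : ∀ α : Fin n → ZMod 2, W h α ^ 2 ≤ 2 ^ n * N := by
    intro α
    have e1 : W h α ^ 2 = ∑ x, ∑ v, h x * h (x + v) * sg (α ⬝ᵥ v) := by
      rw [sq, show W h α * W h α = (∑ x, h x * sg (α ⬝ᵥ x)) * W h α from rfl, Finset.sum_mul]
      refine Finset.sum_congr rfl fun x _ => ?_
      rw [show W h α = ∑ y, h y * sg (α ⬝ᵥ y) from rfl,
        ← Equiv.sum_comp (Equiv.addLeft x) (fun y => h y * sg (α ⬝ᵥ y)), Finset.mul_sum]
      refine Finset.sum_congr rfl fun v _ => ?_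
      rw [Equiv.coe_addLeft, dotProduct_add, sg_add]
      have := sg_mul_self (α ⬝ᵥ x)
      calc h x * sg (α ⬝ᵥ x) * (h (x + v) * (sg (α ⬝ᵥ x) * sg (α ⬝ᵥ v)))
          = h x * h (x + v) * (sg (α ⬝ᵥ x) * sg (α ⬝ᵥ x)) * sg (α ⬝ᵥ v) := by ring
        _ = _ := by rw [this, mul_one]
    have e2 : ∀ x v : Fin n → ZMod 2, h x * h (x + v) * sg (α ⬝ᵥ v) =
        sg (α ⬝ᵥ v + c v) * sg (L v ⬝ᵥ x) := by
      intro x v
      rw [hh]
      simp only
      rw [← sg_add, ← sg_add, ← sg_add]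
      congr 1
      have := hQ v x
      rw [add_comm (Q x), this]
      abel
    rw [e1, Finset.sum_comm]
    simp_rw [e2, ← Finset.mul_sum, sum_sg]
    have e3 : ∀ v : Fin n → ZMod 2, sg (α ⬝ᵥ v + c v) * (if L v = 0 then (2 : ℤ) ^ n else 0) ≤
        if L v = 0 then 2 ^ n else 0 := by
      intro v
      split_ifs with hv
      · have : sg (α ⬝ᵥ v + c v) ≤ 1 := by
          generalize α ⬝ᵥ v + c v = a
          revert a
          decide
        have h2 : (0 : ℤ) ≤ 2 ^ n := by positivity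
        nlinarith
      · simp
    refine (Finset.sum_le_sum fun v _ => e3 v).trans ?_
    rw [← Finset.sum_filter, Finset.sum_const, nsmul_eq_mul, ← hN, mul_comm]
  -- additivity
  have hadd : ∀ v w, L (v + w) = L v + L w := by
    intro v w
    have h1 : ∀ x, (L (v + w) + (L v + L w)) ⬝ᵥ x = c (v + w) + (L w ⬝ᵥ v + c w + c v) := by
      intro x
      have a1 := hQ (v + w) x
      have a2 := hQ w (x + v)
      have a3 := hQ v x
      rw [← add_assoc x v w] at a1
      rw [dotProduct_add] at a2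
      rw [add_dotProduct, add_dotProduct]
      revert a1 a2 a3
      generalize Q (x + v + w) = q1
      generalize Q (x + v) = q2
      generalize Q x = q3
      generalize L (v + w) ⬝ᵥ x = l1
      generalize L w ⬝ᵥ x = l2
      generalize L w ⬝ᵥ v = l3
      generalize L v ⬝ᵥ x = l4
      generalize c (v + w) = c1
      generalize c w = c2
      generalize c v = c3
      intro a1 a2 a3
      have two : (2 : ZMod 2) = 0 := rfl
      linear_combination a1 + a2 + a3 + (-q1 - q2 - q3 - c1 + l1 + l2 + l4 - c1) * two * 0 +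
        (-q1 - q2 - q3 + l1 + l2 + l4 + l3 * 0) * two
    have h2 := dot_const_zero _ _ h1
    exact (add_eq_zero_iff' _ _).1 h2
  let L' : (Fin n → ZMod 2) →+ (Fin n → ZMod 2) :=
    { toFun := L
      map_zero' := by
        have := hadd 0 0
        rw [add_zero] at this
        have h3 : L 0 + 0 = L 0 + L 0 := by rw [add_zero]; exact this
        exact (add_left_cancel h3).symm
      map_add' := hadd }
  have hcard : Nat.card L'.ker * Nat.card L'.range = 2 ^ n := by
    rw [← AddSubgroup.index_ker, AddSubgroup.card_mul_index]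
    simp [ZMod.card]
  have hker : Nat.card L'.ker = N := by
    rw [hN, ← Fintype.card_subtype, ← Nat.card_eq_fintype_card]
    rfl
  have hran : Nat.card L'.range = (Set.range L).ncard := by
    rw [← Nat.card_coe_set_eq]
    rfl
  have hNpos : 0 < N := by
    rw [← hker]
    exact Nat.card_pos
  exact ⟨N, hNpos, by rw [← hran, ← hker, hcard], hW⟩

theorem sum_sq_sign {n : ℕ} (F : (Fin n → ZMod 2) → ZMod 2) :
    ∑ α, W (fun x => sg (F x)) α ^ 2 = 4 ^ n := by
  rw [parseval]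
  have : ∀ x, (fun x => sg (F x)) x ^ 2 = 1 := fun x => by
    rw [sq]
    exact sg_mul_self _
  simp only [this]
  simp only [Finset.sum_const, Finset.card_univ, Fintype.card_pi, ZMod.card, Finset.prod_const,
    Fintype.card_fin, nsmul_eq_mul, mul_one, Nat.cast_pow, Nat.cast_ofNat]
  rw [← mul_pow]
  norm_num

/-- A quadratic function with small spectral norm has small rank. -/
theorem quad_image_nrm {n : ℕ} (Q : (Fin n → ZMod 2) → ZMod 2) (L : (Fin n → ZMod 2) → (Fin n → ZMod 2))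
    (c : (Fin n → ZMod 2) → ZMod 2) (hQ : ∀ v x, Q (x + v) + Q x = L v ⬝ᵥ x + c v) :
    ((Set.range L).ncard : ℤ) * 4 ^ n ≤ nrm (fun x => sg (Q x)) ^ 2 := by
  classical
  obtain ⟨N, hN0, hNR, hW⟩ := quad_facts Q L c hQ
  set h : (Fin n → ZMod 2) → ℤ := fun x => sg (Q x) with hh
  set R := (Set.range L).ncard
  obtain ⟨α₀, hα₀⟩ := Finite.exists_max (fun α => |W h α|)
  have h1 : (4 : ℤ) ^ n ≤ |W h α₀| * nrm h := by
    rw [← sum_sq_sign Q]
    unfold nrm
    rw [Finset.mul_sum]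
    refine Finset.sum_le_sum fun α _ => ?_
    rw [← sq_abs, sq]
    exact mul_le_mul_of_nonneg_right (hα₀ α) (abs_nonneg _)
  have h2 : ((4 : ℤ) ^ n) ^ 2 ≤ (2 ^ n * N) * nrm h ^ 2 := by
    calc ((4 : ℤ) ^ n) ^ 2 ≤ (|W h α₀| * nrm h) ^ 2 := pow_le_pow_left₀ (by positivity) h1 2
      _ = W h α₀ ^ 2 * nrm h ^ 2 := by rw [mul_pow, sq_abs]
      _ ≤ (2 ^ n * N) * nrm h ^ 2 := mul_le_mul_of_nonneg_right (hW α₀) (by positivity)
  have h3 : (R : ℤ) * ((4 : ℤ) ^ n) ^ 2 ≤ 4 ^ n * nrm h ^ 2 := by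
    calc (R : ℤ) * ((4 : ℤ) ^ n) ^ 2 ≤ R * ((2 ^ n * N) * nrm h ^ 2) :=
          mul_le_mul_of_nonneg_left h2 (by positivity)
      _ = 2 ^ n * ((N * R : ℕ) : ℤ) * nrm h ^ 2 := by push_cast; ring
      _ = 4 ^ n * nrm h ^ 2 := by
          rw [hNR]; push_cast; rw [← mul_pow]; norm_num
  have h4 : (4 : ℤ) ^ n * (R * 4 ^ n) ≤ 4 ^ n * nrm h ^ 2 := by
    calc (4 : ℤ) ^ n * (R * 4 ^ n) = R * ((4 : ℤ) ^ n) ^ 2 := by ring
      _ ≤ _ := h3
  exact le_of_mul_le_mul_left h4 (by positivity)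

/-- The spectral norm is at most the square root of the sparsity. -/
theorem nrm_sq_le {n : ℕ} (F : (Fin n → ZMod 2) → ZMod 2) :
    nrm (fun x => sg (F x)) ^ 2 ≤ spar (fun x => sg (F x)) * 4 ^ n := by
  classical
  set h : (Fin n → ZMod 2) → ℤ := fun x => sg (F x) with hh
  have h1 : nrm h = ∑ α ∈ Finset.univ.filter (fun α => W h α ≠ 0), |W h α| := by
    unfold nrm
    rw [Finset.sum_filter]
    refine Finset.sum_congr rfl fun α _ => ?_
    split_ifs with hα
    · rfl
    · push Not at hα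
      rw [hα]; simp
  have h2 : ∑ α ∈ Finset.univ.filter (fun α => W h α ≠ 0), |W h α| ^ 2 ≤ 4 ^ n := by
    rw [← sum_sq_sign F]
    calc _ ≤ ∑ α, |W h α| ^ 2 := Finset.sum_le_sum_of_subset_of_nonneg (Finset.subset_univ _)
            (fun _ _ _ => by positivity)
      _ = _ := Finset.sum_congr rfl fun α _ => sq_abs _
  rw [h1]
  refine (sq_sum_le_card_mul_sum_sq).trans ?_
  unfold spar
  exact mul_le_mul_of_nonneg_left h2 (by positivity)

end Pool.Agent.XLR
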