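import Pool.Agent.Work.MP_218513_lc.Defs

/-! MP_218513_lc, module PolyForm: polynomial functions and their iterated derivatives. -/

set_option autoImplicit false

namespace Pool.Agent.XLR

open Module

/-- PROOF. `∏_{i∈S} (x i + a i) = ∑_{J ⊆ S} (∏_{i ∈ S \ J} a i) (∏_{i ∈ J} x i)` (`Finset.prod_add`), so (characteristic two)
`G (x+a) + G x = ∑_S c S ∑_{J ⊂ S, J ≠ S} (∏_{S \ J} a) ∏_J x`; collect the coefficient of `∏_J x`:
`c' J = ∑_{S ⊋ J} c S ∏_{S \ J} a`, zero if `J.card > k` (then `S.card > k+1`). -/
theorem IsPoly.deriv {K : Type*} [Field K] [CharP K 2] {n k : ℕ} {G : (Fin n → K) → K} (h : IsPoly (k + 1) G)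
    (a : Fin n → K) : IsPoly k (fun x => G x + G (x + a)) := by
  classical
  obtain ⟨c, hc, hG⟩ := h
  refine ⟨fun J => ∑ S, if J ⊂ S then c S * ∏ i ∈ S \ J, a i else 0, ?_, ?_⟩
  · intro J hJ
    refine Finset.sum_eq_zero fun S _ => ?_
    split_ifs with hJS
    · rw [hc S, zero_mul]
      have := Finset.card_lt_card hJS
      omega
    · rfl
  · intro x
    have h1 : ∀ S : Finset (Fin n), c S * ∏ i ∈ S, (x + a) i =
        c S * ∏ i ∈ S, x i + ∑ J, (if J ⊂ S then c S * ∏ i ∈ S \ J, a i else 0) * ∏ i ∈ J, x i := by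
      intro S
      have h2 : ∏ i ∈ S, (x + a) i = ∑ J ∈ S.powerset, (∏ i ∈ J, x i) * ∏ i ∈ S \ J, a i := by
        simp only [Pi.add_apply]
        rw [Finset.prod_add]
      have h3 : S.powerset = insert S S.ssubsets := by
        ext J
        simp only [Finset.mem_powerset, Finset.mem_insert, Finset.mem_ssubsets]
        constructor
        · intro hJ
          rcases hJ.eq_or_ssubset with h | h
          · exact Or.inl h
          · exact Or.inr h
        · rintro (h | h)
          · rw [h]
          · exact h.subset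
      rw [h2, h3, Finset.sum_insert (by simp [Finset.mem_ssubsets]), mul_add, Finset.sdiff_self,
        Finset.prod_empty, mul_one, Finset.mul_sum]
      congr 1
      have h4 : ∑ J, (if J ⊂ S then c S * ∏ i ∈ S \ J, a i else 0) * ∏ i ∈ J, x i =
          ∑ J, (if J ⊂ S then c S * ((∏ i ∈ J, x i) * ∏ i ∈ S \ J, a i) else 0) := by
        refine Finset.sum_congr rfl fun J _ => ?_
        split_ifs
        · ring
        · ring
      rw [h4, ← Finset.sum_filter]
      refine Finset.sum_congr ?_ fun _ _ => rfl
      ext J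
      simp [Finset.mem_ssubsets]
    have h5 : G x + G (x + a) = ∑ S, ∑ J, (if J ⊂ S then c S * ∏ i ∈ S \ J, a i else 0) * ∏ i ∈ J, x i := by
      rw [hG, hG, Finset.sum_congr rfl fun S _ => h1 S, Finset.sum_add_distrib, ← add_assoc,
        CharTwo.add_self_eq_zero, zero_add]
    change G x + G (x + a) = _
    rw [h5, Finset.sum_comm]
    refine Finset.sum_congr rfl fun J _ => ?_
    rw [Finset.sum_mul]

/-- A polynomial function of degree `0` is constant. -/
theorem IsPoly.const {K : Type*} [Field K] {n : ℕ} {G : (Fin n → K) → K} (h : IsPoly 0 G) (x y : Fin n → K) :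
    G x = G y := by
  obtain ⟨c, hc, hG⟩ := h
  have h1 : ∀ x, G x = c ∅ := by
    intro x
    rw [hG, Finset.sum_eq_single ∅]
    · simp
    · intro S _ hS
      rw [hc S (Finset.card_pos.2 (Finset.nonempty_iff_ne_empty.2 hS)), zero_mul]
    · intro h
      exact absurd (Finset.mem_univ _) h
  rw [h1, h1]

/-- A polynomial function of degree at most one is affine: `G v - G 0` is linear. -/
theorem IsPoly.affine {K : Type*} [Field K] {n : ℕ} {G : (Fin n → K) → K} (h : IsPoly 1 G) :
    ∃ l : Fin n → K, ∀ x, G x = G 0 + ∑ i, l i * x i := by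
  classical
  obtain ⟨c, hc, hG⟩ := h
  have h1 : ∀ x, G x = c ∅ + ∑ i, c {i} * x i := by
    intro x
    rw [hG]
    have h2 : ∑ S ∈ insert ∅ (Finset.univ.image (fun i : Fin n => ({i} : Finset (Fin n)))),
        c S * ∏ i ∈ S, x i = ∑ S, c S * ∏ i ∈ S, x i := by
      refine Finset.sum_subset (Finset.subset_univ _) fun S _ hS => ?_
      rw [hc S, zero_mul]
      by_contra hcard
      push Not at hcard
      apply hS
      rcases Nat.le_one_iff_eq_zero_or_eq_one.1 hcard with h | h
      · rw [Finset.card_eq_zero.1 h]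
        exact Finset.mem_insert_self _ _
      · obtain ⟨i, rfl⟩ := Finset.card_eq_one.1 h
        exact Finset.mem_insert_of_mem (Finset.mem_image_of_mem _ (Finset.mem_univ i))
    rw [← h2, Finset.sum_insert, Finset.sum_image]
    · simp
    · intro i _ j _ hij
      exact Finset.singleton_injective hij
    · simp
  refine ⟨fun i => c {i}, fun x => ?_⟩
  rw [h1 x, h1 0]
  simp

/-- PROOF. By `dm_cons'` and `IsPoly.deriv`, for `m.card = d` the function `dm m G` is `IsPoly 1` (if `G` is `IsPoly (d+1)`).
`dm (v ::ₘ m) G 0 = dm m G 0 + dm m G v` (`dm_cons`) `= ∑ i, l i * v i` by `IsPoly.affine` (characteristic two). -/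
theorem IsPoly.isForm {K : Type*} [Field K] [CharP K 2] {n d : ℕ} {G : (Fin n → K) → K} (h : IsPoly (d + 1) G) :
    IsForm K (d + 1) (fun m => dm m G 0) := by
  have key : ∀ (m : Multiset (Fin n → K)) (k : ℕ) (G : (Fin n → K) → K),
      IsPoly (m.card + k) G → IsPoly k (dm m G) := by
    intro m
    induction m using Multiset.induction_on with
    | empty =>
      intro k G hG
      have h1 : dm 0 G = G := funext fun x => dm_zero G x
      rw [h1]
      simpa using hG
    | cons a m ih =>
      intro k G hG
      have h1 : dm (a ::ₘ m) G = dm m (fun y => G y + G (y + a)) := funext fun x => dm_cons' a m G x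
      rw [h1]
      apply ih
      apply IsPoly.deriv
      rw [Multiset.card_cons] at hG
      convert hG using 1
      ring
  have key2 : ∀ m : Multiset (Fin n → K), m.card = d → ∃ l : Fin n → K, ∀ v,
      dm (v ::ₘ m) G 0 = ∑ i, l i * v i := by
    intro m hm
    obtain ⟨l, hl⟩ := (key m 1 G (by rw [hm]; exact h)).affine
    refine ⟨l, fun v => ?_⟩
    rw [dm_cons, zero_add, hl v, ← add_assoc, CharTwo.add_self_eq_zero, zero_add]
  constructor
  · intro m v w hm
    obtain ⟨l, hl⟩ := key2 m (by omega)
    simp only [hl, Pi.add_apply, mul_add, Finset.sum_add_distrib]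
  · intro m c v hm
    obtain ⟨l, hl⟩ := key2 m (by omega)
    simp only [hl, Pi.smul_apply, smul_eq_mul, Finset.mul_sum]
    refine Finset.sum_congr rfl fun i _ => ?_
    ring

end Pool.Agent.XLR
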