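import Pool.Agent.Work.MP_218513_lc.Defs

/-! MP_218513_lc, modules PowRank and Descent. -/

set_option autoImplicit false

namespace Pool.Agent.XLR

open Module

private lemma emb_add {n : ℕ} {K : Type*} [Field K] [Algebra (ZMod 2) K] (v w : Fin n → ZMod 2) :
    emb K (v + w) = emb K v + emb K w := by
  funext i
  simp [emb]

private lemma emb_smul {n : ℕ} {K : Type*} [Field K] [Algebra (ZMod 2) K] (c : ZMod 2)
    (v : Fin n → ZMod 2) : emb K (c • v) = algebraMap (ZMod 2) K c • emb K v := by
  funext i
  simp [emb]

private lemma emb_eq_sum {n : ℕ} {K : Type*} [Field K] [Algebra (ZMod 2) K]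
    (v : Fin n → ZMod 2) :
    emb K v = ∑ i, algebraMap (ZMod 2) K (v i) • (Pi.single i 1 : Fin n → K) := by
  funext j
  simp only [emb, Finset.sum_apply, Pi.smul_apply, Pi.single_apply, smul_eq_mul, mul_ite, mul_one,
    mul_zero, Finset.sum_ite_eq, Finset.mem_univ, if_true]

/-- PROOF. The vectors `M (e i)` (`e i = Pi.single i 1 = emb K (Pi.single i 1)`) span `range M`; choose `I : Finset (Fin n)` such that
`(M (e i))_{i ∈ I}` is a basis of `range M` (`exists_linearIndependent`), so `I.card = finrank (range M)`. The `2 ^ I.card`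
subset sums `∑_{i ∈ J} M (e i) = M (emb K (indicator of J))`, `J ⊆ I`, are distinct by linear independence. -/
theorem pow_rank_le {n : ℕ} {K U : Type*} [Field K] [Algebra (ZMod 2) K] [AddCommGroup U] [Module K U]
    (M : (Fin n → K) →ₗ[K] U) (N : ℕ)
    (hN : (Set.range (fun v : Fin n → ZMod 2 => M (emb K v))).ncard ≤ N) :
    2 ^ finrank K (LinearMap.range M) ≤ N := by
  classical
  set e : Fin n → U := fun i => M (Pi.single i 1) with he
  obtain ⟨κ, a, hinj, hspan, hli⟩ := exists_linearIndependent' K e
  have : Finite κ := Finite.of_injective a hinj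
  let _i : Fintype κ := Fintype.ofFinite κ
  have hrange : LinearMap.range M = Submodule.span K (Set.range e) := by
    apply le_antisymm
    · rintro u ⟨x, rfl⟩
      have hx : x = ∑ i, x i • (Pi.single i 1 : Fin n → K) := by
        funext j
        simp [Finset.sum_apply, Pi.single_apply]
      rw [hx, map_sum]
      refine Submodule.sum_mem _ fun i _ => ?_
      rw [map_smul]
      exact Submodule.smul_mem _ _ (Submodule.subset_span ⟨i, rfl⟩)
    · rw [Submodule.span_le]
      rintro u ⟨i, rfl⟩
      exact ⟨_, rfl⟩
  have hfr : finrank K (LinearMap.range M) = Fintype.card κ := by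
    rw [hrange, ← hspan, finrank_span_eq_card hli]
  -- the injection
  set ext : (κ → ZMod 2) → (Fin n → ZMod 2) :=
    fun c i => ∑ k, if a k = i then c k else 0 with hext
  have hM : ∀ c : κ → ZMod 2, M (emb K (ext c)) = ∑ k, algebraMap (ZMod 2) K (c k) • e (a k) := by
    intro c
    rw [emb_eq_sum, map_sum]
    simp only [map_smul, hext, map_sum, Finset.sum_smul]
    rw [Finset.sum_comm]
    refine Finset.sum_congr rfl fun k _ => ?_
    rw [Finset.sum_eq_single (a k)]
    · simp [he]
    · intro i _ hi
      rw [if_neg (Ne.symm hi)]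
      simp
    · intro h
      exact absurd (Finset.mem_univ _) h
  have hinj2 : Function.Injective (fun c : κ → ZMod 2 => M (emb K (ext c))) := by
    intro c c' hcc
    simp only [hM] at hcc
    have h1 : ∑ k, (algebraMap (ZMod 2) K (c k) - algebraMap (ZMod 2) K (c' k)) • (e ∘ a) k = 0 := by
      simp only [sub_smul, Finset.sum_sub_distrib, Function.comp_apply]
      rw [hcc, sub_self]
    have h2 := Fintype.linearIndependent_iff.1 hli _ h1
    funext k
    have h3 := h2 k
    rw [sub_eq_zero] at h3
    exact (algebraMap (ZMod 2) K).injective h3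
  have h1 : (Set.range (fun c : κ → ZMod 2 => M (emb K (ext c)))).ncard = 2 ^ Fintype.card κ := by
    rw [← Set.image_univ, Set.ncard_image_of_injective _ hinj2, Set.ncard_univ,
      Nat.card_eq_fintype_card, Fintype.card_fun, ZMod.card]
  have h2 : Set.range (fun c : κ → ZMod 2 => M (emb K (ext c))) ⊆
      Set.range (fun v : Fin n → ZMod 2 => M (emb K v)) := by
    rintro u ⟨c, rfl⟩
    exact ⟨ext c, rfl⟩
  have h3 := Set.ncard_le_ncard h2 (Set.finite_range _)
  rw [hfr, ← h1]
  exact h3.trans hN

/-- PROOF. The map `Φ : (Fin n → ZMod 2) → range M`, `v ↦ M (emb K v)` is `ZMod 2`-linear; `V = ker Φ`;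
`n = dim V + rank Φ` and `rank Φ ≤ finrank (ZMod 2) (range M) = finrank (ZMod 2) K * finrank K (range M)`. -/
theorem descent {n : ℕ} {K U : Type*} [Field K] [Algebra (ZMod 2) K] [FiniteDimensional (ZMod 2) K]
    [AddCommGroup U] [Module K U] (M : (Fin n → K) →ₗ[K] U) :
    ∃ V : Submodule (ZMod 2) (Fin n → ZMod 2), (∀ v, v ∈ V ↔ M (emb K v) = 0) ∧
      n ≤ finrank (ZMod 2) V + finrank (ZMod 2) K * finrank K (LinearMap.range M) := by
  let _i : Module (ZMod 2) (LinearMap.range M) := Module.compHom _ (algebraMap (ZMod 2) K)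
  have : IsScalarTower (ZMod 2) K (LinearMap.range M) := by
    refine ⟨fun c x u => ?_⟩
    rw [Algebra.smul_def, mul_smul]
    rfl
  have : Module.Finite (ZMod 2) (LinearMap.range M) := Module.Finite.trans K (LinearMap.range M)
  set Φ : (Fin n → ZMod 2) →ₗ[ZMod 2] LinearMap.range M :=
    { toFun := fun v => ⟨M (emb K v), ⟨_, rfl⟩⟩
      map_add' := by
        intro v w
        apply Subtype.ext
        simp only [emb_add, map_add, Submodule.coe_add]
      map_smul' := by
        intro c v
        apply Subtype.ext
        simp only [emb_smul, map_smul, RingHom.id_apply]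
        rfl } with hΦ
  refine ⟨LinearMap.ker Φ, ?_, ?_⟩
  · intro v
    rw [LinearMap.mem_ker]
    constructor
    · intro h
      exact congrArg Subtype.val h
    · intro h
      exact Subtype.ext h
  · have h1 := LinearMap.finrank_range_add_finrank_ker Φ
    rw [Module.finrank_fin_fun] at h1
    have h2 : finrank (ZMod 2) (LinearMap.range Φ) ≤ finrank (ZMod 2) (LinearMap.range M) :=
      Submodule.finrank_le _
    have h3 : finrank (ZMod 2) K * finrank K (LinearMap.range M) =
        finrank (ZMod 2) (LinearMap.range M) := Module.finrank_mul_finrank _ _ _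
    omega

end Pool.Agent.XLR
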