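import Pool.Agent.Work.MP_218513_lc.RankIneq

/-! MP_218513_lc, module OneSlot: if all subset sums of a family of linear maps over a field of
characteristic two have rank at most `r`, then all linear combinations have rank at most `4 r`.

PROOF. Strong induction on `r` (for all `X`, `Y`, `A` simultaneously). Choose `S₀ : Finset ι` with `rank (∑_{S₀} A)`
maximal, `M = ∑_{S₀} A`, `r₁ = rank M ≤ r`. If `r₁ = 0` all subset sums are zero, in particular all `A i = 0`
(take `S = {i}`), so the conclusion is trivial. Otherwise put `X' = ker M`, `Y' = Y ⧸ range M`,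
`A' i = mkQ ∘ A i ∘ subtype`. For every `S`, with `N = ∑_S A`, `N + M = ∑_{S ∆ S₀} A` (characteristic two), so
`rank_ineq` gives `r₁ + 2 rank (∑_S A') ≤ rank N + rank (N+M) ≤ 2 r₁`, i.e. `rank (∑_S A') ≤ r₁ / 2 < r₁ ≤ r`.
By induction all `rank (∑ c i • A' i) ≤ 4 (r₁ / 2) ≤ 2 r₁`, and `rank_le_compress` gives
`rank (∑ c i • A i) ≤ 2 r₁ + 2 r₁ ≤ 4 r`. -/

set_option autoImplicit false

namespace Pool.Agent.XLR

open Module

universe u v w

private theorem os_symm {K : Type u} [Field K] [CharP K 2] {ι : Type v} [DecidableEq ι]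
    {V : Type w} [AddCommGroup V] [Module K V] (A : ι → V) (S T : Finset ι) :
    (∑ i ∈ S, A i) + (∑ i ∈ T, A i) = ∑ i ∈ symmDiff S T, A i := by
  have h2 : ∀ v : V, v + v = 0 := by
    intro v
    have : (2 : K) • v = 0 := by
      have h0 : (2 : K) = 0 := CharTwo.two_eq_zero
      rw [h0, zero_smul]
    rwa [two_smul] at this
  have hS : ∑ i ∈ S, A i = ∑ i ∈ S \ T, A i + ∑ i ∈ S ∩ T, A i := by
    rw [← Finset.sum_union (Finset.disjoint_left.mpr (by
      intro a ha hb
      exact (Finset.mem_sdiff.mp ha).2 (Finset.mem_inter.mp hb).2)), Finset.sdiff_union_inter]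
  have hT : ∑ i ∈ T, A i = ∑ i ∈ T \ S, A i + ∑ i ∈ S ∩ T, A i := by
    rw [← Finset.sum_union (Finset.disjoint_left.mpr (by
      intro a ha hb
      exact (Finset.mem_sdiff.mp ha).2 (Finset.mem_inter.mp hb).1)), Finset.inter_comm S T,
      Finset.sdiff_union_inter]
  have hST : ∑ i ∈ symmDiff S T, A i = ∑ i ∈ S \ T, A i + ∑ i ∈ T \ S, A i := by
    rw [← Finset.sum_union (Finset.disjoint_left.mpr (by
      intro a ha hb
      exact (Finset.mem_sdiff.mp ha).2 (Finset.mem_sdiff.mp hb).1))]
    rfl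
  rw [hS, hT, hST]
  have := h2 (∑ i ∈ S ∩ T, A i)
  calc ∑ i ∈ S \ T, A i + ∑ i ∈ S ∩ T, A i + (∑ i ∈ T \ S, A i + ∑ i ∈ S ∩ T, A i)
      = ∑ i ∈ S \ T, A i + ∑ i ∈ T \ S, A i + (∑ i ∈ S ∩ T, A i + ∑ i ∈ S ∩ T, A i) := by abel
    _ = _ := by rw [this, add_zero]

theorem one_slot {K : Type u} [Field K] [CharP K 2] {ι : Type v} [Fintype ι] [DecidableEq ι] (r : ℕ) :
    ∀ (X Y : Type w) [AddCommGroup X] [Module K X] [AddCommGroup Y] [Module K Y]
      [FiniteDimensional K X] [FiniteDimensional K Y] (A : ι → (X →ₗ[K] Y)),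
      (∀ S : Finset ι, finrank K (LinearMap.range (∑ i ∈ S, A i)) ≤ r) →
      ∀ c : ι → K, finrank K (LinearMap.range (∑ i, c i • A i)) ≤ 4 * r := by
  induction r using Nat.strong_induction_on with
  | _ r ih =>
    intro X Y _ _ _ _ _ _ A hA c
    obtain ⟨S₀, -, hmax⟩ := Finset.exists_max_image (Finset.univ : Finset (Finset ι))
      (fun S => finrank K (LinearMap.range (∑ i ∈ S, A i))) ⟨∅, Finset.mem_univ _⟩
    set M : X →ₗ[K] Y := ∑ i ∈ S₀, A i with hM
    have hr₁ : finrank K (LinearMap.range M) ≤ r := hA S₀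
    have hle : ∀ S : Finset ι, finrank K (LinearMap.range (∑ i ∈ S, A i))
        ≤ finrank K (LinearMap.range M) := fun S => hmax S (Finset.mem_univ _)
    rcases Nat.eq_zero_or_pos (finrank K (LinearMap.range M)) with h0 | hpos
    · have hz : ∀ i, A i = 0 := by
        intro i
        have h1 := hle {i}
        rw [Finset.sum_singleton, h0, Nat.le_zero, Submodule.finrank_eq_zero,
          LinearMap.range_eq_bot] at h1
        exact h1
      have : (∑ i, c i • A i) = 0 := by
        apply Finset.sum_eq_zero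
        intro i _
        rw [hz i, smul_zero]
      rw [this, LinearMap.range_zero, finrank_bot]
      exact Nat.zero_le _
    · set B : ι → (LinearMap.ker M →ₗ[K] (Y ⧸ LinearMap.range M)) :=
        fun i => (LinearMap.range M).mkQ ∘ₗ A i ∘ₗ (LinearMap.ker M).subtype with hB
      have hsum : ∀ (s : Finset ι) (a : ι → K), ∑ i ∈ s, a i • B i
          = (LinearMap.range M).mkQ ∘ₗ (∑ i ∈ s, a i • A i) ∘ₗ (LinearMap.ker M).subtype := by
        intro s a
        ext x
        simp [hB, LinearMap.sum_apply]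
      have hsum1 : ∀ (s : Finset ι), ∑ i ∈ s, B i
          = (LinearMap.range M).mkQ ∘ₗ (∑ i ∈ s, A i) ∘ₗ (LinearMap.ker M).subtype := by
        intro s
        have := hsum s (fun _ => 1)
        simpa only [one_smul] using this
      have hS : ∀ S : Finset ι, finrank K (LinearMap.range (∑ i ∈ S, B i))
          ≤ finrank K (LinearMap.range M) / 2 := by
        intro S
        have h1 := rank_ineq M (∑ i ∈ S, A i)
        have h2 := hle S
        have h3 := hle (symmDiff S S₀)
        rw [← os_symm (K := K) A S S₀, ← hM] at h3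
        rw [hsum1 S]
        omega
      have h4 := ih (finrank K (LinearMap.range M) / 2) (by omega) _ _ B hS c
      have h5 := rank_le_compress M (∑ i, c i • A i)
      rw [hsum Finset.univ c] at h4
      omega

end Pool.Agent.XLR
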