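import Pool.Agent.Work.MP_218513_lc.Defs
import Pool.Agent.Work.MP_218513_lc.OneSlot

/-! MP_218513_lc, module RankAll: from `F_2`-points to `K`-points.

PROOF. By induction on `j`: if `b = bK + b₂.map (emb K)` with `bK.card = j` and total size `d`, then
`rank (bil K T b) ≤ 4^j * r`. For `j = 0` this is the hypothesis. Step: `bK = v ::ₘ bK'`, put `b' = bK' + b₂.map (emb K)`
and `e i = emb K (Pi.single i 1) = Pi.single i 1`, `A i = bil K T (e i ::ₘ b')`. Since `v = ∑ i, v i • e i` and `T` is linear
in that slot, `bil K T (v ::ₘ b') = ∑ i, v i • A i`. For `S : Finset (Fin n)`,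
`∑_{i ∈ S} A i = bil K T (emb K (∑_{i ∈ S} Pi.single i 1) ::ₘ b')` has rank `≤ 4^j * r` by the induction hypothesis
(one more `F_2`-point), so `one_slot` gives `rank ≤ 4 * (4^j * r)`. Finally take `j = d`, `b₂ = 0`. -/

set_option autoImplicit false

namespace Pool.Agent.XLR

open Module

theorem rank_all {n : ℕ} {K : Type*} [Field K] [Algebra (ZMod 2) K] [CharP K 2] (d : ℕ)
    (T : Multiset (Fin n → K) → K) (hT : IsForm K (d + 2) T) (r : ℕ)
    (h : ∀ b : Multiset (Fin n → ZMod 2), b.card = d →
      finrank K (LinearMap.range (bil K T (b.map (emb K)))) ≤ r) :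
    ∀ b : Multiset (Fin n → K), b.card = d → finrank K (LinearMap.range (bil K T b)) ≤ 4 ^ d * r := by
  have key : ∀ (j : ℕ) (bK : Multiset (Fin n → K)) (b₂ : Multiset (Fin n → ZMod 2)),
      bK.card = j → j + b₂.card = d →
      finrank K (LinearMap.range (bil K T (bK + b₂.map (emb K)))) ≤ 4 ^ j * r := by
    intro j
    induction j with
    | zero =>
      intro bK b₂ h1 h2
      have h3 : bK = 0 := Multiset.card_eq_zero.mp h1
      subst h3
      have h4 := h b₂ (by simpa using h2)
      rw [zero_add, pow_zero, one_mul]
      exact h4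
    | succ j ih =>
      intro bK b₂ h1 h2
      obtain ⟨v, hv0⟩ := Multiset.card_pos_iff_exists_mem.mp (show 0 < bK.card by omega)
      obtain ⟨bK', hv⟩ := Multiset.exists_cons_of_mem hv0
      subst hv
      have hc : bK'.card = j := by
        rw [Multiset.card_cons] at h1
        omega
      rw [Multiset.cons_add]
      set b' : Multiset (Fin n → K) := bK' + b₂.map (emb K) with hb'
      have hcard : b'.card + 1 = d := by
        rw [hb', Multiset.card_add, Multiset.card_map]
        omega
      have hlin : ∀ (s : Finset (Fin n)) (c : Fin n → K) (e : Fin n → (Fin n → K)),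
          bil K T ((∑ i ∈ s, c i • e i) ::ₘ b') = ∑ i ∈ s, c i • bil K T (e i ::ₘ b') := by
        intro s c e
        have happ : ∀ u x w : Fin n → K, bil K T (u ::ₘ b') x w = T (u ::ₘ x ::ₘ w ::ₘ b') := by
          intro u x w
          have hT' : IsForm K ((u ::ₘ b').card + 2) T := by
            rw [Multiset.card_cons, hcard]
            exact hT
          rw [bil_apply hT', Multiset.cons_swap w u, Multiset.cons_swap x u]
        refine LinearMap.ext fun x => LinearMap.ext fun w => ?_
        let φ : (Fin n → K) →ₗ[K] K :=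
          { toFun := fun u => T (u ::ₘ x ::ₘ w ::ₘ b')
            map_add' := fun u u' => hT.add (x ::ₘ w ::ₘ b') u u' (by
              rw [Multiset.card_cons, Multiset.card_cons]; omega)
            map_smul' := fun a u => hT.smul (x ::ₘ w ::ₘ b') a u (by
              rw [Multiset.card_cons, Multiset.card_cons]; omega) }
        have h1 : bil K T ((∑ i ∈ s, c i • e i) ::ₘ b') x w = φ (∑ i ∈ s, c i • e i) := happ _ _ _
        have h2 : ∀ i, bil K T (e i ::ₘ b') x w = φ (e i) := fun i => happ _ _ _
        rw [h1, map_sum, LinearMap.sum_apply, LinearMap.sum_apply]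
        refine Finset.sum_congr rfl fun i _ => ?_
        rw [map_smul, LinearMap.smul_apply, LinearMap.smul_apply, h2]
      have hv : v = ∑ i, v i • emb K (Pi.single i 1) := by
        funext k
        rw [Finset.sum_apply, Finset.sum_eq_single k]
        · simp [emb]
        · intro i _ hik
          simp [emb, Pi.single_eq_of_ne (Ne.symm hik)]
        · intro hk
          exact absurd (Finset.mem_univ k) hk
      have hemb : ∀ S : Finset (Fin n), ∑ i ∈ S, (1 : K) • emb K (Pi.single i 1 : Fin n → ZMod 2)
          = emb K (∑ i ∈ S, (Pi.single i 1 : Fin n → ZMod 2)) := by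
        intro S
        funext k
        rw [Finset.sum_apply]
        simp only [emb, Pi.smul_apply, one_smul, Finset.sum_apply, map_sum]
      have hS : ∀ S : Finset (Fin n), finrank K (LinearMap.range
          (∑ i ∈ S, bil K T (emb K (Pi.single i 1) ::ₘ b'))) ≤ 4 ^ j * r := by
        intro S
        have h3 := hlin S (fun _ => 1) (fun i => emb K (Pi.single i 1))
        simp only [hemb] at h3
        simp only [one_smul] at h3
        rw [← h3]
        have h4 := ih bK' ((∑ i ∈ S, (Pi.single i 1 : Fin n → ZMod 2)) ::ₘ b₂) hc (by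
          rw [Multiset.card_cons]; omega)
        rw [Multiset.map_cons, Multiset.add_cons] at h4
        exact h4
      have h5 := one_slot (4 ^ j * r) (Fin n → K) ((Fin n → K) →ₗ[K] K)
        (fun i => bil K T (emb K (Pi.single i 1) ::ₘ b')) hS v
      have h6 := hlin Finset.univ v (fun i => emb K (Pi.single i 1))
      rw [← hv] at h6
      rw [h6]
      calc _ ≤ 4 * (4 ^ j * r) := h5
        _ = 4 ^ (j + 1) * r := by ring
  intro b hb
  have h7 := key d b 0 hb (by simp)
  rw [Multiset.map_zero, add_zero] at h7
  exact h7

end Pool.Agent.XLR
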