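import Pool.Agent.Work.MP_218513_lc.Vanish
import Pool.Agent.Work.MP_218513_lc.RankAll
import Pool.Agent.Work.MP_218513_lc.PowRank
import Pool.Agent.Work.MP_218513_lc.PolyForm
import Pool.Agent.Work.MP_218513_lc.Mobius
import Pool.Agent.Work.MP_218513_lc.Norm
import Pool.Agent.Work.MP_218513_lc.Tree

/-! MP_218513_lc: a sparse function of degree `d + 2` has degree at most `d + 1` on all cosets of a
subspace of small codimension. -/

set_option autoImplicit false

namespace Pool.Agent.XLR

open Module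

theorem zmod2_add_self (a : ZMod 2) : a + a = 0 := by revert a; decide

theorem emb_add {K : Type*} [Field K] [Algebra (ZMod 2) K] {n : ℕ} (v w : Fin n → ZMod 2) :
    emb K (v + w) = emb K v + emb K w := by
  funext i; simp [emb]

theorem emb_zero {K : Type*} [Field K] [Algebra (ZMod 2) K] {n : ℕ} :
    emb K (0 : Fin n → ZMod 2) = 0 := by
  funext i; simp [emb]

theorem emb_single {K : Type*} [Field K] [Algebra (ZMod 2) K] {n : ℕ} (i : Fin n) :
    emb K (Pi.single i (1 : ZMod 2)) = Pi.single i (1 : K) := by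
  funext j
  by_cases h : j = i
  · subst h; simp [emb]
  · simp [emb, Pi.single_eq_of_ne h]

/-- Iterated derivatives commute with the embedding. -/
theorem dm_emb {K : Type*} [Field K] [Algebra (ZMod 2) K] {n : ℕ} (F : (Fin n → ZMod 2) → ZMod 2)
    (G : (Fin n → K) → K) (hG : ∀ x, G (emb K x) = algebraMap (ZMod 2) K (F x))
    (m : Multiset (Fin n → ZMod 2)) (x : Fin n → ZMod 2) :
    dm (m.map (emb K)) G (emb K x) = algebraMap (ZMod 2) K (dm m F x) := by
  induction m using Multiset.induction_on generalizing x with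
  | empty => simp [dm_zero, hG]
  | cons a m ih =>
    rw [Multiset.map_cons, dm_cons, dm_cons, ih, ← emb_add, ih, map_add]

/-- If all `(k+1)`-fold derivatives vanish then `k`-fold derivatives are constant. -/
theorem dm_const {n k : ℕ} (F : (Fin n → ZMod 2) → ZMod 2)
    (hF : ∀ m : Multiset (Fin n → ZMod 2), m.card = k + 1 → ∀ x, dm m F x = 0)
    (m : Multiset (Fin n → ZMod 2)) (hm : m.card = k) (x : Fin n → ZMod 2) : dm m F x = dm m F 0 := by
  have h := hF (x ::ₘ m) (by simp [hm]) 0
  rw [dm_cons, zero_add] at h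
  have h2 : dm m F x = - dm m F 0 := by
    rw [add_comm] at h; exact eq_neg_of_add_eq_zero_left h
  rw [h2]; exact ZMod.neg_eq_self_mod_two _

theorem exists_kill {n d Λ : ℕ} (F : (Fin n → ZMod 2) → ZMod 2)
    (hF : ∀ m : Multiset (Fin n → ZMod 2), m.card = d + 3 → ∀ x, dm m F x = 0)
    (hs : nrm (fun x => sg (F x)) ^ 2 ≤ 2 ^ Λ * 4 ^ n) :
    ∃ V : Submodule (ZMod 2) (Fin n → ZMod 2),
      n ≤ finrank (ZMod 2) V + (Nat.log 2 (8 ^ d * Λ + 2) + 1) * (8 ^ d * Λ) ∧
      ∀ m : Multiset (Fin n → ZMod 2), m.card = d + 2 → (∀ v ∈ m, v ∈ V) → ∀ x, dm m F x = 0 := by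
  classical
  set μ := Nat.log 2 (8 ^ d * Λ + 2) + 1 with hμ
  set K := GaloisField 2 μ with hKdef
  have : Fintype K := Fintype.ofFinite K
  have : CharP K 2 := inferInstance
  have hμ0 : μ ≠ 0 := by omega
  have hcard : Fintype.card K = 2 ^ μ := by
    rw [← Nat.card_eq_fintype_card]; exact GaloisField.card 2 μ hμ0
  have hcard3 : 8 ^ d * Λ + 3 ≤ Fintype.card K := by
    rw [hcard, hμ]
    have := Nat.lt_pow_succ_log_self (b := 2) (by norm_num) (8 ^ d * Λ + 2)
    omega
  obtain ⟨G, hGpoly, hG⟩ := exists_poly K (d + 2) F hF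
  set T : Multiset (Fin n → K) → K := fun m => dm m G 0 with hTdef
  have hT : IsForm K (d + 2) T := IsPoly.isForm (K := K) (d := d + 1) hGpoly
  have hTemb : ∀ m : Multiset (Fin n → ZMod 2), T (m.map (emb K)) = algebraMap (ZMod 2) K (dm m F 0) := by
    intro m
    have := dm_emb F G hG m 0
    rw [emb_zero] at this
    exact this
  -- slices at F_2 points
  have hF2 : ∀ b : Multiset (Fin n → ZMod 2), b.card = d →
      finrank K (LinearMap.range (bil K T (b.map (emb K)))) ≤ 2 ^ d * Λ := by
    intro b hb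
    have hTb : IsForm K ((b.map (emb K)).card + 2) T := by rw [Multiset.card_map, hb]; exact hT
    have hder : ∀ v : Fin n → ZMod 2, ∀ m : Multiset (Fin n → ZMod 2), m.card = 2 → ∀ x,
        dm m (dm (v ::ₘ b) F) x = 0 := by
      intro v m hm x
      rw [← dm_add]
      exact hF _ (by simp [hm, hb]; ring) x
    choose L hL using fun v => affine_repr (dm (v ::ₘ b) F) (hder v)
    have hQ : ∀ v x, dm b F (x + v) + dm b F x = L v ⬝ᵥ x + dm (v ::ₘ b) F 0 := by
      intro v x
      rw [← hL v x, dm_cons, add_comm]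
    have h1 := quad_image_nrm (dm b F) L (fun v => dm (v ::ₘ b) F 0) hQ
    have h2 := nrm_dm_le F hs b
    have h12 : (Set.range L).ncard ≤ (2 ^ Λ) ^ (2 ^ b.card) := by
      have h4n : (0 : ℤ) < 4 ^ n := by positivity
      have := le_of_mul_le_mul_right (h1.trans h2) h4n
      exact_mod_cast this
    have hval : ∀ v w : Fin n → ZMod 2,
        bil K T (b.map (emb K)) (emb K v) (emb K w) = algebraMap (ZMod 2) K (L v ⬝ᵥ w) := by
      intro v w
      rw [bil_apply hTb]
      have : (emb K v ::ₘ emb K w ::ₘ b.map (emb K)) = (w ::ₘ v ::ₘ b).map (emb K) := by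
        simp [Multiset.cons_swap]
      rw [this, hTemb, dm_cons, zero_add, hL v w]
      congr 1
      rw [add_comm (L v ⬝ᵥ w), ← add_assoc, zmod2_add_self, zero_add]
    have hdet : ∀ v v' : Fin n → ZMod 2, L v = L v' →
        bil K T (b.map (emb K)) (emb K v) = bil K T (b.map (emb K)) (emb K v') := by
      intro v v' h
      apply LinearMap.pi_ext'
      intro i
      ext
      simp only [LinearMap.coe_comp, LinearMap.coe_single, Function.comp_apply]
      rw [← emb_single, hval, hval, h]
    have hsub : (Set.range (fun v : Fin n → ZMod 2 => bil K T (b.map (emb K)) (emb K v))).ncard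
        ≤ (Set.range L).ncard := by
      have hfin : (Set.range L).Finite := Set.toFinite _
      choose! s hs' using fun (y : Fin n → ZMod 2) (hy : y ∈ Set.range L) => hy
      have : Set.range (fun v : Fin n → ZMod 2 => bil K T (b.map (emb K)) (emb K v))
          ⊆ (fun y => bil K T (b.map (emb K)) (emb K (s y))) '' (Set.range L) := by
        rintro _ ⟨v, rfl⟩
        refine ⟨L v, ⟨v, rfl⟩, ?_⟩
        exact hdet _ _ (hs' (L v) ⟨v, rfl⟩)
      exact (Set.ncard_le_ncard this (hfin.image _)).trans (Set.ncard_image_le hfin)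
    have h3 : (Set.range (fun v : Fin n → ZMod 2 => bil K T (b.map (emb K)) (emb K v))).ncard
        ≤ 2 ^ (2 ^ d * Λ) := by
      calc _ ≤ (Set.range L).ncard := hsub
        _ ≤ (2 ^ Λ) ^ (2 ^ d) := by rw [← hb]; exact h12
        _ = 2 ^ (2 ^ d * Λ) := by rw [← pow_mul, mul_comm]
    have h4 := pow_rank_le (bil K T (b.map (emb K))) _ h3
    exact (Nat.pow_le_pow_iff_right (by norm_num)).1 h4
  have hall : ∀ b : Multiset (Fin n → K), b.card = d →
      finrank K (LinearMap.range (bil K T b)) ≤ 8 ^ d * Λ := by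
    intro b hb
    have := rank_all d T hT (2 ^ d * Λ) hF2 b hb
    calc _ ≤ 4 ^ d * (2 ^ d * Λ) := this
      _ = 8 ^ d * Λ := by rw [← mul_assoc, ← mul_pow]; norm_num
  -- a tuple with maximal rank
  obtain ⟨b, hb, hbmax⟩ : ∃ b : Multiset (Fin n → K), b.card = d ∧
      ∀ b' : Multiset (Fin n → K), b'.card = d →
        finrank K (LinearMap.range (bil K T b')) ≤ finrank K (LinearMap.range (bil K T b)) := by
    let S : Set ℕ := {k | ∃ b : Multiset (Fin n → K), b.card = d ∧ finrank K (LinearMap.range (bil K T b)) = k}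
    have hne : S.Nonempty := ⟨_, Multiset.replicate d 0, by simp, rfl⟩
    have hbdd : BddAbove S := ⟨8 ^ d * Λ, by rintro k ⟨b, hb, rfl⟩; exact hall b hb⟩
    obtain ⟨b, hb, hbk⟩ := Nat.sSup_mem hne hbdd
    refine ⟨b, hb, fun b' hb' => ?_⟩
    rw [hbk]
    exact le_csSup hbdd ⟨b', hb', rfl⟩
  set ρ := finrank K (LinearMap.range (bil K T b)) with hρ
  have hρle : ρ ≤ 8 ^ d * Λ := hall b hb
  have hvan := vanish_of_max d T hT ρ (by omega) hbmax b hb rfl
  have : FiniteDimensional (ZMod 2) K := inferInstance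
  obtain ⟨V, hV, hVdim⟩ := descent (bil K T b)
  refine ⟨V, ?_, ?_⟩
  · have hfr : finrank (ZMod 2) K = μ := GaloisField.finrank 2 hμ0
    rw [hfr] at hVdim
    calc n ≤ finrank (ZMod 2) V + μ * ρ := hVdim
      _ ≤ finrank (ZMod 2) V + μ * (8 ^ d * Λ) := by gcongr
  · intro m hm hmV x
    rw [dm_const F (fun m hm => hF m hm) m hm x]
    obtain ⟨y, m', rfl⟩ : ∃ y m', m = y ::ₘ m' := by
      have : m ≠ 0 := by
        rintro rfl; simp at hm
      obtain ⟨y, hy⟩ := Multiset.exists_mem_of_ne_zero this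
      exact ⟨y, m.erase y, (Multiset.cons_erase hy).symm⟩
    have h0 : T ((y ::ₘ m').map (emb K)) = 0 := by
      rw [Multiset.map_cons]
      apply hvan
      · rw [Multiset.card_map]; simpa using hm
      · intro z hz
        obtain ⟨v, hv, rfl⟩ := Multiset.mem_map.1 hz
        exact LinearMap.mem_ker.2 ((hV v).1 (hmV v (Multiset.mem_cons_of_mem hv)))
    rw [hTemb] at h0
    exact (map_eq_zero_iff _ (algebraMap (ZMod 2) K).injective).1 h0

end Pool.Agent.XLR
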