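import Mathlib

/-! MP_218513_lc, module Pencil: linear pencils over a large finite field. -/

set_option autoImplicit false

namespace Pool.Agent.XLR

open Module

/-- PROOF. The map `(Fin k → K) → Y`, `e_i ↦ u i` is injective, so it has a left inverse `g : Y → (Fin k → K)` with
`g (u i) = e_i`. Let `B : Matrix (Fin k) (Fin k) K`, `B i = g (w i)`. The polynomial
`p = det (X • B.map C + (1 : Matrix).map C)` has `natDegree ≤ k` (`Polynomial.natDegree_det_X_add_C_le`) and
`p.eval 0 = 1`, so it has at most `k` roots; there are `card K - 1 ≥ k + 1` nonzero elements of `K`, so for some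
`t ≠ 0`, `p.eval t = det (t • B + 1) ≠ 0`; then the vectors `g (u i + t • w i)` (the rows) are linearly independent,
hence so are the `u i + t • w i`. -/
theorem exists_indep {K Y : Type*} [Field K] [Fintype K] [AddCommGroup Y] [Module K Y] {k : ℕ}
    (u w : Fin k → Y) (hu : LinearIndependent K u) (hK : k + 2 ≤ Fintype.card K) :
    ∃ t : K, t ≠ 0 ∧ LinearIndependent K (fun i => u i + t • w i) := by
  classical
  -- left inverse
  have hinj : LinearMap.ker (Fintype.linearCombination K u) = ⊥ := by
    rw [LinearMap.ker_eq_bot']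
    intro c hc
    rw [Fintype.linearCombination_apply] at hc
    rw [Fintype.linearIndependent_iff] at hu
    funext i
    exact hu c hc i
  obtain ⟨g, hg⟩ := LinearMap.exists_leftInverse_of_injective _ hinj
  have hgu : ∀ i, g (u i) = Pi.single i 1 := by
    intro i
    have h1 := congrArg (fun f : (Fin k → K) →ₗ[K] (Fin k → K) => f (Pi.single i 1)) hg
    simpa [Fintype.linearCombination_apply_single] using h1
  set B : Matrix (Fin k) (Fin k) K := Matrix.of fun i => g (w i) with hB
  set P : Polynomial K :=
    ((Polynomial.X : Polynomial K) • B.map Polynomial.C +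
      (1 : Matrix (Fin k) (Fin k) K).map Polynomial.C).det with hP
  have hev : ∀ s : K, P.eval s = (1 + s • B).det := by
    intro s
    have h := (Polynomial.evalRingHom s).map_det
      ((Polynomial.X : Polynomial K) • B.map Polynomial.C +
        (1 : Matrix (Fin k) (Fin k) K).map Polynomial.C)
    rw [Polynomial.coe_evalRingHom] at h
    rw [hP, h]
    congr 1
    ext i j
    simp only [RingHom.mapMatrix_apply, Matrix.map_apply, Matrix.add_apply, Matrix.smul_apply,
      smul_eq_mul, map_add, Polynomial.coe_evalRingHom, Polynomial.eval_mul,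
      Polynomial.eval_X, Polynomial.eval_C]
    ring
  have hne : P ≠ 0 := by
    intro h0
    have h1 := hev 0
    rw [h0] at h1
    simp at h1
  have hdeg : P.natDegree ≤ k := by
    have := Polynomial.natDegree_det_X_add_C_le B (1 : Matrix (Fin k) (Fin k) K)
    rwa [Fintype.card_fin] at this
  obtain ⟨t, ht, hdet⟩ : ∃ t : K, t ≠ 0 ∧ (1 + t • B).det ≠ 0 := by
    by_contra hcon
    push Not at hcon
    have hsub : (Finset.univ.erase (0 : K)) ⊆ P.roots.toFinset := by
      intro s hs
      rw [Finset.mem_erase] at hs
      rw [Multiset.mem_toFinset, Polynomial.mem_roots hne, Polynomial.IsRoot, hev]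
      exact hcon s hs.1
    have h2 := Finset.card_le_card hsub
    rw [Finset.card_erase_of_mem (Finset.mem_univ _), Finset.card_univ] at h2
    have h3 := Multiset.toFinset_card_le P.roots
    have h4 := Polynomial.card_roots' P
    omega
  refine ⟨t, ht, ?_⟩
  have hrows : LinearIndependent K (fun i => g (u i + t • w i)) := by
    have h1 : LinearIndependent K (1 + t • B).row := by
      rw [Matrix.linearIndependent_rows_iff_isUnit, Matrix.isUnit_iff_isUnit_det]
      exact isUnit_iff_ne_zero.2 hdet
    have h2 : (fun i => g (u i + t • w i)) = (1 + t • B).row := by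
      funext i j
      rw [map_add, map_smul, hgu]
      simp [Matrix.row, hB, Matrix.one_apply, Pi.single_apply, eq_comm]
    rw [h2]
    exact h1
  exact LinearIndependent.of_comp g hrows

theorem exists_pre {K X Y : Type*} [Field K] [AddCommGroup X] [Module K X] [AddCommGroup Y]
    [Module K Y] [FiniteDimensional K X] [FiniteDimensional K Y] (M : X →ₗ[K] Y) :
    ∃ x : Fin (finrank K (LinearMap.range M)) → X, LinearIndependent K (fun i => M (x i)) ∧
      ∀ i, M (x i) ∈ LinearMap.range M := by
  let b := finBasis K (LinearMap.range M)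
  have hx : ∀ i, ∃ x, M x = (b i : Y) := fun i => (b i).2
  choose x hx using hx
  refine ⟨x, ?_, fun i => ⟨x i, rfl⟩⟩
  simp only [hx]
  exact b.linearIndependent.map' (LinearMap.range M).subtype (Submodule.ker_subtype _)

theorem le_rank {K X Y : Type*} [Field K] [AddCommGroup X] [Module K X] [AddCommGroup Y]
    [Module K Y] [FiniteDimensional K X] [FiniteDimensional K Y] (L : X →ₗ[K] Y) {k : ℕ}
    (v : Fin k → Y) (hv : LinearIndependent K v) (h : ∀ i, v i ∈ LinearMap.range L) :
    k ≤ finrank K (LinearMap.range L) := by
  have h1 : LinearIndependent K (fun i => (⟨v i, h i⟩ : LinearMap.range L)) := by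
    apply LinearIndependent.of_comp (LinearMap.range L).subtype
    exact hv
  simpa using h1.fintype_card_le_finrank

/-- PROOF. Suppose `c ∈ ker M` and `N c ∉ range M`. Let `v_i` (`i : Fin ρ`) be a basis of `range M`, `M x_i = v_i`.
The family `(v_0, …, v_{ρ-1}, N c)` of `ρ + 1` vectors is linearly independent; by `exists_indep` (with
`w_i = N x_i` and `w_last = 0`) there is `t ≠ 0` with `(M x_i + t N x_i)_i, N c` linearly independent. They lie in
`range (M + t • N)` (`(M + t N)(t⁻¹ c) = N c`), so its rank is at least `ρ + 1`: contradiction. -/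
theorem tangent {K X Y : Type*} [Field K] [Fintype K] [AddCommGroup X] [Module K X] [AddCommGroup Y] [Module K Y]
    [FiniteDimensional K X] [FiniteDimensional K Y] (M N : X →ₗ[K] Y)
    (hK : finrank K (LinearMap.range M) + 3 ≤ Fintype.card K)
    (h : ∀ t : K, finrank K (LinearMap.range (M + t • N)) ≤ finrank K (LinearMap.range M)) :
    ∀ c ∈ LinearMap.ker M, N c ∈ LinearMap.range M := by
  intro c hc
  by_contra hcon
  obtain ⟨x, hx, hxr⟩ := exists_pre M
  have h1 : LinearIndependent K (Fin.cons (N c) (fun i => M (x i)) : Fin _ → Y) := by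
    rw [linearIndependent_finCons]
    refine ⟨hx, fun h2 => hcon ?_⟩
    refine Submodule.span_le.2 ?_ h2
    rintro _ ⟨i, rfl⟩
    exact hxr i
  obtain ⟨t, ht, hli⟩ := exists_indep _ (Fin.cons 0 (fun i => N (x i)) : Fin _ → Y) h1 (by omega)
  have h3 := le_rank (M + t • N) _ hli (by
    intro i
    induction i using Fin.cases with
    | zero =>
      refine ⟨t⁻¹ • c, ?_⟩
      rw [LinearMap.mem_ker] at hc
      simp [hc, ht]
    | succ i =>
      refine ⟨x i, ?_⟩
      simp)
  have h4 := h t
  omega

/-- PROOF. `v_i` a basis of `range M`, `M x_i = v_i`; `exists_indep` with `w_i = N x_i` gives `t ≠ 0` with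
`M x_i + t N x_i` independent, so `rank (M + t N) ≥ ρ`; the kernel of `M + t N` contains `ker M` and has dimension
`dim X - rank ≤ dim ker M`, so both kernels are equal. -/
theorem persist {K X Y : Type*} [Field K] [Fintype K] [AddCommGroup X] [Module K X] [AddCommGroup Y] [Module K Y]
    [FiniteDimensional K X] [FiniteDimensional K Y] (M N : X →ₗ[K] Y)
    (hK : finrank K (LinearMap.range M) + 3 ≤ Fintype.card K)
    (hker : LinearMap.ker M ≤ LinearMap.ker N) :
    ∃ t : K, t ≠ 0 ∧ LinearMap.ker (M + t • N) = LinearMap.ker M ∧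
      finrank K (LinearMap.range (M + t • N)) = finrank K (LinearMap.range M) := by
  obtain ⟨x, hx, hxr⟩ := exists_pre M
  obtain ⟨t, ht, hli⟩ := exists_indep _ (fun i => N (x i)) hx (by omega)
  have h3 := le_rank (M + t • N) _ hli (by
    intro i
    refine ⟨x i, ?_⟩
    simp)
  have h4 : LinearMap.ker M ≤ LinearMap.ker (M + t • N) := by
    intro v hv
    have h5 := hker hv
    rw [LinearMap.mem_ker] at hv h5 ⊢
    simp [hv, h5]
  have h6 := LinearMap.finrank_range_add_finrank_ker M
  have h7 := LinearMap.finrank_range_add_finrank_ker (M + t • N)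
  have h8 := Submodule.finrank_mono h4
  refine ⟨t, ht, ?_, ?_⟩
  · symm
    apply Submodule.eq_of_le_of_finrank_eq h4
    omega
  · omega

end Pool.Agent.XLR
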