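import Pool.Agent.Work.MP_218513_lc.Fourier

/-! MP_218513_lc, module QuadImage: a quadratic function with few Walsh coefficients has small rank. -/

set_option autoImplicit false

namespace Pool.Agent.XLR

open Module

theorem dot_const_zero {n : ℕ} (μ : Fin n → ZMod 2) (c : ZMod 2) (h : ∀ x, μ ⬝ᵥ x = c) : μ = 0 := by
  have h0 : c = 0 := by
    rw [← h 0, dotProduct_zero]
  funext i
  have := h (Pi.single i 1)
  rw [dotProduct_single, mul_one, h0] at this
  exact this

/-- The kernel size of a function. -/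
def kerSize {n : ℕ} (L : (Fin n → ZMod 2) → (Fin n → ZMod 2)) : ℕ :=
  (Finset.univ.filter (fun v => L v = 0)).card

/-- The Walsh coefficients of a quadratic function are small. -/
theorem quad_W_sq_le {n : ℕ} (Q : (Fin n → ZMod 2) → ZMod 2)
    (L : (Fin n → ZMod 2) → (Fin n → ZMod 2))
    (c : (Fin n → ZMod 2) → ZMod 2) (hQ : ∀ v x, Q (x + v) + Q x = L v ⬝ᵥ x + c v)
    (α : Fin n → ZMod 2) : W (fun x => sg (Q x)) α ^ 2 ≤ 2 ^ n * kerSize L := by
  classical
  set h : (Fin n → ZMod 2) → ℤ := fun x => sg (Q x) with hh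
  have e1 : W h α ^ 2 = ∑ x, ∑ v, h x * h (x + v) * sg (α ⬝ᵥ v) := by
    rw [sq, show W h α * W h α = (∑ x, h x * sg (α ⬝ᵥ x)) * W h α from rfl, Finset.sum_mul]
    refine Finset.sum_congr rfl fun x _ => ?_
    rw [show W h α = ∑ y, h y * sg (α ⬝ᵥ y) from rfl,
      ← Equiv.sum_comp (Equiv.addLeft x) (fun y => h y * sg (α ⬝ᵥ y)), Finset.mul_sum]
    refine Finset.sum_congr rfl fun v _ => ?_
    rw [Equiv.coe_addLeft, dotProduct_add, sg_add]
    have := sg_mul_self (α ⬝ᵥ x)
    calc h x * sg (α ⬝ᵥ x) * (h (x + v) * (sg (α ⬝ᵥ x) * sg (α ⬝ᵥ v)))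
        = h x * h (x + v) * (sg (α ⬝ᵥ x) * sg (α ⬝ᵥ x)) * sg (α ⬝ᵥ v) := by ring
      _ = _ := by rw [this, mul_one]
  have e2 : ∀ x v : Fin n → ZMod 2, h x * h (x + v) * sg (α ⬝ᵥ v) =
      sg (α ⬝ᵥ v + c v) * sg (L v ⬝ᵥ x) := by
    intro x v
    rw [hh]
    simp only
    rw [← sg_add, ← sg_add, ← sg_add]
    congr 1
    have := hQ v x
    rw [add_comm (Q x), this]
    abel
  rw [e1, Finset.sum_comm]
  simp_rw [e2, ← Finset.mul_sum, sum_sg]
  have e3 : ∀ v : Fin n → ZMod 2, sg (α ⬝ᵥ v + c v) * (if L v = 0 then (2 : ℤ) ^ n else 0) ≤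
      if L v = 0 then 2 ^ n else 0 := by
    intro v
    split_ifs with hv
    · have : sg (α ⬝ᵥ v + c v) ≤ 1 := by
        generalize α ⬝ᵥ v + c v = a
        revert a
        decide
      have h2 : (0 : ℤ) ≤ 2 ^ n := by positivity
      nlinarith
    · simp
  refine (Finset.sum_le_sum fun v _ => e3 v).trans ?_
  rw [← Finset.sum_filter, Finset.sum_const, nsmul_eq_mul, mul_comm]
  rfl

/-- The linear part of the derivative of a quadratic function is additive. -/
theorem quad_additive {n : ℕ} (Q : (Fin n → ZMod 2) → ZMod 2)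
    (L : (Fin n → ZMod 2) → (Fin n → ZMod 2))
    (c : (Fin n → ZMod 2) → ZMod 2) (hQ : ∀ v x, Q (x + v) + Q x = L v ⬝ᵥ x + c v) :
    ∀ v w, L (v + w) = L v + L w := by
  intro v w
  have h1 : ∀ x, (L (v + w) + (L v + L w)) ⬝ᵥ x = c (v + w) + (L w ⬝ᵥ v + c w + c v) := by
    intro x
    have a1 := hQ (v + w) x
    have a2 := hQ w (x + v)
    have a3 := hQ v x
    rw [← add_assoc x v w] at a1
    rw [dotProduct_add] at a2
    rw [add_dotProduct, add_dotProduct]
    revert a1 a2 a3
    generalize Q (x + v + w) = q1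
    generalize Q (x + v) = q2
    generalize Q x = q3
    generalize L (v + w) ⬝ᵥ x = l1
    generalize L w ⬝ᵥ x = l2
    generalize L w ⬝ᵥ v = l3
    generalize L v ⬝ᵥ x = l4
    generalize c (v + w) = c1
    generalize c w = c2
    generalize c v = c3
    intro a1 a2 a3
    have two : (2 : ZMod 2) = 0 := rfl
    linear_combination a1 + a2 + a3 + (-q1 - q2 - q3 + l1 + l2 + l4) * two
  have h2 := dot_const_zero _ _ h1
  exact (add_eq_zero_iff' _ _).1 h2

/-- All fibres of an additive map have the same size. -/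
theorem range_mul_kerSize {n : ℕ} (L : (Fin n → ZMod 2) → (Fin n → ZMod 2))
    (hadd : ∀ v w, L (v + w) = L v + L w) : (Set.range L).ncard * kerSize L = 2 ^ n := by
  classical
  let L' : (Fin n → ZMod 2) →+ (Fin n → ZMod 2) :=
    { toFun := L
      map_zero' := by
        have := hadd 0 0
        rw [add_zero] at this
        have h3 : L 0 + 0 = L 0 + L 0 := by rw [add_zero]; exact this
        exact (add_left_cancel h3).symm
      map_add' := hadd }
  have hcard : Nat.card L'.ker * Nat.card L'.range = 2 ^ n := by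
    rw [← AddSubgroup.index_ker, AddSubgroup.card_mul_index]
    simp [ZMod.card]
  have hker : Nat.card L'.ker = kerSize L := by
    rw [kerSize, ← Fintype.card_subtype, ← Nat.card_eq_fintype_card]
    rfl
  have hran : Nat.card L'.range = (Set.range L).ncard := by
    rw [← Nat.card_coe_set_eq]
    rfl
  rw [← hran, ← hker, mul_comm]
  exact hcard

theorem kerSize_pos {n : ℕ} (L : (Fin n → ZMod 2) → (Fin n → ZMod 2))
    (hadd : ∀ v w, L (v + w) = L v + L w) : 0 < kerSize L := by
  rcases Nat.eq_zero_or_pos (kerSize L) with h | h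
  · have := range_mul_kerSize L hadd
    rw [h, mul_zero] at this
    exact absurd this.symm (by positivity)
  · exact h

/-- PROOF. Put `h x = sg (Q x)`, `N₀ = #{v | L v = 0}`. For every `α`,
`(W h α)^2 = ∑_v ∑_x h x h (x+v) sg (α ⬝ᵥ v) = ∑_v sg (α ⬝ᵥ v + c v) ∑_x sg (L v ⬝ᵥ x) ≤ 2^n N₀`.
By `parseval`, `4^n = ∑_α (W h α)^2 ≤ spar h * 2^n * N₀`, so `2^n ≤ spar h * N₀`.
`L` is additive: comparing `Q (x+v+w) + Q x` computed in two ways, `L (v+w) = L v + L w` (a function
`x ↦ μ ⬝ᵥ x + const` which is zero has `μ = 0`), so all fibres of `L` have size `N₀` and `(range L).ncard * N₀ = 2^n`. -/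
theorem quad_image_le {n : ℕ} (Q : (Fin n → ZMod 2) → ZMod 2) (L : (Fin n → ZMod 2) → (Fin n → ZMod 2))
    (c : (Fin n → ZMod 2) → ZMod 2) (hQ : ∀ v x, Q (x + v) + Q x = L v ⬝ᵥ x + c v) :
    (Set.range L).ncard ≤ spar (fun x => sg (Q x)) := by
  classical
  set h : (Fin n → ZMod 2) → ℤ := fun x => sg (Q x) with hh
  have hP : (4 : ℤ) ^ n ≤ spar h * (2 ^ n * kerSize L) := by
    have h1 : ∑ α, W h α ^ 2 = 4 ^ n := by
      rw [parseval]
      have : ∀ x, h x ^ 2 = 1 := fun x => by
        rw [sq]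
        exact sg_mul_self _
      simp_rw [this]
      simp only [Finset.sum_const, Finset.card_univ, Fintype.card_pi, ZMod.card, Finset.prod_const,
        Fintype.card_fin, nsmul_eq_mul, mul_one, Nat.cast_pow, Nat.cast_ofNat]
      rw [← mul_pow]
      norm_num
    rw [← h1]
    have h2 : ∑ α, W h α ^ 2 = ∑ α ∈ Finset.univ.filter (fun α => W h α ≠ 0), W h α ^ 2 := by
      rw [Finset.sum_filter]
      refine Finset.sum_congr rfl fun α _ => ?_
      split_ifs with hα
      · rfl
      · push Not at hα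
        rw [hα]
        norm_num
    rw [h2]
    refine (Finset.sum_le_card_nsmul _ _ _ fun α _ => quad_W_sq_le Q L c hQ α).trans ?_
    rw [nsmul_eq_mul]
    rfl
  have hP2 : 2 ^ n ≤ spar h * kerSize L := by
    have h1 : (2 : ℤ) ^ n * 2 ^ n ≤ 2 ^ n * (spar h * kerSize L) := by
      calc (2 : ℤ) ^ n * 2 ^ n = 4 ^ n := by rw [← mul_pow]; norm_num
        _ ≤ spar h * (2 ^ n * kerSize L) := hP
        _ = _ := by ring
    have h2 : (2 : ℤ) ^ n ≤ spar h * kerSize L := le_of_mul_le_mul_left h1 (by positivity)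
    exact_mod_cast h2
  have hadd := quad_additive Q L c hQ
  have h4 : (Set.range L).ncard * kerSize L ≤ spar h * kerSize L := by
    rw [range_mul_kerSize L hadd]
    exact hP2
  exact le_of_mul_le_mul_right h4 (kerSize_pos L hadd)

end Pool.Agent.XLR
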