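import Mathlib

/-! MP_218513_lc, module RankIneq: a rank inequality for two linear maps.

PROOF. Put `π = mkQ (range M)`, `N₁ = π ∘ N : X → Y / range M`, `N' = N₁` restricted to `ker M`,
`L = ker N₁ = {x | N x ∈ range M}`. Then
* `rank N = rank N₁ + dim N(L)` (rank-nullity for `π` restricted to `range N`, or: `ker N ≤ L`,
  `rank N = dim X - dim ker N`, `dim N(L) = dim L - dim ker N`, `rank N₁ = dim X - dim L`);
* the same for `N + M`, because `π ∘ (N + M) = π ∘ N = N₁`: `rank (N+M) = rank N₁ + dim (N+M)(L)`;
* `M(L) ≤ N(L) + (N+M)(L)` (as `M x = (N+M) x - N x`), so `dim M(L) ≤ dim N(L) + dim (N+M)(L)`;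
* `dim M(L) = dim L - dim (L ⊓ ker M)`, `L ⊓ ker M ≅ ker N'`, `dim ker N' = dim ker M - rank N'`,
  `dim L = dim X - rank N₁`, and `rank N' ≤ rank N₁`.
Adding up: `rank N + rank (N+M) ≥ 2 rank N₁ + dim X - rank N₁ - dim ker M + rank N' ≥ rank M + 2 rank N'`. -/

set_option autoImplicit false

namespace Pool.Agent.XLR

open Module

/-- Rank-nullity for a map restricted to a subspace. -/
private theorem ri_map_add_ker {K X Y : Type*} [Field K] [AddCommGroup X] [Module K X]
    [AddCommGroup Y] [Module K Y] [FiniteDimensional K X]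
    (f : X →ₗ[K] Y) (S : Submodule K X) :
    finrank K (S.map f) + finrank K (S ⊓ LinearMap.ker f : Submodule K X) = finrank K S := by
  have h := (f.domRestrict S).finrank_range_add_finrank_ker
  have h1 : LinearMap.range (f.domRestrict S) = S.map f := LinearMap.range_domRestrict S f
  have h2 : (LinearMap.ker (f.domRestrict S)).map S.subtype = S ⊓ LinearMap.ker f := by
    ext x
    constructor
    · rintro ⟨y, hy, rfl⟩
      exact ⟨y.2, by simpa [LinearMap.mem_ker] using hy⟩
    · rintro ⟨hx, hk⟩
      exact ⟨⟨x, hx⟩, by simpa [LinearMap.mem_ker] using hk, rfl⟩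
  have h3 : finrank K ((LinearMap.ker (f.domRestrict S)).map S.subtype)
      = finrank K (LinearMap.ker (f.domRestrict S)) :=
    Submodule.finrank_map_subtype_eq S _
  rw [h2] at h3
  rw [h1] at h
  omega

theorem rank_ineq {K X Y : Type*} [Field K] [AddCommGroup X] [Module K X] [AddCommGroup Y] [Module K Y]
    [FiniteDimensional K X] [FiniteDimensional K Y] (M N : X →ₗ[K] Y) :
    finrank K (LinearMap.range M)
      + 2 * finrank K (LinearMap.range ((LinearMap.range M).mkQ ∘ₗ N ∘ₗ (LinearMap.ker M).subtype))
      ≤ finrank K (LinearMap.range N) + finrank K (LinearMap.range (N + M)) := by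
  set N₁ : X →ₗ[K] (Y ⧸ LinearMap.range M) := (LinearMap.range M).mkQ ∘ₗ N with hN₁
  set L : Submodule K X := LinearMap.ker N₁ with hL
  have memL : ∀ x, x ∈ L ↔ N x ∈ LinearMap.range M := by
    intro x
    rw [hL, LinearMap.mem_ker, hN₁, LinearMap.comp_apply, Submodule.mkQ_apply,
      Submodule.Quotient.mk_eq_zero]
  have e1 := M.finrank_range_add_finrank_ker
  have e2 := N.finrank_range_add_finrank_ker
  have e3 := (N + M).finrank_range_add_finrank_ker
  have e4 : finrank K (LinearMap.range N₁) + finrank K L = finrank K X :=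
    N₁.finrank_range_add_finrank_ker
  have e5 := ri_map_add_ker N L
  have e6 := ri_map_add_ker (N + M) L
  have e7 := ri_map_add_ker M L
  have k1 : L ⊓ LinearMap.ker N = LinearMap.ker N := by
    refine inf_eq_right.mpr ?_
    intro x hx
    rw [memL, LinearMap.mem_ker.mp hx]
    exact zero_mem _
  have k2 : L ⊓ LinearMap.ker (N + M) = LinearMap.ker (N + M) := by
    refine inf_eq_right.mpr ?_
    intro x hx
    rw [memL]
    have h0 : N x + M x = 0 := by simpa using LinearMap.mem_ker.mp hx
    have h1 : N x = - M x := eq_neg_of_add_eq_zero_left h0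
    rw [h1]
    exact neg_mem ⟨x, rfl⟩
  rw [k1] at e5
  rw [k2] at e6
  have e8 : finrank K (L.map M) ≤ finrank K (L.map N) + finrank K (L.map (N + M)) := by
    have hle : L.map M ≤ L.map N ⊔ L.map (N + M) := by
      rintro _ ⟨x, hx, rfl⟩
      have : M x = - N x + (N + M) x := by simp
      rw [this]
      exact Submodule.add_mem_sup (neg_mem ⟨x, hx, rfl⟩) ⟨x, hx, rfl⟩
    exact (Submodule.finrank_mono hle).trans (Submodule.finrank_add_le_finrank_add_finrank _ _)
  set N' := (LinearMap.range M).mkQ ∘ₗ N ∘ₗ (LinearMap.ker M).subtype with hN'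
  have e9 := N'.finrank_range_add_finrank_ker
  have e10 : finrank K (LinearMap.ker N') = finrank K (L ⊓ LinearMap.ker M : Submodule K X) := by
    have h2 : (LinearMap.ker N').map (LinearMap.ker M).subtype = L ⊓ LinearMap.ker M := by
      ext x
      constructor
      · rintro ⟨y, hy, rfl⟩
        exact ⟨hy, y.2⟩
      · rintro ⟨hx, hk⟩
        exact ⟨⟨x, hk⟩, hx, rfl⟩
    rw [← h2, Submodule.finrank_map_subtype_eq]
  have e11 : finrank K (LinearMap.range N') ≤ finrank K (LinearMap.range N₁) := by
    apply Submodule.finrank_mono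
    rintro _ ⟨x, rfl⟩
    exact ⟨x.1, rfl⟩
  omega

/-- The rank of a map is at most the rank of its compression `ker M → Y / range M` plus twice the rank of `M`.
PROOF. `rank L ≤ rank (L restricted to ker M) + (dim X - dim ker M)` and
`rank (L restricted to ker M) ≤ rank (compression) + dim range M`. -/
theorem rank_le_compress {K X Y : Type*} [Field K] [AddCommGroup X] [Module K X] [AddCommGroup Y] [Module K Y]
    [FiniteDimensional K X] [FiniteDimensional K Y] (M L : X →ₗ[K] Y) :
    finrank K (LinearMap.range L)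
      ≤ finrank K (LinearMap.range ((LinearMap.range M).mkQ ∘ₗ L ∘ₗ (LinearMap.ker M).subtype))
        + 2 * finrank K (LinearMap.range M) := by
  have e1 := M.finrank_range_add_finrank_ker
  have e2 := L.finrank_range_add_finrank_ker
  have e3 := ri_map_add_ker L (LinearMap.ker M)
  have e4 := ri_map_add_ker (LinearMap.range M).mkQ ((LinearMap.ker M).map L)
  have e5 : finrank K (LinearMap.ker M ⊓ LinearMap.ker L : Submodule K X)
      ≤ finrank K (LinearMap.ker L) := Submodule.finrank_mono inf_le_right
  have e6 : finrank K ((LinearMap.ker M).map L ⊓ LinearMap.ker (LinearMap.range M).mkQ : Submodule K Y)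
      ≤ finrank K (LinearMap.range M) := by
    apply Submodule.finrank_mono
    rw [Submodule.ker_mkQ]
    exact inf_le_right
  have e7 : LinearMap.range ((LinearMap.range M).mkQ ∘ₗ L ∘ₗ (LinearMap.ker M).subtype)
      = ((LinearMap.ker M).map L).map (LinearMap.range M).mkQ := by
    rw [LinearMap.range_comp, LinearMap.range_comp, Submodule.range_subtype]
  rw [e7]
  omega

end Pool.Agent.XLR
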