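import Pool.Agent.Work.MP_218513_lc.Defs
import Pool.Agent.Work.MP_218513_lc.Pencil

/-! MP_218513_lc, module Vanish: a symmetric `(d+2)`-linear form over a large finite field vanishes on the radical
of a bilinear slice of maximal rank.

PROOF. Induction on `d`, for all `T`. Write `R = ker (bil K T b)`.
* `d = 0`: `b = 0`, `m = {x}` with `x ∈ R`; `T (y ::ₘ {x}) = bil K T 0 y x = bil K T 0 x y = 0`.
* `d + 1`: `b = b₁ ::ₘ b'`, `m = x₁ ::ₘ m'`, all elements of `m` in `R`.
 (i) for every `w : V` and `t : K`, `bil K T ((b₁ + t • w) ::ₘ b') = bil K T (b₁ ::ₘ b') + t • bil K T (w ::ₘ b')`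
   (linearity in one slot), its rank is `≤ ρ`; by `tangent`, for `x, c ∈ R`: `bil K T (w ::ₘ b') x ∈ range (bil K T b)`,
   say `= bil K T b z`, so `T (x, c, w, b') = bil K T b z c = bil K T b c z = 0`.
 (ii) hence `R ≤ ker (bil K T (x₁ ::ₘ b'))`: for `c ∈ R`, `w : V`: `bil K T (x₁ ::ₘ b') c w = T (c, w, x₁, b') = 0` by (i).
 (iii) `persist` gives `t ≠ 0` such that `bil K T ((b₁ + t • x₁) ::ₘ b')` has kernel `R` and rank `ρ`.
 (iv) the induction hypothesis for the form `T' = fun m => T ((b₁ + t • x₁) ::ₘ m)` of order `d + 2`, with the tuple `b'`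
   (note `bil K T' b'' = bil K T ((b₁ + t • x₁) ::ₘ b'')` up to permuting the arguments), gives
   `T ((b₁ + t • x₁) ::ₘ y ::ₘ m') = 0`.
 (v) the induction hypothesis for `fun m => T (b₁ ::ₘ m)` gives `T (b₁ ::ₘ y ::ₘ m') = 0`.
 (vi) subtracting, `t * T (x₁ ::ₘ y ::ₘ m') = 0`, so `T (y ::ₘ x₁ ::ₘ m') = 0`. -/

set_option autoImplicit false

namespace Pool.Agent.XLR

open Module

theorem vanish_swap {V : Type*} (a v w : V) (b : Multiset V) :
    v ::ₘ w ::ₘ a ::ₘ b = a ::ₘ v ::ₘ w ::ₘ b := by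
  rw [Multiset.cons_swap w a b, Multiset.cons_swap v a]

theorem exists_cons_of_card {V : Type*} {d : ℕ} {m : Multiset V} (h : m.card = d + 1) :
    ∃ (a : V) (m' : Multiset V), m'.card = d ∧ m = a ::ₘ m' := by
  obtain ⟨a, ha⟩ := Multiset.card_pos_iff_exists_mem.1 (by omega : 0 < m.card)
  obtain ⟨m', rfl⟩ := Multiset.exists_cons_of_mem ha
  refine ⟨a, m', ?_, rfl⟩
  rw [Multiset.card_cons] at h
  omega

theorem bil_line {K V : Type*} [Field K] [AddCommGroup V] [Module K V] {d : ℕ}
    {T : Multiset V → K} (hT : IsForm K (d + 3) T) (b₁ w : V) (t : K) (b' : Multiset V)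
    (hb : b'.card = d) :
    bil K T ((b₁ + t • w) ::ₘ b') = bil K T (b₁ ::ₘ b') + t • bil K T (w ::ₘ b') := by
  have h : ∀ a : V, IsForm K ((a ::ₘ b').card + 2) T := by
    intro a
    rw [Multiset.card_cons, hb]
    exact hT
  ext v u
  rw [LinearMap.add_apply, LinearMap.add_apply, LinearMap.smul_apply, LinearMap.smul_apply,
    bil_apply (h _), bil_apply (h _), bil_apply (h _), vanish_swap (b₁ + t • w) v u b',
    vanish_swap b₁ v u b', vanish_swap w v u b',
    hT.add _ _ _ (by simp [hb]), hT.smul _ _ _ (by simp [hb]), smul_eq_mul]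

theorem bil_cons {K V : Type*} [Field K] [AddCommGroup V] [Module K V] {d : ℕ}
    {T : Multiset V → K} (hT : IsForm K (d + 3) T) (a : V) (b' : Multiset V)
    (hb : b'.card = d) :
    bil K (fun m => T (a ::ₘ m)) b' = bil K T (a ::ₘ b') := by
  have h : IsForm K ((a ::ₘ b').card + 2) T := by
    rw [Multiset.card_cons, hb]
    exact hT
  have h' : IsForm K (b'.card + 2) (fun m => T (a ::ₘ m)) := by
    rw [hb]
    exact hT.cons a
  ext v u
  rw [bil_apply h, bil_apply h', vanish_swap a v u b']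

theorem vanish_of_max {K V : Type*} [Field K] [Fintype K] [AddCommGroup V] [Module K V] [FiniteDimensional K V]
    (d : ℕ) : ∀ (T : Multiset V → K), IsForm K (d + 2) T → ∀ ρ : ℕ, ρ + 3 ≤ Fintype.card K →
      (∀ b : Multiset V, b.card = d → finrank K (LinearMap.range (bil K T b)) ≤ ρ) →
      ∀ b : Multiset V, b.card = d → finrank K (LinearMap.range (bil K T b)) = ρ →
      ∀ (y : V) (m : Multiset V), m.card = d + 1 → (∀ x ∈ m, x ∈ LinearMap.ker (bil K T b)) →
        T (y ::ₘ m) = 0 := by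
  induction d with
  | zero =>
    intro T hT ρ _ _ b hb _ y m hm hx
    rw [Multiset.card_eq_zero] at hb
    subst hb
    rw [Multiset.card_eq_one] at hm
    obtain ⟨x, rfl⟩ := hm
    have h1 : bil K T 0 x = 0 := hx x (by simp)
    have h2 : IsForm K ((0 : Multiset V).card + 2) T := by simpa using hT
    have h3 := bil_apply h2 y x
    rw [bil_symm h2, h1] at h3
    rw [← Multiset.cons_zero x, ← h3]
    rfl
  | succ d ih =>
    intro T hT ρ hρ hle b hb hrk y m hm hx
    obtain ⟨b₁, b', hb', rfl⟩ := exists_cons_of_card hb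
    obtain ⟨x₁, m', hm', rfl⟩ := exists_cons_of_card hm
    have hT' : IsForm K (d + 3) T := hT
    have hF : ∀ a : V, IsForm K ((a ::ₘ b').card + 2) T := by
      intro a
      rw [Multiset.card_cons, hb']
      exact hT
    set M := bil K T (b₁ ::ₘ b') with hM
    -- (i)
    have P1 : ∀ w x c : V, x ∈ LinearMap.ker M → c ∈ LinearMap.ker M →
        bil K T (w ::ₘ b') x c = 0 := by
      intro w x c hx' hc
      have h1 := tangent M (bil K T (w ::ₘ b')) (by rw [hrk]; exact hρ) (by
        intro t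
        rw [hM, ← bil_line hT' b₁ w t b' hb', ← hM, hrk]
        exact hle _ (by simp [hb'])) x hx'
      obtain ⟨z, hz⟩ := h1
      rw [← hz, hM, bil_symm (hF b₁), ← hM, LinearMap.mem_ker.1 hc]
      rfl
    have hx₁ : x₁ ∈ LinearMap.ker M := hx x₁ (Multiset.mem_cons_self _ _)
    -- (ii)
    have P2 : LinearMap.ker M ≤ LinearMap.ker (bil K T (x₁ ::ₘ b')) := by
      intro c hc
      rw [LinearMap.mem_ker]
      ext w
      have h1 := P1 w x₁ c hx₁ hc
      rw [bil_apply (hF w)] at h1
      rw [bil_apply (hF x₁), LinearMap.zero_apply, ← h1]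
      congr 1
      rw [vanish_swap x₁ c w b', Multiset.cons_swap c w b']
    -- (iii)
    obtain ⟨t, ht, hk, hr⟩ := persist M (bil K T (x₁ ::ₘ b')) (by rw [hrk]; exact hρ) P2
    have hline : M + t • bil K T (x₁ ::ₘ b') = bil K T ((b₁ + t • x₁) ::ₘ b') := by
      rw [bil_line hT' b₁ x₁ t b' hb']
    rw [hline] at hk hr
    have hy : ∀ a : V, finrank K (LinearMap.range (bil K T (a ::ₘ b'))) = ρ →
        LinearMap.ker (bil K T (a ::ₘ b')) = LinearMap.ker M → T (a ::ₘ y ::ₘ m') = 0 := by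
      intro a ha1 ha2
      have h1 := ih (fun m => T (a ::ₘ m)) (hT.cons a) ρ hρ (by
        intro b'' hb''
        rw [bil_cons hT' a b'' hb'']
        exact hle _ (by simp [hb''])) b' hb' (by
        rw [bil_cons hT' a b' hb']
        exact ha1) y m' hm' (by
        intro x hx'
        rw [bil_cons hT' a b' hb', ha2]
        exact hx x (Multiset.mem_cons_of_mem hx'))
      exact h1
    have h1 := hy (b₁ + t • x₁) (by rw [hr, hrk]) hk
    have h2 := hy b₁ hrk rfl
    rw [hT'.add _ _ _ (by simp [hm']), hT'.smul _ _ _ (by simp [hm']), h2, zero_add] at h1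
    rw [Multiset.cons_swap]
    exact (mul_eq_zero.1 h1).resolve_left ht

end Pool.Agent.XLR
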